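import Mathlib

/-!
# Twists of GL(2) newforms by all Dirichlet characters : definitions and statements of the parts

Owner helper388.  Every `def ... : Prop` whose name begins with `St` is the statement of one part of
the project; a proof of it is a theorem `t_... : St...` in a file of its own.
(This file only needs Mathlib; `D1` needs the window function `H385.Rw`, `Defs` the family
machinery `Pool.Agent.H385R2`.)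
-/

set_option autoImplicit false

open Complex Filter Topology Set MeasureTheory UpperHalfPlane MatrixGroups CongruenceSubgroup

namespace W388


/-! ## mean square (T2) -/

/-- weak Selberg orthonormality : `∑_{n ≤ x} Λ(n) |c(n)|² / n ∼ log x`. -/
def SelE (c : ℕ → ℂ) : Prop :=
  Tendsto (fun x : ℝ => (∑ n ∈ Finset.Icc 1 ⌊x⌋₊, ArithmeticFunction.vonMangoldt n * ‖c n‖ ^ 2 / n) / Real.log x) atTop (𝓝 1)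

/-- `W(u) = ∑ Λ(n) |c(n)|² / n · exp(-(u - log n)² / 4)` -/
noncomputable def Wu (c : ℕ → ℂ) (u : ℝ) : ℝ :=
  ∑' n : ℕ, ArithmeticFunction.vonMangoldt n * ‖c n‖ ^ 2 / n * Real.exp (-(u - Real.log n) ^ 2 / 4)

/-- non-coprime part -/
noncomputable def Gqc (c : ℕ → ℂ) (q : ℕ) (u : ℝ) : ℝ := ∑' n : ℕ, (if Nat.Coprime n q then 0 else
  ArithmeticFunction.vonMangoldt n * ‖c n‖ / Real.sqrt n * Real.exp (-(u - Real.log n) ^ 2 / 4))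

/-- the tail -/
noncomputable def Tlc (c : ℕ → ℂ) (N : ℕ) (u : ℝ) : ℝ := ∑' n : ℕ, (if N < n then
  ArithmeticFunction.vonMangoldt n * ‖c n‖ / Real.sqrt n * Real.exp (-(u - Real.log n) ^ 2 / 4) else 0)

/-- T2b : non-coprime sums and tails. -/
def StNonCop : Prop := ∀ (c : ℕ → ℂ), SelE c →
  (∀ u : ℝ, Summable (fun n : ℕ =>
    ArithmeticFunction.vonMangoldt n * ‖c n‖ / Real.sqrt n * Real.exp (-(u - Real.log n) ^ 2 / 4))) ∧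
  (∃ C : ℝ, 0 < C ∧ ∀ X Y P : ℕ, 1 ≤ X → X ≤ Y → 1 ≤ P → ∀ u : ℝ,
    ∑ q ∈ Finset.Ioc X (P * Y), (1 / (q : ℝ)) * Gqc c q u ^ 2 ≤
      C * (Real.log ((Y : ℝ) / X) + Real.log P + 1) * Wu c u) ∧
  (∀ P : ℕ, 1 ≤ P → ∃ C : ℝ, 0 < C ∧ ∀ u : ℝ, Gqc c P u ^ 2 ≤ C * Wu c u) ∧
  (∀ β ε1 : ℝ, 0 < β → β < 2 → 0 < ε1 → ∀ᶠ L : ℝ in atTop, ∀ (X : ℕ) (u : ℝ),
    Real.log X = L → 0 ≤ u → u ≤ β * L → Tlc c ⌊ε1 / 8 * (X : ℝ) ^ 2⌋₊ u ≤ 1)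

/-! ## arithmetic part (T3) -/

/-- normalised Hecke eigenvalues of a newform of level `N`, trivial character, real coefficients -/
structure HeckeSeq (N : ℕ) (lam : ℕ → ℝ) : Prop where
  zero : lam 0 = 0
  one : lam 1 = 1
  mul : ∀ m n : ℕ, Nat.Coprime m n → lam (m * n) = lam m * lam n
  pow : ∀ p j : ℕ, p.Prime →
    lam (p ^ (j + 2)) = lam p * lam (p ^ (j + 1)) - (if p ∣ N then 0 else lam (p ^ j))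

/-- On prime powers `cS N lam (p^j)` is the sum `α^j + β^j` of the `j`-th powers of the Satake
parameters (`λ(p^j) - λ(p^(j-2))` for `p ∤ N`, and `λ(p^j) = λ(p)^j` for `p ∣ N`). -/
noncomputable def cS (N : ℕ) (lam : ℕ → ℝ) (n : ℕ) : ℝ :=
  lam n - (if n.minFac ^ 2 ∣ n ∧ ¬ n.minFac ∣ N then lam (n / n.minFac ^ 2) else 0)

/-- coefficients of `ζ^(N)(2s) ∑ λ(n)² n^(-s)` -/
noncomputable def AA (N : ℕ) (lam : ℕ → ℝ) (n : ℕ) : ℝ :=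
  ∑ m ∈ (Finset.Icc 1 n).filter (fun m => m ^ 2 ∣ n ∧ Nat.Coprime m N), lam (n / m ^ 2) ^ 2

/-- T3a -/
def StId1 : Prop := ∀ (N : ℕ) (lam : ℕ → ℝ), HeckeSeq N lam → ∀ n : ℕ, n ≠ 0 →
  lam n * Real.log n = ∑ d ∈ n.divisors, ArithmeticFunction.vonMangoldt d * cS N lam d * lam (n / d)

/-- T3b -/
def StId2 : Prop := ∀ (N : ℕ) (lam : ℕ → ℝ), HeckeSeq N lam → ∀ n : ℕ, n ≠ 0 →
  AA N lam n * Real.log n = ∑ d ∈ n.divisors, ArithmeticFunction.vonMangoldt d * cS N lam d ^ 2 * AA N lam (n / d)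

/-- Rankin–Selberg : the residue of `∑ λ(n)² n^(-s)` at `s = 1` along the real axis -/
def RSLim (lam : ℕ → ℝ) : Prop :=
  (∀ σ : ℝ, 0 < σ → Summable (fun n : ℕ => lam n ^ 2 * (n : ℝ) ^ (-(1 + σ)))) ∧
  ∃ κ : ℝ, 0 < κ ∧
    Tendsto (fun σ : ℝ => σ * ∑' n : ℕ, lam n ^ 2 * (n : ℝ) ^ (-(1 + σ))) (𝓝[>] 0) (𝓝 κ)

/-- T3c : Karamata's Tauberian theorem -/
def StKara : Prop := ∀ v : ℕ → ℝ, (∀ n, 0 ≤ v n) → v 0 = 0 →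
  (∀ σ : ℝ, 0 < σ → Summable (fun n : ℕ => v n * (n : ℝ) ^ (-σ))) →
  Tendsto (fun σ : ℝ => σ * ∑' n : ℕ, v n * (n : ℝ) ^ (-σ)) (𝓝[>] 0) (𝓝 1) →
  Tendsto (fun x : ℝ => (∑ n ∈ Finset.Icc 1 ⌊x⌋₊, v n) / Real.log x) atTop (𝓝 1)

/-- T3d -/
def StSel : Prop := ∀ (N : ℕ), 0 < N → ∀ (lam : ℕ → ℝ), HeckeSeq N lam → RSLim lam →
  SelE (fun n => (cS N lam n : ℂ)) ∧
  (∀ σ : ℝ, 0 < σ → Summable (fun n : ℕ => ArithmeticFunction.vonMangoldt n * cS N lam n ^ 2 * (n : ℝ) ^ (-(1 + σ)))) ∧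
  (∃ C : ℝ, ∀ σ : ℝ, 0 < σ → σ ≤ 1 →
    ∑' n : ℕ, ArithmeticFunction.vonMangoldt n / Real.log n * cS N lam n ^ 2 * (n : ℝ) ^ (-(1 + σ)) ≤ Real.log (1 / σ) + C)

/-! ## twisted L-functions : Dirichlet series side (T6) -/

/-- T6a : logarithmic derivative, lower bound, Euler product for the Dirichlet series
`L(s) = ∑ χ(n) λ(n) n^(-s)`. -/
def StDir : Prop := ∀ (N : ℕ), 0 < N → ∀ (lam : ℕ → ℝ), HeckeSeq N lam → RSLim lam →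
  ∃ A : ℝ, 1 ≤ A ∧ Summable (fun n : ℕ => ArithmeticFunction.vonMangoldt n * |cS N lam n| * (n : ℝ) ^ (-(3 / 2) : ℝ)) ∧
    ∑' n : ℕ, ArithmeticFunction.vonMangoldt n * |cS N lam n| * (n : ℝ) ^ (-(3 / 2) : ℝ) ≤ A ∧
    ∀ (q : ℕ) [NeZero q] (χ : DirichletCharacter ℂ q) (F : ℂ → ℂ),
      (∀ s : ℂ, 1 < s.re → F s = ∑' n : ℕ, χ (n : ZMod q) * (lam n : ℂ) * (n : ℂ) ^ (-s)) →
      (∀ s : ℂ, 1 < s.re → Summable (fun n : ℕ =>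
        ‖χ (n : ZMod q) * (lam n : ℂ) * (n : ℂ) ^ (-s)‖)) ∧
      (∀ s : ℂ, 1 < s.re → F s ≠ 0) ∧
      (∀ s : ℂ, 1 < s.re → deriv F s / F s =
        - ∑' n : ℕ, χ (n : ZMod q) * (cS N lam n : ℂ) * (ArithmeticFunction.vonMangoldt n : ℂ) * (n : ℂ) ^ (-s)) ∧
      (∀ s : ℂ, 3 / 2 ≤ s.re → ‖F s‖ ≤ A) ∧
      (∀ s : ℂ, 2 ≤ s.re → A⁻¹ ≤ ‖F s‖) ∧
      (∀ s : ℂ, 1 < s.re → HasProd (fun p : Nat.Primes =>
        (1 - χ ((p : ℕ) : ZMod q) * (lam p : ℂ) * ((p : ℕ) : ℂ) ^ (-s) +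
          (if (p : ℕ) ∣ N then 0 else χ ((p : ℕ) : ZMod q) ^ 2 * ((p : ℕ) : ℂ) ^ (-2 * s)))⁻¹) (F s))

/-- T6b : no zeros on `Re s = 1` (away from the real axis). -/
def StNzr : Prop := ∀ (N : ℕ), 0 < N → ∀ (lam : ℕ → ℝ), HeckeSeq N lam → RSLim lam →
  ∀ (q : ℕ) [NeZero q] (χ : DirichletCharacter ℂ q) (F : ℂ → ℂ), Differentiable ℂ F →
    (∀ s : ℂ, 1 < s.re → F s = ∑' n : ℕ, χ (n : ZMod q) * (lam n : ℂ) * (n : ℂ) ^ (-s)) →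
    ∀ s : ℂ, s.re = 1 → s.im ≠ 0 → F s ≠ 0

/-! ## functional equation side (T5) -/

/-- the archimedean factor `(√N Q / 2π)^s Γ(s + (k-1)/2)` -/
noncomputable def GG (k : ℤ) (N Q : ℝ) (s : ℂ) : ℂ :=
  ((Real.sqrt N * Q / (2 * Real.pi) : ℝ) : ℂ) ^ s * Complex.Gamma (s + ((k : ℂ) - 1) / 2)

/-- functional equation data : `F` entire, `GG F` bounded in vertical strips (away from the real
axis), `GG(s) F(s) = w · conj (GG(1 - s̄) F(1 - s̄))`, `|w| = 1`, for `Im s ≠ 0`. -/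
structure FE2 (k : ℤ) (N Q : ℝ) (F : ℂ → ℂ) : Prop where
  diff : Differentiable ℂ F
  fe : ∃ w : ℂ, ‖w‖ = 1 ∧ ∀ s : ℂ, s.im ≠ 0 → GG k N Q s * F s =
    w * (starRingEnd ℂ) (GG k N Q (1 - (starRingEnd ℂ) s) * F (1 - (starRingEnd ℂ) s))
  vert : ∀ a b : ℝ, ∃ C : ℝ, ∀ s : ℂ, a ≤ s.re → s.re ≤ b → 1 ≤ |s.im| → ‖GG k N Q s * F s‖ ≤ C

/-- T5c : analytic consequences of the functional equation, uniform in `Q ≥ 1`. -/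
def StFE : Prop := ∀ (k : ℤ), 1 ≤ k → ∀ (N : ℝ), 1 ≤ N → ∀ (B : ℝ), 1 ≤ B →
  ∃ A : ℝ, 1 ≤ A ∧ ∀ (Q : ℝ), 1 ≤ Q → ∀ (F : ℂ → ℂ), FE2 k N Q F →
    (∀ s : ℂ, 3 / 2 ≤ s.re → ‖F s‖ ≤ B) →
    (∀ s : ℂ, 1 ≤ s.re → 1 ≤ |s.im| → F s ≠ 0) →
    (∀ s : ℂ, (1 / 16 : ℝ) ≤ s.re → s.re ≤ 4 → 1 ≤ s.im → ‖F s‖ ≤ A * (Q * s.im) ^ A) ∧
    (∀ s : ℂ, s.re ≤ 0 → 1 ≤ s.im → F s ≠ 0) ∧
    (∀ s : ℂ, 0 < s.re → s.re < 1 → 1 ≤ s.im →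
      analyticOrderAt F (1 - (starRingEnd ℂ) s) = analyticOrderAt F s) ∧
    (∀ s : ℂ, -1 / 2 ≤ s.re → s.re ≤ 1 / 2 → 1 ≤ s.im → F s ≠ 0 →
      ‖deriv F s / F s + ((2 * Real.log (Q * s.im) : ℝ) : ℂ) +
        (starRingEnd ℂ) (deriv F (1 - (starRingEnd ℂ) s) / F (1 - (starRingEnd ℂ) s))‖ ≤ A)

/-- T5b : Mellin transform. `b` of polynomial growth, `Φ(t) = ∑ b(n) e^(-2π n t / R)`,
`Φ*(t) = ∑ conj b(n) e^(-2π n t / R)` and `Φ(1/t) = w t^k Φ*(t)` give an entire `F` with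
`F(s) = ∑ b(n) n^(-(s + (k-1)/2))` and the functional equation. -/
def StMellin : Prop := ∀ (k : ℤ), 1 ≤ k → ∀ (N Q : ℝ), 1 ≤ N → 1 ≤ Q → ∀ (b : ℕ → ℂ) (m C : ℝ),
  b 0 = 0 → 0 ≤ m → (∀ n : ℕ, 1 ≤ n → ‖b n‖ ≤ C * (n : ℝ) ^ m) →
  ∀ w : ℂ, ‖w‖ = 1 →
  (∀ t : ℝ, 0 < t → ∑' n : ℕ, b n * (Real.exp (-(2 * Real.pi * n / (Real.sqrt N * Q)) / t) : ℂ) =
    w * (t : ℂ) ^ k * ∑' n : ℕ, (starRingEnd ℂ) (b n) *
      (Real.exp (-(2 * Real.pi * n / (Real.sqrt N * Q)) * t) : ℂ)) →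
  ∃ F : ℂ → ℂ, FE2 k N Q F ∧ ∀ s : ℂ, m + 2 < s.re →
    F s = ∑' n : ℕ, b n * (n : ℂ) ^ (-(s + ((k : ℂ) - 1) / 2))

/-! ## modular forms -/

/-- `f` is a newform-like form of level `N`, weight `k`, trivial character: real Fourier
coefficients `a(n)`, `a(1) = 1`, Hecke relations, and eigenfunction of the Fricke involution
`f(-1/(Nτ)) = ε (√N τ / i)^k f(τ)`, `ε = ± 1`. -/
structure IsNewf (N : ℕ) (k : ℤ) (f : CuspForm (Gamma0 N : Subgroup (GL (Fin 2) ℝ)) k) (ε : ℝ) :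
    Prop where
  one : (qExpansion 1 f).coeff 1 = 1
  real : ∀ n, ((qExpansion 1 f).coeff n).im = 0
  mul : ∀ m n : ℕ, Nat.Coprime m n → (qExpansion 1 f).coeff (m * n) =
    (qExpansion 1 f).coeff m * (qExpansion 1 f).coeff n
  pow : ∀ p j : ℕ, p.Prime → (qExpansion 1 f).coeff (p ^ (j + 2)) =
    (qExpansion 1 f).coeff p * (qExpansion 1 f).coeff (p ^ (j + 1)) -
      (if p ∣ N then 0 else (p : ℂ) ^ (k - 1) * (qExpansion 1 f).coeff (p ^ j))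
  sign : ε = 1 ∨ ε = -1
  fricke : ∀ τ τ' : ℍ, (τ' : ℂ) * ((N : ℂ) * (τ : ℂ)) = -1 →
    f τ' = (ε : ℂ) * (((Real.sqrt N : ℝ) : ℂ) * (τ : ℂ) / Complex.I) ^ k * f τ

/-- normalised coefficients `a(n) / n^((k-1)/2)` -/
noncomputable def lamf {N : ℕ} {k : ℤ} (f : CuspForm (Gamma0 N : Subgroup (GL (Fin 2) ℝ)) k)
    (n : ℕ) : ℝ :=
  ((qExpansion 1 f).coeff n).re / (n : ℝ) ^ (((k : ℝ) - 1) / 2)

/-- T5a : the theta-type relation for the twists. -/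
def StTwist : Prop := ∀ (N : ℕ) [NeZero N] (k : ℤ), 1 ≤ k →
  ∀ (f : CuspForm (Gamma0 N : Subgroup (GL (Fin 2) ℝ)) k) (ε : ℝ), IsNewf N k f ε →
  ∀ (q : ℕ) [NeZero q] (χ : DirichletCharacter ℂ q), χ.IsPrimitive → Nat.Coprime q N →
  ∃ w : ℂ, ‖w‖ = 1 ∧ ∀ t : ℝ, 0 < t →
    ∑' n : ℕ, χ (n : ZMod q) * (qExpansion 1 f).coeff n *
      (Real.exp (-(2 * Real.pi * n / (Real.sqrt N * q)) / t) : ℂ) =
    w * (t : ℂ) ^ k * ∑' n : ℕ, (starRingEnd ℂ) (χ (n : ZMod q) * (qExpansion 1 f).coeff n) *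
      (Real.exp (-(2 * Real.pi * n / (Real.sqrt N * q)) * t) : ℂ)

/-! ## Rankin–Selberg (T4) -/

/-- indicator of the strip `0 ≤ Re z < 1` -/
noncomputable def strip (z : ℍ) : ENNReal := if 0 ≤ z.re ∧ z.re < 1 then 1 else 0

/-- the Eisenstein series of level `N` as a sum over the group `Γ₀(N) ⊂ SL(2,ℤ)` -/
noncomputable def EisG (N : ℕ) (s : ℝ) (z : ℍ) : ENNReal :=
  ∑' γ : Gamma0 N, strip ((γ : SL(2, ℤ)) • z) * ENNReal.ofReal (((γ : SL(2, ℤ)) • z).im ^ s)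

/-- T4a : unfolding -/
def StUnfold : Prop := ∀ (N : ℕ) [NeZero N] (φ : ℍ → ENNReal), Measurable φ →
  (∀ γ : SL(2, ℤ), γ ∈ Gamma0 N → ∀ z : ℍ, φ (γ • z) = φ z) → ∀ s : ℝ,
  (∀ z : ℍ, EisG N 2 z ≠ 0 ∧ EisG N 2 z ≠ ⊤) →
  ∫⁻ z : ℍ, strip z * (φ z * ENNReal.ofReal (z.im ^ s)) =
    ∫⁻ z : ℍ, strip z * (φ z * ENNReal.ofReal (z.im ^ (2 : ℝ)) * (EisG N s z / EisG N 2 z))

/-- T4b : the Eisenstein series as a sum over coprime pairs `(c, d)`, `N ∣ c`. -/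
def StEisPairs : Prop := ∀ (N : ℕ) [NeZero N] (s : ℝ) (z : ℍ), EisG N s z =
  ∑' p : {p : ℤ × ℤ // IsCoprime p.1 p.2 ∧ (N : ℤ) ∣ p.1},
    ENNReal.ofReal ((z.im / ‖(p.1.1 : ℂ) * (z : ℂ) + (p.1.2 : ℂ)‖ ^ 2) ^ s)

/-- T4c : the residue of the Eisenstein series at `s = 1` -/
def StEisLim : Prop := ∀ (N : ℕ) [NeZero N], ∃ κ : ℝ, 0 < κ ∧ ∀ z : ℍ,
  (∀ σ : ℝ, 0 < σ → Summable (fun p : {p : ℤ × ℤ // IsCoprime p.1 p.2 ∧ (N : ℤ) ∣ p.1} =>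
    (z.im / ‖(p.1.1 : ℂ) * (z : ℂ) + (p.1.2 : ℂ)‖ ^ 2) ^ (1 + σ))) ∧
  Tendsto (fun σ : ℝ => σ * ∑' p : {p : ℤ × ℤ // IsCoprime p.1 p.2 ∧ (N : ℤ) ∣ p.1},
    (z.im / ‖(p.1.1 : ℂ) * (z : ℂ) + (p.1.2 : ℂ)‖ ^ 2) ^ (1 + σ)) (𝓝[>] 0) (𝓝 κ)

/-- T4d : bound for the level one Eisenstein series, in the fundamental domain -/
def StEisBd : Prop := ∃ C : ℝ, 0 < C ∧ ∀ z : ℍ, Real.sqrt 3 / 2 ≤ z.im → |z.re| ≤ 1 / 2 →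
  1 ≤ ‖(z : ℂ)‖ → ∀ σ : ℝ, 0 < σ → σ ≤ 1 →
  ∑' p : {p : ℤ × ℤ // IsCoprime p.1 p.2},
    ENNReal.ofReal ((z.im / ‖(p.1.1 : ℂ) * (z : ℂ) + (p.1.2 : ℂ)‖ ^ 2) ^ (1 + σ)) ≤
    ENNReal.ofReal (C * z.im ^ 2 / σ)

/-- T4e : cusp forms decay at all cusps, uniformly -/
def StCusp : Prop := ∀ (N : ℕ) [NeZero N] (k : ℤ)
  (f : CuspForm (Gamma0 N : Subgroup (GL (Fin 2) ℝ)) k), ∃ C : ℝ, 0 < C ∧
  ∀ (ρ : SL(2, ℤ)) (z : ℍ), 1 / 2 ≤ z.im →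
    ‖f (ρ • z)‖ ^ 2 * (ρ • z).im ^ k * z.im ^ 8 ≤ C

/-- T4f : Parseval and Mellin transform -/
def StPars : Prop := ∀ (N : ℕ) [NeZero N] (k : ℤ), 1 ≤ k →
  ∀ (f : CuspForm (Gamma0 N : Subgroup (GL (Fin 2) ℝ)) k), ∀ σ : ℝ, 0 < σ →
  ∫⁻ z : ℍ, strip z * (ENNReal.ofReal (‖f z‖ ^ 2 * z.im ^ k) * ENNReal.ofReal (z.im ^ (1 + σ))) =
    ENNReal.ofReal (Real.Gamma (k + σ) / (4 * Real.pi) ^ ((k : ℝ) + σ)) *
      ∑' n : ℕ, ENNReal.ofReal (‖(qExpansion 1 f).coeff n‖ ^ 2 * (n : ℝ) ^ (-((k : ℝ) + σ)))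

/-- T4 : the Rankin–Selberg limit -/
def StRS : Prop := ∀ (N : ℕ) [NeZero N] (k : ℤ), 1 ≤ k →
  ∀ (f : CuspForm (Gamma0 N : Subgroup (GL (Fin 2) ℝ)) k) (ε : ℝ), IsNewf N k f ε →
    RSLim (lamf f)

end W388
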