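import Pool.Agent.W388.TW.D0

/-!
# TW-Pars : Parseval and Mellin transform of `|f|² y^k` over the strip
-/

set_option autoImplicit false

open Complex Filter Topology Set MeasureTheory UpperHalfPlane MatrixGroups CongruenceSubgroup
open scoped ComplexConjugate

namespace W388.XPars


theorem one_mem0 (N : ℕ) [NeZero N] :
    (1 : ℝ) ∈ (Gamma0 N : Subgroup (GL (Fin 2) ℝ)).strictPeriods := by
  rw [strictPeriods_Gamma0]
  exact AddSubgroup.mem_zmultiples 1

/-- the point `x + i y` -/
noncomputable def pt (x y : ℝ) (hy : 0 < y) : ℍ := ⟨(x : ℂ) + y * Complex.I, by simpa using hy⟩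

theorem continuous_pt (y : ℝ) (hy : 0 < y) : Continuous (fun x : ℝ => pt x y hy) := by
  unfold pt
  apply Continuous.upperHalfPlaneMk
  fun_prop

section

variable {N : ℕ} [NeZero N] {k : ℤ} (f : CuspForm (Gamma0 N : Subgroup (GL (Fin 2) ℝ)) k)

omit [NeZero N] in
theorem cont_f : Continuous (f : ℍ → ℂ) := (CuspFormClass.holo f).continuous

theorem norm_q (x y : ℝ) (n : ℕ) : ‖Function.Periodic.qParam 1 ((x : ℂ) + y * Complex.I) ^ n‖ =
    Real.exp (-(2 * Real.pi * n * y)) := by
  rw [norm_pow]
  unfold Function.Periodic.qParam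
  rw [Complex.norm_exp, ← Real.exp_nat_mul]
  congr 1
  simp
  ring

theorem hasSum_f (x y : ℝ) (hy : 0 < y) :
    HasSum (fun m : ℕ => (qExpansion 1 f).coeff m * Function.Periodic.qParam 1 ((x : ℂ) + y * Complex.I) ^ m)
      (f (pt x y hy)) :=
  ModularForm.hasSum_qExpansion (Γ := (Gamma0 N : Subgroup (GL (Fin 2) ℝ))) (k := k) f one_pos
    (one_mem0 N) (pt x y hy)

theorem summable_norm (y : ℝ) (hy : 0 < y) :
    Summable (fun m : ℕ => ‖(qExpansion 1 f).coeff m‖ * Real.exp (-(2 * Real.pi * m * y))) := by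
  have h := (hasSum_f f 0 y hy).summable.norm
  refine h.congr fun m => ?_
  rw [norm_mul, norm_q]

theorem norm_le (x y : ℝ) (hy : 0 < y) : ‖f (pt x y hy)‖ ≤
    ∑' m : ℕ, ‖(qExpansion 1 f).coeff m‖ * Real.exp (-(2 * Real.pi * m * y)) := by
  have h := hasSum_f f x y hy
  rw [← h.tsum_eq]
  refine (norm_tsum_le_tsum_norm ?_).trans (le_of_eq ?_)
  · exact h.summable.norm
  · refine tsum_congr fun m => ?_
    rw [norm_mul, norm_q]

theorem coeff_int (y : ℝ) (hy : 0 < y) (n : ℕ) :
    ∫ x in (0 : ℝ)..1, 1 / Function.Periodic.qParam 1 ((x : ℂ) + y * Complex.I) ^ n * f (pt x y hy) =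
      (qExpansion 1 f).coeff n := by
  have h := ModularFormClass.qExpansion_coeff_eq_intervalIntegral (k := k)
    (Γ := (Gamma0 N : Subgroup (GL (Fin 2) ℝ))) f one_pos (one_mem0 N) n hy
  rw [h]
  simp only [Complex.ofReal_one, ne_eq, one_ne_zero, not_false_eq_true, div_self, one_mul]
  rfl

theorem conj_int (y : ℝ) (hy : 0 < y) (n : ℕ) :
    ∫ x in (0 : ℝ)..1, Function.Periodic.qParam 1 ((x : ℂ) + y * Complex.I) ^ n * conj (f (pt x y hy)) =
      ((Real.exp (-(4 * Real.pi * n * y)) : ℝ) : ℂ) * conj ((qExpansion 1 f).coeff n) := by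
  have h := coeff_int f y hy n
  rw [← h]
  have e1 : conj (∫ x in (0 : ℝ)..1, 1 / Function.Periodic.qParam 1 ((x : ℂ) + y * Complex.I) ^ n * f (pt x y hy)) =
      ∫ x in (0 : ℝ)..1, conj (1 / Function.Periodic.qParam 1 ((x : ℂ) + y * Complex.I) ^ n * f (pt x y hy)) := by
    rw [intervalIntegral.integral_of_le zero_le_one, intervalIntegral.integral_of_le zero_le_one]
    exact (integral_conj).symm
  rw [e1, ← intervalIntegral.integral_const_mul]
  apply intervalIntegral.integral_congr
  intro x _
  simp only [map_mul, map_div₀, map_one]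
  have hz : Function.Periodic.qParam 1 ((x : ℂ) + y * Complex.I) ^ n ≠ 0 := pow_ne_zero _ (Complex.exp_ne_zero _)
  have hz' : conj (Function.Periodic.qParam 1 ((x : ℂ) + y * Complex.I) ^ n) ≠ 0 := (map_ne_zero _).2 hz
  have hn : Function.Periodic.qParam 1 ((x : ℂ) + y * Complex.I) ^ n * conj (Function.Periodic.qParam 1 ((x : ℂ) + y * Complex.I) ^ n) =
      ((Real.exp (-(4 * Real.pi * n * y)) : ℝ) : ℂ) := by
    rw [Complex.mul_conj, Complex.normSq_eq_norm_sq, norm_q, ← Real.exp_nat_mul]
    congr 2
    push_cast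
    ring
  rw [← hn]
  field_simp

theorem parseval (y : ℝ) (hy : 0 < y) :
    HasSum (fun n : ℕ => ‖(qExpansion 1 f).coeff n‖ ^ 2 * Real.exp (-(4 * Real.pi * n * y)))
      (∫ x in (0 : ℝ)..1, ‖f (pt x y hy)‖ ^ 2) := by
  have hcont : Continuous (fun x : ℝ => f (pt x y hy)) := (cont_f f).comp (continuous_pt y hy)
  have hq : Continuous (fun x : ℝ => Function.Periodic.qParam 1 ((x : ℂ) + y * Complex.I)) := by
    unfold Function.Periodic.qParam
    fun_prop
  set M : ℝ := ∑' m : ℕ, ‖(qExpansion 1 f).coeff m‖ * Real.exp (-(2 * Real.pi * m * y)) with hM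
  have key : HasSum (fun n : ℕ => ∫ x in (0 : ℝ)..1,
      ((qExpansion 1 f).coeff n * Function.Periodic.qParam 1 ((x : ℂ) + y * Complex.I) ^ n) * conj (f (pt x y hy)))
      (∫ x in (0 : ℝ)..1, f (pt x y hy) * conj (f (pt x y hy))) := by
    apply intervalIntegral.hasSum_integral_of_dominated_convergence
      (fun n _ => ‖(qExpansion 1 f).coeff n‖ * Real.exp (-(2 * Real.pi * n * y)) * M)
    · intro n
      apply Continuous.aestronglyMeasurable
      exact (continuous_const.mul (hq.pow n)).mul (Complex.continuous_conj.comp hcont)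
    · intro n
      refine Filter.Eventually.of_forall fun x _ => ?_
      rw [norm_mul, norm_mul, norm_q, Complex.norm_conj]
      exact mul_le_mul_of_nonneg_left (norm_le f x y hy) (by positivity)
    · exact Filter.Eventually.of_forall fun x _ => (summable_norm f y hy).mul_right M
    · exact intervalIntegrable_const
    · refine Filter.Eventually.of_forall fun x _ => ?_
      exact (hasSum_f f x y hy).mul_right _
  have e1 : ∀ n : ℕ, ∫ x in (0 : ℝ)..1,
      ((qExpansion 1 f).coeff n * Function.Periodic.qParam 1 ((x : ℂ) + y * Complex.I) ^ n) * conj (f (pt x y hy)) =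
      ((‖(qExpansion 1 f).coeff n‖ ^ 2 * Real.exp (-(4 * Real.pi * n * y)) : ℝ) : ℂ) := by
    intro n
    simp_rw [mul_assoc]
    rw [intervalIntegral.integral_const_mul]
    have := conj_int f y hy n
    simp_rw [mul_assoc] at this
    rw [this, mul_left_comm, Complex.mul_conj, Complex.normSq_eq_norm_sq]
    push_cast
    ring
  have e2 : (∫ x in (0 : ℝ)..1, f (pt x y hy) * conj (f (pt x y hy))) =
      ((∫ x in (0 : ℝ)..1, ‖f (pt x y hy)‖ ^ 2 : ℝ) : ℂ) := by
    rw [← intervalIntegral.integral_ofReal]
    apply intervalIntegral.integral_congr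
    intro x _
    simp only
    rw [Complex.mul_conj, Complex.normSq_eq_norm_sq]
  rw [e2] at key
  simp_rw [e1] at key
  exact_mod_cast key

theorem lint_inner (y : ℝ) (hy : 0 < y) :
    ∫⁻ x in Ico (0 : ℝ) 1, ENNReal.ofReal (‖f (pt x y hy)‖ ^ 2) =
      ∑' n : ℕ, ENNReal.ofReal
        (‖(qExpansion 1 f).coeff n‖ ^ 2 * Real.exp (-(4 * Real.pi * n * y))) := by
  have hcont : Continuous (fun x : ℝ => ‖f (pt x y hy)‖ ^ 2) :=
    ((cont_f f).comp (continuous_pt y hy)).norm.pow 2
  have h := parseval f y hy
  rw [← ENNReal.ofReal_tsum_of_nonneg (fun n => by positivity) h.summable, h.tsum_eq,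
    intervalIntegral.integral_of_le zero_le_one, setLIntegral_congr Ico_ae_eq_Ioc]
  rw [ofReal_integral_eq_lintegral_ofReal]
  · exact (hcont.integrableOn_Icc (a := 0) (b := 1)).mono_set Ioc_subset_Icc_self
  · exact Filter.Eventually.of_forall fun x => by positivity

end

theorem measurable_ofComplex : Measurable (fun w : ℂ => (ofComplex w : ℍ)) := by
  have h : (fun w : ℂ => (ofComplex w : ℍ)) =
      Function.extend (UpperHalfPlane.coe) id (fun _ => Classical.choice inferInstance) := by
    funext w
    by_cases hw : 0 < w.im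
    · have : w = UpperHalfPlane.coe ⟨w, hw⟩ := rfl
      conv_rhs => rw [this]
      rw [measurableEmbedding_coe.injective.extend_apply, ofComplex_apply_of_im_pos hw]
      rfl
    · rw [Function.extend_apply' _ _ _ (by
        rintro ⟨z, rfl⟩
        exact hw z.im_pos), ofComplex_apply_of_im_nonpos (not_lt.1 hw)]
  rw [h]
  exact measurableEmbedding_coe.measurable_extend measurable_id measurable_const

/-- integration over `ℍ` in coordinates -/
theorem lint_H (F : ℍ → ENNReal) (hF : Measurable F) :
    ∫⁻ z : ℍ, F z = ∫⁻ y in Ioi (0 : ℝ), ∫⁻ x : ℝ,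
      F (ofComplex ((x : ℂ) + y * Complex.I)) * ENNReal.ofReal (1 / y ^ 2) := by
  have hd : Measurable (fun z : ℍ => ((((1 / NNReal.mk z.im z.im_pos.le : NNReal) ^ 2 : NNReal)) : ENNReal)) := by
    apply Measurable.coe_nnreal_ennreal
    apply Measurable.pow_const
    apply Measurable.div measurable_const
    exact (UpperHalfPlane.continuous_im.measurable).subtype_mk
  have hG : Measurable (fun w : ℂ => F (ofComplex w) * ENNReal.ofReal (1 / w.im ^ 2)) := by
    apply Measurable.mul
    · exact hF.comp measurable_ofComplex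
    · fun_prop
  set G : ℂ → ENNReal := fun w : ℂ => F (ofComplex w) * ENNReal.ofReal (1 / w.im ^ 2) with hGdef
  rw [volume_def, lintegral_withDensity_eq_lintegral_mul _ hd hF]
  have e1 : ∀ z : ℍ, (((fun z : ℍ => ((((1 / NNReal.mk z.im z.im_pos.le : NNReal) ^ 2 : NNReal)) : ENNReal)) * F) z) =
      G (z : ℂ) := by
    intro z
    simp only [Pi.mul_apply, hGdef, ofComplex_apply]
    rw [mul_comm]
    congr 1
    rw [← ENNReal.ofReal_coe_nnreal]
    congr 1
    push_cast
    simp
  have hr : Set.range (UpperHalfPlane.coe) = {w : ℂ | 0 < w.im} := by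
    ext w
    constructor
    · rintro ⟨z, rfl⟩; exact z.im_pos
    · intro h; exact ⟨⟨w, h⟩, rfl⟩
  have hm : MeasurableSet {w : ℂ | 0 < w.im} := measurableSet_lt measurable_const Complex.measurable_im
  rw [lintegral_congr e1, ← measurableEmbedding_coe.lintegral_map G, measurableEmbedding_coe.map_comap,
    hr, ← lintegral_indicator hm,
    ← (Complex.volume_preserving_equiv_real_prod.symm).lintegral_comp_emb
      Complex.measurableEquivRealProd.symm.measurableEmbedding]
  rw [show (volume : Measure (ℝ × ℝ)) = (volume : Measure ℝ).prod volume from rfl]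
  rw [lintegral_prod_symm]
  · rw [← lintegral_indicator measurableSet_Ioi]
    refine lintegral_congr fun y => ?_
    by_cases hy : 0 < y
    · rw [Set.indicator_of_mem (by exact hy)]
      refine lintegral_congr fun x => ?_
      have e3 : Complex.measurableEquivRealProd.symm (x, y) = (x : ℂ) + y * Complex.I := by
        apply Complex.ext <;> simp [Complex.measurableEquivRealProd_symm_apply]
      rw [e3, Set.indicator_of_mem]
      · simp [hGdef]
      · simpa using hy
    · rw [Set.indicator_of_notMem (by exact hy)]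
      rw [lintegral_congr (g := fun _ => 0), lintegral_zero]
      intro x
      have e3 : Complex.measurableEquivRealProd.symm (x, y) = (x : ℂ) + y * Complex.I := by
        apply Complex.ext <;> simp [Complex.measurableEquivRealProd_symm_apply]
      rw [e3, Set.indicator_of_notMem]
      simpa using hy
  · apply Measurable.aemeasurable
    exact (hG.indicator hm).comp Complex.measurableEquivRealProd.symm.measurable

theorem gamma_int (a : ℝ) (ha : 0 < a) (r : ℝ) (hr : 0 < r) :
    ∫⁻ t in Ioi (0 : ℝ), ENNReal.ofReal (t ^ (a - 1) * Real.exp (-(r * t))) =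
      ENNReal.ofReal ((1 / r) ^ a * Real.Gamma a) := by
  have h := Real.integral_rpow_mul_exp_neg_mul_Ioi ha hr
  have hpos : 0 < (1 / r) ^ a * Real.Gamma a :=
    mul_pos (Real.rpow_pos_of_pos (by positivity) _) (Real.Gamma_pos_of_pos ha)
  rw [← h, ofReal_integral_eq_lintegral_ofReal]
  · by_contra hc
    rw [integral_undef hc] at h
    linarith
  · refine (ae_restrict_iff' measurableSet_Ioi).2 (Filter.Eventually.of_forall fun t ht => ?_)
    have : (0 : ℝ) < t := ht
    positivity

theorem t_pars : W388.StPars := by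
  intro N _ k hk f σ hσ
  have hkσ : 0 < (k : ℝ) + σ := by
    have : (1 : ℝ) ≤ k := by exact_mod_cast hk
    linarith
  have hf : Measurable (fun z : ℍ => f z) := (cont_f f).measurable
  have him : Measurable (fun z : ℍ => z.im) := UpperHalfPlane.continuous_im.measurable
  have hre : Measurable (fun z : ℍ => z.re) := UpperHalfPlane.continuous_re.measurable
  have hstrip : Measurable W388.strip := by
    unfold W388.strip
    apply Measurable.ite _ measurable_const measurable_const
    exact (measurableSet_le measurable_const hre).inter (measurableSet_lt hre measurable_const)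
  have hF : Measurable (fun z : ℍ => W388.strip z *
      (ENNReal.ofReal (‖f z‖ ^ 2 * z.im ^ k) * ENNReal.ofReal (z.im ^ (1 + σ)))) := by
    have hz : Measurable (fun z : ℍ => z.im ^ k) :=
      (UpperHalfPlane.continuous_im.zpow₀ k (fun z => Or.inl z.im_ne_zero)).measurable
    have h1 : Measurable (fun z : ℍ => ENNReal.ofReal (‖f z‖ ^ 2 * z.im ^ k)) :=
      ((hf.norm.pow_const 2).mul hz).ennreal_ofReal
    have h2 : Measurable (fun z : ℍ => ENNReal.ofReal (z.im ^ (1 + σ))) :=
      (him.pow_const (1 + σ)).ennreal_ofReal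
    exact hstrip.mul (h1.mul h2)
  rw [lint_H _ hF]
  have e1 : ∀ y ∈ Ioi (0 : ℝ), (∫⁻ x : ℝ, W388.strip (ofComplex ((x : ℂ) + y * Complex.I)) *
      (ENNReal.ofReal (‖f (ofComplex ((x : ℂ) + y * Complex.I))‖ ^ 2 *
        (ofComplex ((x : ℂ) + y * Complex.I)).im ^ k) *
        ENNReal.ofReal ((ofComplex ((x : ℂ) + y * Complex.I)).im ^ (1 + σ))) *
        ENNReal.ofReal (1 / y ^ 2)) = ∑' n : ℕ, ENNReal.ofReal (‖(qExpansion 1 f).coeff n‖ ^ 2) *
        ENNReal.ofReal (y ^ ((k : ℝ) + σ - 1) * Real.exp (-(4 * Real.pi * n * y))) := by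
    intro y hy
    have hy : 0 < y := hy
    have e2 : ∀ x : ℝ, (ofComplex ((x : ℂ) + y * Complex.I)) = pt x y hy := by
      intro x
      rw [ofComplex_apply_of_im_pos]
      rfl
    have e3 : ∀ x : ℝ, (pt x y hy).im = y := by
      intro x; simp [pt, UpperHalfPlane.im]
    have e4 : ∀ x : ℝ, (pt x y hy).re = x := by
      intro x; simp [pt, UpperHalfPlane.re]
    simp_rw [e2, e3]
    have e5 : ∀ x : ℝ, W388.strip (pt x y hy) * (ENNReal.ofReal (‖f (pt x y hy)‖ ^ 2 * y ^ k) *
        ENNReal.ofReal (y ^ (1 + σ))) * ENNReal.ofReal (1 / y ^ 2) =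
        (Ico (0 : ℝ) 1).indicator (fun x => ENNReal.ofReal (‖f (pt x y hy)‖ ^ 2) *
          ENNReal.ofReal (y ^ ((k : ℝ) + σ - 1))) x := by
      intro x
      by_cases hx : x ∈ Ico (0 : ℝ) 1
      · rw [Set.indicator_of_mem hx]
        unfold W388.strip
        rw [e4, if_pos (show 0 ≤ x ∧ x < 1 from hx), one_mul, ← ENNReal.ofReal_mul (by positivity),
          ← ENNReal.ofReal_mul (by positivity), ← ENNReal.ofReal_mul (by positivity)]
        congr 1
        rw [Real.rpow_sub hy, Real.rpow_add hy, Real.rpow_add hy, Real.rpow_intCast, Real.rpow_one]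
        field_simp
      · rw [Set.indicator_of_notMem hx]
        unfold W388.strip
        rw [e4, if_neg (show ¬ (0 ≤ x ∧ x < 1) from hx), zero_mul, zero_mul]
    simp_rw [e5]
    rw [lintegral_indicator measurableSet_Ico, lintegral_mul_const', lint_inner, ← ENNReal.tsum_mul_right]
    · refine tsum_congr fun n => ?_
      rw [← ENNReal.ofReal_mul (by positivity), ← ENNReal.ofReal_mul (by positivity)]
      congr 1
      ring
    · exact ENNReal.ofReal_ne_top
  rw [setLIntegral_congr_fun measurableSet_Ioi e1, lintegral_tsum]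
  · rw [← ENNReal.tsum_mul_left]
    refine tsum_congr fun n => ?_
    rw [lintegral_const_mul']
    · rcases Nat.eq_zero_or_pos n with h0 | hn
      · subst h0
        have : (qExpansion 1 f).coeff 0 = 0 :=
          CuspFormClass.qExpansion_coeff_zero (Γ := (Gamma0 N : Subgroup (GL (Fin 2) ℝ))) (k := k)
            f one_pos (one_mem0 N)
        simp [this]
      · have hn' : (0 : ℝ) < n := by exact_mod_cast hn
        have h := gamma_int ((k : ℝ) + σ) hkσ (4 * Real.pi * n) (by positivity)
        rw [h, ← ENNReal.ofReal_mul (by positivity), ← ENNReal.ofReal_mul]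
        · congr 1
          rw [Real.rpow_neg (by positivity), one_div, Real.inv_rpow (by positivity),
            Real.mul_rpow (by positivity) (by positivity)]
          field_simp
        · exact div_nonneg (Real.Gamma_pos_of_pos hkσ).le (by positivity)
    · exact ENNReal.ofReal_ne_top
  · intro n
    apply Measurable.aemeasurable
    fun_prop

end W388.XPars
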