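import Pool.Agent.W388.TW.Defs

/-! Assembly of `TwE` from the parts (owner helper388). -/

set_option autoImplicit false

open Complex Filter Topology Set MeasureTheory UpperHalfPlane MatrixGroups CongruenceSubgroup

namespace W388

/-! ### the normalised coefficients -/

section newf

variable {N : ℕ} [NeZero N] {k : ℤ} {f : CuspForm (Gamma0 N : Subgroup (GL (Fin 2) ℝ)) k} {ε : ℝ}

lemma coeff_zero (f : CuspForm (Gamma0 N : Subgroup (GL (Fin 2) ℝ)) k) :
    (qExpansion 1 f).coeff 0 = 0 := by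
  have h1 : (1 : ℝ) ∈ (Gamma0 N : Subgroup (GL (Fin 2) ℝ)).strictPeriods := by simp
  exact CuspFormClass.qExpansion_coeff_zero (Γ := (Gamma0 N : Subgroup (GL (Fin 2) ℝ)))
    (k := k) f one_pos h1

lemma coeff_real (hf : IsNewf N k f ε) (n : ℕ) :
    (qExpansion 1 f).coeff n = (((qExpansion 1 f).coeff n).re : ℂ) := by
  apply Complex.ext
  · simp
  · simp [hf.real n]

lemma lamf_eq (hf : IsNewf N k f ε) (n : ℕ) (hn : n ≠ 0) :
    (qExpansion 1 f).coeff n = (lamf f n : ℂ) * (n : ℂ) ^ (((k : ℂ) - 1) / 2) := by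
  have hn0 : (0 : ℝ) < n := by exact_mod_cast Nat.pos_of_ne_zero hn
  rw [coeff_real hf n]
  unfold lamf
  have h1 : ((n : ℂ) ^ (((k : ℂ) - 1) / 2)) = (((n : ℝ) ^ (((k : ℝ) - 1) / 2) : ℝ) : ℂ) := by
    rw [Complex.ofReal_cpow hn0.le]
    push_cast
    rfl
  rw [h1, ← Complex.ofReal_mul, div_mul_cancel₀ _ (Real.rpow_pos_of_pos hn0 _).ne']

lemma heckeSeq_lamf (hf : IsNewf N k f ε) : HeckeSeq N (lamf f) where
  zero := by
    unfold lamf
    rw [coeff_zero f]
    simp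
  one := by
    unfold lamf
    rw [hf.one]
    simp
  mul m n h := by
    unfold lamf
    rw [hf.mul m n h, Nat.cast_mul, Real.mul_rpow (by positivity) (by positivity)]
    rw [coeff_real hf m, coeff_real hf n, ← Complex.ofReal_mul]
    simp only [Complex.ofReal_re]
    rw [mul_div_mul_comm]
  pow p j hp := by
    have hp0 : (0 : ℝ) < p := by exact_mod_cast hp.pos
    set x : ℝ := ((k : ℝ) - 1) / 2 with hx
    set P : ℝ := (p : ℝ) ^ x with hP
    have hPp : 0 < P := Real.rpow_pos_of_pos hp0 _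
    have hpow : ∀ i : ℕ, ((p ^ i : ℕ) : ℝ) ^ x = P ^ i := by
      intro i
      rw [hP, Nat.cast_pow, ← Real.rpow_natCast, ← Real.rpow_natCast, ← Real.rpow_mul hp0.le,
        ← Real.rpow_mul hp0.le, mul_comm]
    have hP2 : P ^ 2 = (p : ℝ) ^ (k - 1) := by
      rw [hP, ← Real.rpow_natCast, ← Real.rpow_mul hp0.le, hx, ← Real.rpow_intCast]
      congr 1
      push_cast
      ring
    have hre : ((qExpansion 1 f).coeff (p ^ (j + 2))).re =
        ((qExpansion 1 f).coeff p).re * ((qExpansion 1 f).coeff (p ^ (j + 1))).re -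
        (if p ∣ N then 0 else P ^ 2 * ((qExpansion 1 f).coeff (p ^ j)).re) := by
      rw [hf.pow p j hp, hP2]
      rw [coeff_real hf p, coeff_real hf (p ^ (j + 1)), coeff_real hf (p ^ j)]
      split_ifs
      · rw [← Complex.ofReal_mul, sub_zero, sub_zero]
        simp
      · have e : (p : ℂ) ^ (k - 1) = (((p : ℝ) ^ (k - 1) : ℝ) : ℂ) := by push_cast; rfl
        rw [e, ← Complex.ofReal_mul, ← Complex.ofReal_mul, ← Complex.ofReal_sub, Complex.ofReal_re]
        simp only [Complex.ofReal_re]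
    have h1 : lamf f (p ^ (j + 2)) = ((qExpansion 1 f).coeff (p ^ (j + 2))).re / P ^ (j + 2) := by
      unfold lamf
      rw [← hx, hpow]
    have h2 : lamf f (p ^ (j + 1)) = ((qExpansion 1 f).coeff (p ^ (j + 1))).re / P ^ (j + 1) := by
      unfold lamf
      rw [← hx, hpow]
    have h3 : lamf f (p ^ j) = ((qExpansion 1 f).coeff (p ^ j)).re / P ^ j := by
      unfold lamf
      rw [← hx, hpow]
    have h4 : lamf f p = ((qExpansion 1 f).coeff p).re / P := rfl
    rw [h1, h2, h3, h4, hre]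
    split_ifs
    · field_simp
      ring
    · field_simp
      ring

/-- Hecke's bound -/
lemma coeff_bound (f : CuspForm (Gamma0 N : Subgroup (GL (Fin 2) ℝ)) k) (hk : 1 ≤ k) :
    ∃ C : ℝ, ∀ n : ℕ, 1 ≤ n → ‖(qExpansion 1 f).coeff n‖ ≤ C * (n : ℝ) ^ ((k : ℝ) / 2) := by
  have h1 : (Gamma0 N : Subgroup (GL (Fin 2) ℝ)).strictWidthInfty = 1 :=
    Subgroup.strictWidthInfty_eq_one_of_T_mem (by
      rw [Gamma0_mem]; simp [ModularGroup.T])
  have h2 := CuspFormClass.qExpansion_isBigO (Γ := (Gamma0 N : Subgroup (GL (Fin 2) ℝ))) f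
  rw [h1] at h2
  obtain ⟨C, hC⟩ := h2.bound
  obtain ⟨n0, hn0⟩ := Filter.eventually_atTop.mp hC
  obtain ⟨B, hB⟩ : ∃ B : ℝ, 0 ≤ B ∧ ∀ n < n0, ‖(qExpansion 1 f).coeff n‖ ≤ B := by
    refine ⟨∑ n ∈ Finset.range n0, ‖(qExpansion 1 f).coeff n‖,
      Finset.sum_nonneg fun _ _ => norm_nonneg _, fun n hn => ?_⟩
    exact Finset.single_le_sum (f := fun n => ‖(qExpansion 1 f).coeff n‖)
      (fun _ _ => norm_nonneg _) (Finset.mem_range.mpr hn)
  refine ⟨max C B, fun n hn => ?_⟩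
  have hn1 : (1 : ℝ) ≤ n := by exact_mod_cast hn
  have hk0 : (0 : ℝ) ≤ (k : ℝ) / 2 := by
    have : (1 : ℝ) ≤ k := by exact_mod_cast hk
    linarith
  have h3 : 1 ≤ (n : ℝ) ^ ((k : ℝ) / 2) := Real.one_le_rpow hn1 hk0
  rcases lt_or_ge n n0 with h | h
  · refine (hB.2 n h).trans ?_
    calc B ≤ max C B := le_max_right _ _
      _ = max C B * 1 := (mul_one _).symm
      _ ≤ _ := mul_le_mul_of_nonneg_left h3 (le_max_of_le_right hB.1)
  · refine (hn0 n h).trans ?_
    rw [Real.norm_of_nonneg (by positivity)]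
    exact mul_le_mul_of_nonneg_right (le_max_left _ _) (by positivity)

end newf

/-! ### identity theorem -/

lemma ext_series (F : ℂ → ℂ) (hF : Differentiable ℂ F) (a : ℕ → ℂ) (ha0 : a 0 = 0)
    (hs : ∀ s : ℂ, 1 < s.re → Summable (fun n : ℕ => ‖a n * (n : ℂ) ^ (-s)‖)) (R : ℝ)
    (h : ∀ s : ℂ, R < s.re → F s = ∑' n : ℕ, a n * (n : ℂ) ^ (-s)) (s : ℂ) (hs1 : 1 < s.re) :
    F s = ∑' n : ℕ, a n * (n : ℂ) ^ (-s) := by
  have hterm : ∀ (s : ℂ) (n : ℕ), LSeries.term a s n = a n * (n : ℂ) ^ (-s) := by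
    intro s n
    unfold LSeries.term
    split_ifs with h0
    · rw [h0, ha0]; ring
    · rw [Complex.cpow_neg, div_eq_mul_inv]
  have hL : ∀ s : ℂ, LSeries a s = ∑' n : ℕ, a n * (n : ℂ) ^ (-s) := fun s =>
    tsum_congr fun n => hterm s n
  have hab : LSeries.abscissaOfAbsConv a ≤ ((1 : ℝ) : EReal) := by
    refine LSeries.abscissaOfAbsConv_le_of_forall_lt_LSeriesSummable fun y hy => ?_
    unfold LSeriesSummable
    have := (hs (y : ℂ) (by simpa using hy)).of_norm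
    refine this.congr fun n => (hterm _ n).symm
  have han : AnalyticOnNhd ℂ (LSeries a) {s : ℂ | 1 < s.re} := by
    refine (LSeries_analyticOnNhd _).mono fun s hs => ?_
    exact lt_of_le_of_lt hab (by
      have : (1 : ℝ) < s.re := hs
      exact_mod_cast this)
  have hFa : AnalyticOnNhd ℂ F {s : ℂ | 1 < s.re} := fun z _ => hF.analyticAt z
  have hpre : IsPreconnected {s : ℂ | 1 < s.re} := (convex_halfSpace_re_gt 1).isPreconnected
  set z0 : ℂ := ((max R 1 + 1 : ℝ) : ℂ) with hz0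
  have hz0r : z0.re = max R 1 + 1 := by simp [hz0]
  have hz1 : z0 ∈ {s : ℂ | 1 < s.re} := by
    show 1 < z0.re
    rw [hz0r]
    linarith [le_max_right R 1]
  have hev : F =ᶠ[𝓝 z0] LSeries a := by
    have : ∀ᶠ z in 𝓝 z0, R < z.re := by
      refine (Complex.continuous_re.isOpen_preimage _ isOpen_Ioi).mem_nhds ?_
      show R < z0.re
      rw [hz0r]
      linarith [le_max_left R 1]
    filter_upwards [this] with z hz
    rw [h z hz, hL]
  have := hFa.eqOn_of_preconnected_of_eventuallyEq han hpre hz1 hev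
  rw [this hs1, hL]

/-! ### the twists -/

/-- the twisted `L`-functions of a newform: entire, with the Dirichlet series on `Re s > 1`, and
the functional equation -/
theorem exists_twist (htw : StTwist) (hme : StMellin) {N : ℕ} [NeZero N] {k : ℤ} (hk : 1 ≤ k)
    {f : CuspForm (Gamma0 N : Subgroup (GL (Fin 2) ℝ)) k} {ε : ℝ} (hf : IsNewf N k f ε)
    (hsum : ∀ (q : ℕ) [NeZero q] (χ : DirichletCharacter ℂ q) (s : ℂ), 1 < s.re →
      Summable (fun n : ℕ => ‖χ (n : ZMod q) * (lamf f n : ℂ) * (n : ℂ) ^ (-s)‖))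
    (q : ℕ) [NeZero q] (χ : DirichletCharacter ℂ q) (hχ : χ.IsPrimitive) (hq : Nat.Coprime q N) :
    ∃ F : ℂ → ℂ, FE2 k N q F ∧ ∀ s : ℂ, 1 < s.re →
      F s = ∑' n : ℕ, χ (n : ZMod q) * (lamf f n : ℂ) * (n : ℂ) ^ (-s) := by
  obtain ⟨w, hw, hrel⟩ := htw N k hk f ε hf q χ hχ hq
  obtain ⟨C, hC⟩ := coeff_bound f hk
  have hN1 : (1 : ℝ) ≤ N := by exact_mod_cast Nat.one_le_iff_ne_zero.mpr (NeZero.ne N)
  have hq1 : (1 : ℝ) ≤ q := by exact_mod_cast Nat.one_le_iff_ne_zero.mpr (NeZero.ne q)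
  have hk0 : (0 : ℝ) ≤ (k : ℝ) / 2 := by
    have : (1 : ℝ) ≤ k := by exact_mod_cast hk
    linarith
  obtain ⟨F, hF, hFs⟩ := hme k hk N q hN1 hq1
    (fun n => χ (n : ZMod q) * (qExpansion 1 f).coeff n) ((k : ℝ) / 2) C
    (by rw [coeff_zero f, mul_zero]) hk0
    (fun n hn => by
      rw [norm_mul]
      calc ‖χ (n : ZMod q)‖ * ‖(qExpansion 1 f).coeff n‖ ≤ 1 * ‖(qExpansion 1 f).coeff n‖ :=
            mul_le_mul_of_nonneg_right (χ.norm_le_one _) (norm_nonneg _)
        _ ≤ _ := by rw [one_mul]; exact hC n hn) w hw hrel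
  refine ⟨F, hF, fun s hs => ?_⟩
  refine ext_series F hF.diff (fun n => χ (n : ZMod q) * (lamf f n : ℂ)) ?_ (hsum q χ)
    ((k : ℝ) / 2 + 2) (fun s hs => ?_) s hs
  · rw [(heckeSeq_lamf hf).zero]
    simp
  · rw [hFs s hs]
    refine tsum_congr fun n => ?_
    rcases Nat.eq_zero_or_pos n with h0 | h0
    · subst h0
      rw [coeff_zero f, (heckeSeq_lamf hf).zero]
      simp
    · have hn0 : (n : ℂ) ≠ 0 := by exact_mod_cast h0.ne'
      rw [lamf_eq hf n h0.ne']
      have : (n : ℂ) ^ (-(s + ((k : ℂ) - 1) / 2)) =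
          (n : ℂ) ^ (-s) * (n : ℂ) ^ (-(((k : ℂ) - 1) / 2)) := by
        rw [← Complex.cpow_add _ _ hn0]
        congr 1; ring
      rw [this, Complex.cpow_neg (n : ℂ) (((k : ℂ) - 1) / 2)]
      have h1 : (n : ℂ) ^ (((k : ℂ) - 1) / 2) ≠ 0 := by
        rw [Complex.cpow_def_of_ne_zero hn0]
        exact Complex.exp_ne_zero _
      field_simp

/-- everything about the twists of a newform -/
theorem newf_twists (htw : StTwist) (hme : StMellin) (hfe : StFE) (hdir : StDir) (hnz : StNzr)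
    (hrs : StRS) (hsel : StSel) {N : ℕ} [NeZero N] {k : ℤ} (hk : 1 ≤ k)
    {f : CuspForm (Gamma0 N : Subgroup (GL (Fin 2) ℝ)) k} {ε : ℝ} (hf : IsNewf N k f ε) :
    ∃ (A : ℝ) (F : (q : ℕ) → DirichletCharacter ℂ q → ℂ → ℂ), 1 ≤ A ∧
      TwE 2 A N (fun n => (cS N (lamf f) n : ℂ)) F ∧ SelE (fun n => (cS N (lamf f) n : ℂ)) ∧
      ∀ (q : ℕ) (χ : DirichletCharacter ℂ q), 1 ≤ q → Nat.Coprime q N → χ.IsPrimitive →
        Differentiable ℂ (F q χ) ∧ ∀ s : ℂ, 1 < s.re →
          HasProd (fun p : Nat.Primes =>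
            (1 - χ ((p : ℕ) : ZMod q) * (lamf f p : ℂ) * ((p : ℕ) : ℂ) ^ (-s) +
              (if (p : ℕ) ∣ N then 0 else
                χ ((p : ℕ) : ZMod q) ^ 2 * ((p : ℕ) : ℂ) ^ (-2 * s)))⁻¹) (F q χ s) := by
  have hN : 0 < N := Nat.pos_of_ne_zero (NeZero.ne N)
  have hN1 : (1 : ℝ) ≤ N := by exact_mod_cast hN
  have hH := heckeSeq_lamf hf
  have hR := hrs N k hk f ε hf
  obtain ⟨A1, hA1, d1, d2, d3⟩ := hdir N hN (lamf f) hH hR
  obtain ⟨A2, hA2, hA2'⟩ := hfe k hk N hN1 A1 hA1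
  have hsum : ∀ (q : ℕ) [NeZero q] (χ : DirichletCharacter ℂ q) (s : ℂ), 1 < s.re →
      Summable (fun n : ℕ => ‖χ (n : ZMod q) * (lamf f n : ℂ) * (n : ℂ) ^ (-s)‖) := by
    intro q _ χ s hs
    exact (d3 q χ (fun s => ∑' n : ℕ, χ (n : ZMod q) * (lamf f n : ℂ) * (n : ℂ) ^ (-s))
      (fun _ _ => rfl)).1 s hs
  classical
  have hex : ∀ (q : ℕ) (χ : DirichletCharacter ℂ q), ∃ F : ℂ → ℂ,
      (1 ≤ q → Nat.Coprime q N → χ.IsPrimitive → FE2 k N q F ∧ ∀ s : ℂ, 1 < s.re →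
      F s = ∑' n : ℕ, χ (n : ZMod q) * (lamf f n : ℂ) * (n : ℂ) ^ (-s)) := by
    intro q χ
    by_cases h : 1 ≤ q ∧ Nat.Coprime q N ∧ χ.IsPrimitive
    · obtain ⟨h1, h2, h3⟩ := h
      haveI : NeZero q := ⟨by omega⟩
      obtain ⟨F, hF⟩ := exists_twist htw hme hk hf hsum q χ h3 h2
      exact ⟨F, fun _ _ _ => hF⟩
    · exact ⟨fun _ => 0, fun h1 h2 h3 => absurd ⟨h1, h2, h3⟩ h⟩
  choose F hF using hex
  refine ⟨max A1 A2, F, le_max_of_le_left hA1, ?_, (hsel N hN (lamf f) hH hR).1, ?_⟩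
  · intro q χ hq hqN hχ
    haveI : NeZero q := ⟨by omega⟩
    have hq1 : (1 : ℝ) ≤ q := by exact_mod_cast (show 1 ≤ q by omega)
    obtain ⟨hfe2, hser⟩ := hF q χ (by omega) hqN hχ
    obtain ⟨e1, e2, e3, e4, e5, e6⟩ := d3 q χ (F q χ) hser
    have hz1 : ∀ s : ℂ, s.re = 1 → s.im ≠ 0 → F q χ s ≠ 0 :=
      hnz N hN (lamf f) hH hR q χ (F q χ) hfe2.diff hser
    have hz2 : ∀ s : ℂ, 1 ≤ s.re → 1 ≤ |s.im| → F q χ s ≠ 0 := by
      intro s h1 h2
      rcases eq_or_lt_of_le h1 with h | h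
      · refine hz1 s h.symm ?_
        intro h0
        rw [h0, abs_zero] at h2
        linarith
      · exact e2 s h
    obtain ⟨g1, g2, g3, g4⟩ := hA2' q hq1 (F q χ) hfe2 e4 hz2
    have hAmax : 0 < max A1 A2 := lt_max_of_lt_left (by linarith)
    refine ⟨fun s _ => hfe2.diff.analyticAt s, ?_, ?_, ?_, g2, g3, ?_, ?_, ?_, ?_, ?_⟩
    · intro s h1 h2 h3
      refine (g1 s h1 h2 h3).trans ?_
      have hb : 1 ≤ (q : ℝ) * s.im := by
        calc (1 : ℝ) = 1 * 1 := (mul_one 1).symm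
          _ ≤ _ := mul_le_mul hq1 h3 zero_le_one (by linarith)
      exact mul_le_mul (le_max_right _ _)
        (Real.rpow_le_rpow_of_exponent_le hb (le_max_right _ _)) (by positivity) hAmax.le
    · intro t _
      refine le_trans ?_ (e5 (⟨2, t⟩ : ℂ) (le_refl _))
      exact inv_anti₀ (by linarith) (le_max_left _ _)
    · intro s h1 h2
      exact hz2 s h1 (h2.trans (le_abs_self _))
    · intro n hn
      interval_cases n <;> simp
    · refine Summable.of_nonneg_of_le (fun n => by positivity) (fun n => ?_) d1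
      have h1 := χ.norm_le_one (n : ZMod q)
      have h2 : (0 : ℝ) ≤ ArithmeticFunction.vonMangoldt n := ArithmeticFunction.vonMangoldt_nonneg
      rw [norm_mul, norm_mul, Complex.norm_real, Complex.norm_real, Real.norm_eq_abs,
        Real.norm_of_nonneg h2]
      refine mul_le_mul_of_nonneg_right ?_ (by positivity)
      calc ‖χ (n : ZMod q)‖ * |cS N (lamf f) n| * ArithmeticFunction.vonMangoldt n ≤
          1 * |cS N (lamf f) n| * ArithmeticFunction.vonMangoldt n := by gcongr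
        _ = _ := by ring
    · refine le_trans (Summable.tsum_le_tsum (fun n => ?_) ?_ d1) (d2.trans (le_max_left _ _))
      · have h1 := χ.norm_le_one (n : ZMod q)
        have h2 : (0 : ℝ) ≤ ArithmeticFunction.vonMangoldt n := ArithmeticFunction.vonMangoldt_nonneg
        rw [norm_mul, norm_mul, Complex.norm_real, Complex.norm_real, Real.norm_eq_abs,
          Real.norm_of_nonneg h2]
        refine mul_le_mul_of_nonneg_right ?_ (by positivity)
        calc ‖χ (n : ZMod q)‖ * |cS N (lamf f) n| * ArithmeticFunction.vonMangoldt n ≤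
            1 * |cS N (lamf f) n| * ArithmeticFunction.vonMangoldt n := by gcongr
          _ = _ := by ring
      · refine Summable.of_nonneg_of_le (fun n => by positivity) (fun n => ?_) d1
        have h1 := χ.norm_le_one (n : ZMod q)
        have h2 : (0 : ℝ) ≤ ArithmeticFunction.vonMangoldt n := ArithmeticFunction.vonMangoldt_nonneg
        rw [norm_mul, norm_mul, Complex.norm_real, Complex.norm_real, Real.norm_eq_abs,
          Real.norm_of_nonneg h2]
        refine mul_le_mul_of_nonneg_right ?_ (by positivity)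
        calc ‖χ (n : ZMod q)‖ * |cS N (lamf f) n| * ArithmeticFunction.vonMangoldt n ≤
            1 * |cS N (lamf f) n| * ArithmeticFunction.vonMangoldt n := by gcongr
          _ = _ := by ring
    · intro s h1 _
      exact e3 s h1
    · intro s h1 h2 h3 h4
      exact (g4 s h1 h2 h3 h4).trans (le_max_right _ _)
  · intro q χ hq hqN hχ
    haveI : NeZero q := ⟨by omega⟩
    obtain ⟨hfe2, hser⟩ := hF q χ hq hqN hχ
    exact ⟨hfe2.diff, (d3 q χ (F q χ) hser).2.2.2.2.2⟩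

end W388
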