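import Pool.Agent.W388.TW.Defs
import Pool.Agent.H385R2.LocalU

/-!
TEAM Q2, task D1: zeros of one L-function of degree `d`, uniform in the conductor
(generalisation of `Pool.Agent.H385R2.LocalU`).
-/

open Complex Filter Topology Set MeasureTheory Metric
open H370 (zset mult NN Nd Ns)

namespace W388

open H385

namespace LocD

open H370.Loc LocU

lemma F21d {d A Q : ℝ} {F : ℂ → ℂ} {a : ℕ → ℂ} (hA : 1 ≤ A) (hF : GoodE d A Q F a) {t : ℝ}
    (ht : 1 ≤ t) : F ⟨2, t⟩ ≠ 0 := by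
  have h3 := hF.lower t ht
  have : 0 < A⁻¹ := by positivity
  exact norm_pos_iff.1 (this.trans_le h3)

/-- data in the ball of radius 1.9 about `2 + it` -/
lemma ball_data_D (d A : ℝ) (hA : 1 ≤ A) : ∃ K : ℝ, 0 < K ∧ ∀ (Q : ℝ) (F : ℂ → ℂ) (a : ℕ → ℂ),
    1 ≤ Q → GoodE d A Q F a → ∀ t : ℝ, 3 ≤ t →
    ∃ M : ℝ, 1 ≤ M ∧ AnalyticOnNhd ℂ F (closedBall (⟨2, t⟩ : ℂ) 1.9) ∧ F ⟨2, t⟩ ≠ 0 ∧
      (∀ z ∈ closedBall (⟨2, t⟩ : ℂ) 1.9, ‖F z‖ ≤ M) ∧ ‖F ⟨2, t⟩‖ ≤ M ∧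
      0 ≤ Real.log (M / ‖F ⟨2, t⟩‖) ∧ Real.log (M / ‖F ⟨2, t⟩‖) ≤ K * Real.log (Q * t) := by
  refine ⟨|Real.log ((A + 1) * A)| + 2 * A, by positivity, fun Q F a hQ hF t ht => ?_⟩
  have hA0 : 0 < A := by linarith
  have hQ0 : 0 < Q := by linarith
  have hball : ∀ z ∈ closedBall (⟨2, t⟩ : ℂ) 1.9, (1 / 16 : ℝ) ≤ z.re ∧ z.re ≤ 4 ∧ 1 ≤ z.im ∧
      z.im ≤ t + 2 := by
    intro z hz
    rw [mem_closedBall, dist_eq_norm] at hz
    have h1 := (Complex.abs_re_le_norm (z - ⟨2, t⟩)).trans hz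
    have h2 := (Complex.abs_im_le_norm (z - ⟨2, t⟩)).trans hz
    simp only [sub_re, sub_im] at h1 h2
    rw [abs_le] at h1 h2
    refine ⟨by norm_num at h1 ⊢; linarith [h1.1], by norm_num at h1 ⊢; linarith [h1.2],
      by norm_num at h2 ⊢; linarith [h2.1], by norm_num at h2 ⊢; linarith [h2.2]⟩
  have hc0 : A⁻¹ ≤ ‖F ⟨2, t⟩‖ := hF.lower t (by linarith)
  have hAi : 0 < A⁻¹ := by positivity
  have hFc : 0 < ‖F ⟨2, t⟩‖ := hAi.trans_le hc0
  have hQt : 1 ≤ Q * (t + 2) := by nlinarith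
  have hP1 : 1 ≤ (Q * (t + 2)) ^ A := Real.one_le_rpow hQt hA0.le
  have hM1 : 1 ≤ (A + 1) * (Q * (t + 2)) ^ A := by nlinarith
  have hb : ∀ z ∈ closedBall (⟨2, t⟩ : ℂ) 1.9, ‖F z‖ ≤ (A + 1) * (Q * (t + 2)) ^ A := by
    intro z hz
    obtain ⟨h1, h2, h3, h4⟩ := hball z hz
    refine (hF.growth z h1 h2 h3).trans ?_
    have : (Q * z.im) ^ A ≤ (Q * (t + 2)) ^ A :=
      Real.rpow_le_rpow (by positivity) (mul_le_mul_of_nonneg_left h4 hQ0.le) hA0.le
    nlinarith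
  have hMc : ‖F ⟨2, t⟩‖ ≤ (A + 1) * (Q * (t + 2)) ^ A := hb _ (mem_closedBall_self (by norm_num))
  refine ⟨(A + 1) * (Q * (t + 2)) ^ A, hM1, ?_, norm_pos_iff.1 hFc, hb, hMc, ?_, ?_⟩
  · intro z hz
    exact hF.an z (by linarith [(hball z hz).2.2.1])
  · exact Real.log_nonneg (by rw [le_div_iff₀ hFc]; linarith)
  · have h1 : (A + 1) * (Q * (t + 2)) ^ A / ‖F ⟨2, t⟩‖ ≤ (A + 1) * A * (Q * (t + 2)) ^ A := by
      rw [div_le_iff₀ hFc]
      have e1 : 1 ≤ A * ‖F ⟨2, t⟩‖ := by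
        have := mul_le_mul_of_nonneg_left hc0 hA0.le
        rwa [mul_inv_cancel₀ hA0.ne'] at this
      have e2 : 0 ≤ (A + 1) * (Q * (t + 2)) ^ A := by positivity
      calc (A + 1) * (Q * (t + 2)) ^ A = (A + 1) * (Q * (t + 2)) ^ A * 1 := by ring
        _ ≤ (A + 1) * (Q * (t + 2)) ^ A * (A * ‖F ⟨2, t⟩‖) := mul_le_mul_of_nonneg_left e1 e2
        _ = _ := by ring
    have h2 : Real.log ((A + 1) * (Q * (t + 2)) ^ A / ‖F ⟨2, t⟩‖) ≤
        Real.log ((A + 1) * A * (Q * (t + 2)) ^ A) := Real.log_le_log (by positivity) h1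
    rw [Real.log_mul (by positivity) (by positivity), Real.log_rpow (by positivity)] at h2
    have h3 := logQ_le hQ ht
    have h4 := one_le_logQ hQ ht
    have h5 : Real.log ((A + 1) * A) ≤ |Real.log ((A + 1) * A)| * Real.log (Q * t) := by
      have := le_abs_self (Real.log ((A + 1) * A))
      have h6 := abs_nonneg (Real.log ((A + 1) * A))
      nlinarith
    have h6 : A * Real.log (Q * (t + 2)) ≤ A * (2 * Real.log (Q * t)) :=
      mul_le_mul_of_nonneg_left h3 hA0.le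
    linarith

end LocD

open LocU LocD H370.Loc

theorem zset_finite_D {d A Q : ℝ} {F : ℂ → ℂ} {a : ℕ → ℂ} (hA : 1 ≤ A) (_hQ : 1 ≤ Q)
    (hF : GoodE d A Q F a) (T1 T2 : ℝ) (h : 1 ≤ T1) : (zset F T1 T2).Finite := by
  by_contra hinf
  have hinf : (zset F T1 T2).Infinite := hinf
  have hcomp : IsCompact (Icc (0 : ℝ) 1 ×ℂ Icc T1 T2) := isCompact_Icc.reProdIm isCompact_Icc
  have hsub : zset F T1 T2 ⊆ Icc (0 : ℝ) 1 ×ℂ Icc T1 T2 := by
    rintro s ⟨h1, h2, h3, h4, -⟩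
    exact ⟨⟨h1.le, h2.le⟩, ⟨h3.le, h4⟩⟩
  obtain ⟨x, hx, hacc⟩ := hinf.exists_accPt_of_subset_isCompact hcomp hsub
  have hU : IsPreconnected {s : ℂ | 0 < s.im} := (convex_halfSpace_im_gt 0).isPreconnected
  have hxU : x ∈ {s : ℂ | 0 < s.im} := by
    have : T1 ≤ x.im := hx.2.1
    simp only [mem_setOf_eq]; linarith
  have hfreq : ∃ᶠ z in 𝓝[≠] x, F z = 0 := by
    rw [accPt_iff_frequently_nhdsNE] at hacc
    exact hacc.mono fun z hz => hz.2.2.2.2
  have hz := AnalyticOnNhd.eqOn_zero_of_preconnected_of_frequently_eq_zero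
    (f := F) (U := {s : ℂ | 0 < s.im}) (fun s hs => hF.an s hs) hU hxU hfreq
  have h2 : F ⟨2, 1⟩ = 0 := hz (by simp only [mem_setOf_eq]; norm_num)
  exact F21d hA hF le_rfl h2

theorem zcount_D (d A : ℝ) (hd : 1 ≤ d) (hA : 1 ≤ A) : ∃ C : ℝ, 0 < C ∧ ∀ (Q : ℝ) (F : ℂ → ℂ) (a : ℕ → ℂ), 1 ≤ Q →
    GoodE d A Q F a → ∀ t : ℝ, 3 ≤ t → (NN F (t - 1) (t + 1) : ℝ) ≤ C * Real.log (Q * t) := by
  classical
  obtain ⟨K, hK, hdata⟩ := ball_data_D d A hA
  have hlog : 0 < Real.log (1.9 / 1.81) := Real.log_pos (by norm_num)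
  refine ⟨2 * K / Real.log (1.9 / 1.81), by positivity, fun Q F a hQ hF t ht => ?_⟩
  obtain ⟨M, hM1, han, hF0, hb, -, -, hlogM⟩ := hdata Q F a hQ hF t ht
  have hfin := zset_finite_D hA hQ hF (t - 1) (t + 1) (by linarith)
  have hNN : NN F (t - 1) (t + 1) = ∑ s ∈ hfin.toFinset, mult F s := by
    unfold H370.NN
    exact finsum_mem_eq_finite_toFinset_sum _ hfin
  have key : ∀ S : Finset ℂ, (∀ z ∈ S, 1 / 2 ≤ z.re ∧ z.re < 1 ∧ |z.im - t| ≤ 1) →
      ∑ z ∈ S, (mult F z : ℝ) ≤ K / Real.log (1.9 / 1.81) * Real.log (Q * t) := by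
    intro S hS
    refine (jensen_mult (c := ⟨2, t⟩) (r := 1.81) (R := 1.9) (by norm_num) (by norm_num) hM1 han
      hF0 hb S ?_).trans ?_
    · intro z hz
      obtain ⟨h1, h2, h3⟩ := hS z hz
      rw [mem_closedBall, dist_eq_norm]
      apply abs_le_of_sq_le_sq' _ (by norm_num) |>.2
      rw [← Complex.normSq_eq_norm_sq, Complex.normSq_apply]
      simp only [sub_re, sub_im]
      rw [abs_le] at h3
      nlinarith
    · rw [div_mul_eq_mul_div]
      exact div_le_div_of_nonneg_right hlogM hlog.le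
  rw [hNN]
  push_cast
  rw [← Finset.sum_filter_add_sum_filter_not _ (fun s : ℂ => 1 / 2 ≤ s.re)]
  have h1 := key (hfin.toFinset.filter (fun s : ℂ => 1 / 2 ≤ s.re)) (by
    intro z hz
    simp only [Finset.mem_filter, Set.Finite.mem_toFinset] at hz
    obtain ⟨⟨a1, a2, a3, a4, -⟩, h⟩ := hz
    exact ⟨h, a2, abs_le.2 ⟨by linarith, by linarith⟩⟩)
  have h2 := key ((hfin.toFinset.filter (fun s : ℂ => ¬ 1 / 2 ≤ s.re)).image
      (fun s : ℂ => 1 - (starRingEnd ℂ) s)) (by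
    intro z hz
    simp only [Finset.mem_image, Finset.mem_filter, Set.Finite.mem_toFinset] at hz
    obtain ⟨s, ⟨⟨a1, a2, a3, a4, -⟩, h⟩, rfl⟩ := hz
    rw [reflect_re, reflect_im]
    push Not at h
    exact ⟨by linarith, by linarith, abs_le.2 ⟨by linarith, by linarith⟩⟩)
  rw [Finset.sum_image (fun a _ b _ hab => reflect_inj hab)] at h2
  have h3 : ∑ s ∈ hfin.toFinset.filter (fun s : ℂ => ¬ 1 / 2 ≤ s.re),
      (mult F (1 - (starRingEnd ℂ) s) : ℝ) =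
      ∑ s ∈ hfin.toFinset.filter (fun s : ℂ => ¬ 1 / 2 ≤ s.re), (mult F s : ℝ) := by
    refine Finset.sum_congr rfl fun s hs => ?_
    simp only [Finset.mem_filter, Set.Finite.mem_toFinset] at hs
    obtain ⟨⟨a1, a2, a3, a4, -⟩, h⟩ := hs
    have h5 := hF.symm s a1 a2 (by linarith)
    unfold H370.mult analyticOrderNatAt
    rw [h5]
  rw [h3] at h2
  calc _ ≤ K / Real.log (1.9 / 1.81) * Real.log (Q * t) +
        K / Real.log (1.9 / 1.81) * Real.log (Q * t) := add_le_add h1 h2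
    _ = _ := by ring

namespace LocD

/-- `NN` is subadditive under splitting of the interval -/
lemma NN_le_add {d A Q : ℝ} {F : ℂ → ℂ} {a : ℕ → ℂ} (hA : 1 ≤ A) (hQ : 1 ≤ Q)
    (hF : GoodE d A Q F a) (T1 T2 T3 T4 : ℝ) (h : 1 ≤ T1) (h3 : 1 ≤ T3) (h23 : T3 ≤ T2) :
    NN F T1 T4 ≤ NN F T1 T2 + NN F T3 T4 := by
  classical
  have f1 := zset_finite_D hA hQ hF T1 T4 h
  have f2 := zset_finite_D hA hQ hF T1 T2 h
  have f3 := zset_finite_D hA hQ hF T3 T4 h3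
  unfold H370.NN
  rw [finsum_mem_eq_finite_toFinset_sum _ f1, finsum_mem_eq_finite_toFinset_sum _ f2,
    finsum_mem_eq_finite_toFinset_sum _ f3]
  refine le_trans (Finset.sum_le_sum_of_subset (t := f2.toFinset ∪ f3.toFinset) ?_) ?_
  · intro s hs
    simp only [Finset.mem_union, Set.Finite.mem_toFinset] at hs ⊢
    obtain ⟨a1, a2, a3, a4, a5⟩ := hs
    by_cases h : s.im ≤ T2
    · exact Or.inl ⟨a1, a2, a3, h, a5⟩
    · push Not at h
      exact Or.inr ⟨a1, a2, by linarith, a4, a5⟩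
  · have := Finset.sum_union_inter (s₁ := f2.toFinset) (s₂ := f3.toFinset) (f := mult F)
    omega

/-- `NN` is monotone in the interval -/
lemma NN_mono {d A Q : ℝ} {F : ℂ → ℂ} {a : ℕ → ℂ} (hA : 1 ≤ A) (hQ : 1 ≤ Q)
    (hF : GoodE d A Q F a) {T1 T2 T3 T4 : ℝ} (h : 1 ≤ T3) (h13 : T3 ≤ T1) (h24 : T2 ≤ T4) :
    NN F T1 T2 ≤ NN F T3 T4 := by
  have f1 := zset_finite_D hA hQ hF T1 T2 (h.trans h13)
  have f2 := zset_finite_D hA hQ hF T3 T4 h
  unfold H370.NN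
  rw [finsum_mem_eq_finite_toFinset_sum _ f1, finsum_mem_eq_finite_toFinset_sum _ f2]
  refine Finset.sum_le_sum_of_subset ?_
  intro s hs
  simp only [Set.Finite.mem_toFinset] at hs ⊢
  obtain ⟨a1, a2, a3, a4, a5⟩ := hs
  exact ⟨a1, a2, by linarith, by linarith, a5⟩

end LocD

theorem zcount_long_D (d A : ℝ) (hd : 1 ≤ d) (hA : 1 ≤ A) : ∃ C : ℝ, 0 < C ∧ ∀ (Q : ℝ) (F : ℂ → ℂ) (a : ℕ → ℂ), 1 ≤ Q →
    GoodE d A Q F a → ∀ T1 T2 : ℝ, 3 ≤ T1 → T1 + 1 ≤ T2 →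
      (NN F T1 T2 : ℝ) ≤ C * (T2 - T1) * Real.log (Q * T2) := by
  obtain ⟨C, hC, hc⟩ := zcount_D d A hd hA
  refine ⟨2 * C, by positivity, fun Q F a hQ hF T1 T2 h1 h2 => ?_⟩
  have hQ0 : 0 < Q := by linarith
  -- by induction : NN F T1 (T1 + n) ≤ n * C * log (Q * T2) for `T1 + n ≤ T2 + 1`
  have hone : ∀ t : ℝ, 3 ≤ t → t ≤ T2 → (NN F t (t + 1) : ℝ) ≤ C * Real.log (Q * T2) := by
    intro t ht htT
    have e1 : (NN F t (t + 1) : ℝ) ≤ NN F (t - 1) (t + 1) := by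
      exact_mod_cast LocD.NN_mono hA hQ hF (by linarith) (by linarith) le_rfl
    refine e1.trans ((hc Q F a hQ hF t ht).trans ?_)
    exact mul_le_mul_of_nonneg_left (logQ_mono hQ (by linarith) htT) hC.le
  have hind : ∀ n : ℕ, T1 + n ≤ T2 + 1 → (NN F T1 (T1 + n) : ℝ) ≤ n * (C * Real.log (Q * T2)) := by
    intro n
    induction n with
    | zero =>
      intro _
      have : zset F T1 (T1 + (0 : ℕ)) = ∅ := by
        ext s
        simp only [H370.zset, mem_setOf_eq, mem_empty_iff_false, iff_false, Nat.cast_zero, add_zero]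
        rintro ⟨-, -, h3, h4, -⟩
        linarith
      unfold H370.NN
      rw [this]
      simp
    | succ n ih =>
      intro hn
      push_cast at hn
      have i1 := ih (by linarith)
      have i2 := hone (T1 + n) (by have : (0 : ℝ) ≤ n := by positivity
                                   linarith) (by linarith)
      have i3 := LocD.NN_le_add hA hQ hF T1 (T1 + n) (T1 + n) (T1 + n + 1) (by linarith)
        (by have : (0 : ℝ) ≤ n := by positivity
            linarith) le_rfl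
      have i4 : (NN F T1 (T1 + n + 1) : ℝ) ≤ (NN F T1 (T1 + n) : ℝ) + NN F (T1 + n) (T1 + n + 1) := by
        exact_mod_cast i3
      have e : T1 + ((n + 1 : ℕ) : ℝ) = T1 + n + 1 := by push_cast; ring
      rw [e]
      push_cast
      linarith
  set n : ℕ := ⌈T2 - T1⌉₊ with hn
  have hn1 : T2 - T1 ≤ n := Nat.le_ceil _
  have hn2 : (n : ℝ) < T2 - T1 + 1 := Nat.ceil_lt_add_one (by linarith)
  have h3 := hind n (by linarith)
  have h4 : (NN F T1 T2 : ℝ) ≤ NN F T1 (T1 + n) := by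
    exact_mod_cast LocD.NN_mono hA hQ hF (by linarith) le_rfl (by linarith)
  have h5 : 0 ≤ C * Real.log (Q * T2) := by
    have := one_le_logQ hQ (t := T2) (by linarith)
    positivity
  calc (NN F T1 T2 : ℝ) ≤ n * (C * Real.log (Q * T2)) := h4.trans h3
    _ ≤ (2 * (T2 - T1)) * (C * Real.log (Q * T2)) := mul_le_mul_of_nonneg_right (by linarith) h5
    _ = _ := by ring

namespace LocD

lemma mult_pos_D {d A Q : ℝ} {F : ℂ → ℂ} {a : ℕ → ℂ} (hA : 1 ≤ A) (hF : GoodE d A Q F a) {s : ℂ}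
    (hs : 0 < s.im) (h0 : F s = 0) : 1 ≤ mult F s := by
  have hU : IsPreconnected {s : ℂ | 0 < s.im} := (convex_halfSpace_im_gt 0).isPreconnected
  have h2 : F ⟨2, 1⟩ ≠ 0 := F21d hA hF le_rfl
  exact (mult_pos (f := F) (K := {s : ℂ | 0 < s.im}) hU (fun s hs => hF.an s hs) (c := ⟨2, 1⟩)
    (by simp only [mem_setOf_eq]; norm_num) h2 hs).2 h0

/-- the number of distinct zeros is at most the number of zeros with multiplicity -/
lemma card_le_NN_D {d A Q : ℝ} {F : ℂ → ℂ} {a : ℕ → ℂ} (hA : 1 ≤ A) (hQ : 1 ≤ Q)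
    (hF : GoodE d A Q F a) (T1 T2 : ℝ) (h : 1 ≤ T1) :
    (zset_finite_D hA hQ hF T1 T2 h).toFinset.card ≤ NN F T1 T2 := by
  have hfin := zset_finite_D hA hQ hF T1 T2 h
  have hNN : NN F T1 T2 = ∑ s ∈ hfin.toFinset, mult F s := by
    unfold H370.NN
    exact finsum_mem_eq_finite_toFinset_sum _ hfin
  rw [hNN, Finset.card_eq_sum_ones]
  refine Finset.sum_le_sum fun s hs => ?_
  rw [Set.Finite.mem_toFinset] at hs
  exact mult_pos_D hA hF (by linarith [hs.2.2.1]) hs.2.2.2.2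

end LocD

theorem good_height_D (d A : ℝ) (hd : 1 ≤ d) (hA : 1 ≤ A) : ∃ C : ℝ, 0 < C ∧ ∀ (Q : ℝ) (F : ℂ → ℂ) (a : ℕ → ℂ),
    1 ≤ Q → GoodE d A Q F a → ∀ T : ℝ, 3 ≤ T →
    ∃ U ∈ Set.Icc T (T + 1), ∀ σ ∈ Set.Icc (-1 / 2 : ℝ) (3 / 2),
      F (⟨σ, U⟩ : ℂ) ≠ 0 ∧
        ‖deriv F (⟨σ, U⟩ : ℂ) / F (⟨σ, U⟩ : ℂ)‖ ≤ C * (Real.log (Q * T)) ^ 2 := by
  classical
  obtain ⟨K, hK, hdata⟩ := ball_data_D d A hA
  obtain ⟨C0, hC0, hcount⟩ := zcount_D d A hd hA
  set q : ℝ := Real.log (1.9 / 1.8) with hq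
  have hq0 : 0 < q := Real.log_pos (by norm_num)
  set ℓ : ℝ := Real.log (1.8 / (1.9 - 1.8)) with hℓ
  have hℓ0 : 0 < ℓ := Real.log_pos (by norm_num)
  -- the bound on the right
  set D : ℝ := 2 * K / q * (2 * (3 * C0 + 1)) +
    2 * (2 * K + 2 * K / q * ℓ + 1) * 1.7 / (1.8 - 1.7) / (1.7 - 1.5) with hD
  have hD0 : 0 < D := by
    have : (0 : ℝ) < 1.8 - 1.7 := by norm_num
    have : (0 : ℝ) < 1.7 - 1.5 := by norm_num
    positivity
  refine ⟨D + |A| + 2 * d, by positivity, fun Q F a hQ hF T hT => ?_⟩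
  have hleft := hF.left
  have hd0 : 0 ≤ d := by linarith
  set CL : ℝ := A with hCL
  have hlT : 1 ≤ Real.log (Q * T) := one_le_logQ hQ hT
  -- zeros in the window
  have hfin := zset_finite_D hA hQ hF (T - 1) (T + 2) (by linarith)
  set Γ : Finset ℝ := hfin.toFinset.image (fun s : ℂ => s.im) with hΓ
  obtain ⟨U, hU, hUΓ⟩ := pigeon Γ T
  have hU1 : T ≤ U := hU.1
  have hU2 : U ≤ T + 1 := hU.2
  have hlU0 : 0 ≤ Real.log (Q * U) := Real.log_nonneg (by nlinarith)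
  have hlU : Real.log (Q * U) ≤ 2 * Real.log (Q * T) :=
    (logQ_mono hQ (by linarith) (by linarith)).trans (logQ_le hQ hT)
  -- cardinality
  have hcard : (Γ.card : ℝ) ≤ 3 * C0 * Real.log (Q * T) := by
    have h1 : Γ.card ≤ hfin.toFinset.card := Finset.card_image_le
    have h2 : hfin.toFinset.card ≤ NN F (T - 1) (T + 1) + NN F ((T + 1) - 1) ((T + 1) + 1) := by
      refine le_trans ?_ (add_le_add (card_le_NN_D hA hQ hF (T - 1) (T + 1) (by linarith))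
        (card_le_NN_D hA hQ hF ((T + 1) - 1) ((T + 1) + 1) (by linarith)))
      refine le_trans (Finset.card_le_card ?_) (Finset.card_union_le _ _)
      intro s hs
      simp only [Finset.mem_union, Set.Finite.mem_toFinset] at hs ⊢
      obtain ⟨a1, a2, a3, a4, a5⟩ := hs
      by_cases h : s.im ≤ T + 1
      · exact Or.inl ⟨a1, a2, a3, h, a5⟩
      · push Not at h
        exact Or.inr ⟨a1, a2, by linarith, by linarith, a5⟩
    have h3 := hcount Q F a hQ hF T hT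
    have h4 := hcount Q F a hQ hF (T + 1) (by linarith)
    have h5 : Real.log (Q * (T + 1)) ≤ 2 * Real.log (Q * T) :=
      (logQ_mono hQ (by linarith) (by linarith)).trans (logQ_le hQ hT)
    have h6 : (Γ.card : ℝ) ≤ (NN F (T - 1) (T + 1) : ℝ) + NN F ((T + 1) - 1) ((T + 1) + 1) := by
      exact_mod_cast h1.trans h2
    have h7 : C0 * Real.log (Q * (T + 1)) ≤ C0 * (2 * Real.log (Q * T)) :=
      mul_le_mul_of_nonneg_left h5 hC0.le
    linarith
  -- right half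
  have hright : ∀ σ ∈ Set.Icc (1 / 2 : ℝ) (3 / 2), F (⟨σ, U⟩ : ℂ) ≠ 0 ∧
      ‖deriv F (⟨σ, U⟩ : ℂ) / F (⟨σ, U⟩ : ℂ)‖ ≤ D * (Real.log (Q * T)) ^ 2 := by
    intro σ hσ
    obtain ⟨M, hM1, han, hF0, hb, hMc, hL0, hLM⟩ := hdata Q F a hQ hF U (by linarith)
    set L := Real.log (M / ‖F ⟨2, U⟩‖) with hL
    have hδ : (0 : ℝ) < 1 / (2 * ((Γ.card : ℝ) + 1)) := by positivity
    have hland := landau (f := F) (c := ⟨2, U⟩) (r := 1.8) (r1 := 1.7) (r2 := 1.5) (R := 1.9)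
      (M := M) (by norm_num) (by norm_num) (by norm_num) (by norm_num) (by norm_num) hM1 hMc han
      hF0 hb ⟨σ, U⟩ (by
        rw [mem_closedBall, dist_eq_norm]
        apply abs_le_of_sq_le_sq' _ (by norm_num) |>.2
        rw [← Complex.normSq_eq_norm_sq, Complex.normSq_apply]
        simp only [sub_re, sub_im]
        have := hσ.1
        have := hσ.2
        nlinarith) (1 / (2 * ((Γ.card : ℝ) + 1))) hδ (by
        intro ρ hρ hFρ
        have h1 : |U - ρ.im| ≤ ‖(⟨σ, U⟩ : ℂ) - ρ‖ := by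
          have := Complex.abs_im_le_norm ((⟨σ, U⟩ : ℂ) - ρ)
          simpa using this
        refine le_trans ?_ h1
        rw [mem_closedBall, dist_eq_norm] at hρ
        have h2 := (Complex.abs_re_le_norm (ρ - ⟨2, U⟩)).trans hρ
        have h3 := (Complex.abs_im_le_norm (ρ - ⟨2, U⟩)).trans hρ
        simp only [sub_re, sub_im] at h2 h3
        rw [abs_le] at h2 h3
        have hre0 : 0 < ρ.re := by norm_num at h2 ⊢; linarith [h2.1]
        have him1 : 1 ≤ ρ.im := by norm_num at h3 ⊢; linarith [h3.1]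
        have hre1 : ρ.re < 1 := by
          by_contra hcon
          push Not at hcon
          exact hF.nzr ρ hcon him1 hFρ
        by_cases hw : T - 1 < ρ.im ∧ ρ.im ≤ T + 2
        · refine hUΓ ρ.im ?_
          rw [hΓ, Finset.mem_image]
          exact ⟨ρ, by rw [Set.Finite.mem_toFinset]; exact ⟨hre0, hre1, hw.1, hw.2, hFρ⟩, rfl⟩
        · have h5 : 1 ≤ |U - ρ.im| := by
            rw [not_and_or] at hw
            push Not at hw
            rcases hw with hw | hw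
            · rw [le_abs]; left; linarith
            · rw [le_abs]; right; linarith
          refine le_trans ?_ h5
          rw [div_le_one (by positivity)]
          have : (0 : ℝ) ≤ Γ.card := by positivity
          linarith)
    refine ⟨hland.1, hland.2.trans ?_⟩
    rw [← hL, ← hq, ← hℓ]
    have hL2 : L ≤ 2 * K * Real.log (Q * T) := by
      have := mul_le_mul_of_nonneg_left hlU hK.le
      linarith
    have e1 : L / q / (1 / (2 * ((Γ.card : ℝ) + 1))) = L / q * (2 * ((Γ.card : ℝ) + 1)) := by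
      rw [div_div_eq_mul_div, div_one]
    rw [e1]
    have e2 : 2 * ((Γ.card : ℝ) + 1) ≤ 2 * (3 * C0 + 1) * Real.log (Q * T) := by nlinarith
    have e3 : L / q ≤ 2 * K / q * Real.log (Q * T) := by
      rw [div_mul_eq_mul_div]
      exact div_le_div_of_nonneg_right hL2 hq0.le
    have e4 : L / q * (2 * ((Γ.card : ℝ) + 1)) ≤
        (2 * K / q * Real.log (Q * T)) * (2 * (3 * C0 + 1) * Real.log (Q * T)) :=
      mul_le_mul e3 e2 (by positivity) (by positivity)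
    have e5 : L + L / q * ℓ + 1 ≤ (2 * K + 2 * K / q * ℓ + 1) * (Real.log (Q * T)) ^ 2 := by
      have f1 : Real.log (Q * T) ≤ (Real.log (Q * T)) ^ 2 := by nlinarith
      have f2 : L / q * ℓ ≤ 2 * K / q * Real.log (Q * T) * ℓ := mul_le_mul_of_nonneg_right e3 hℓ0.le
      have f3 : (0 : ℝ) ≤ 2 * K / q * ℓ := by positivity
      have f4 : 2 * K * Real.log (Q * T) ≤ 2 * K * (Real.log (Q * T)) ^ 2 :=
        mul_le_mul_of_nonneg_left f1 (by positivity)
      have f5 : 2 * K / q * ℓ * Real.log (Q * T) ≤ 2 * K / q * ℓ * (Real.log (Q * T)) ^ 2 :=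
        mul_le_mul_of_nonneg_left f1 f3
      nlinarith
    have e6 : 2 * (L + L / q * ℓ + 1) * 1.7 / (1.8 - 1.7) / (1.7 - 1.5) ≤
        2 * ((2 * K + 2 * K / q * ℓ + 1) * (Real.log (Q * T)) ^ 2) * 1.7 / (1.8 - 1.7) /
          (1.7 - 1.5) := by
      have g1 : (0 : ℝ) < 1.8 - 1.7 := by norm_num
      have g2 : (0 : ℝ) < 1.7 - 1.5 := by norm_num
      gcongr
    calc _ ≤ (2 * K / q * Real.log (Q * T)) * (2 * (3 * C0 + 1) * Real.log (Q * T)) +
        2 * ((2 * K + 2 * K / q * ℓ + 1) * (Real.log (Q * T)) ^ 2) * 1.7 / (1.8 - 1.7) /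
          (1.7 - 1.5) := add_le_add e4 e6
      _ = D * (Real.log (Q * T)) ^ 2 := by rw [hD]; ring
  refine ⟨U, hU, fun σ hσ => ?_⟩
  have hbig : D * (Real.log (Q * T)) ^ 2 ≤ (D + |CL| + 2 * d) * (Real.log (Q * T)) ^ 2 := by
    have := abs_nonneg CL
    have h2 : 0 ≤ (Real.log (Q * T)) ^ 2 := by positivity
    exact mul_le_mul_of_nonneg_right (by linarith) h2
  by_cases hs : 1 / 2 ≤ σ
  · have := hright σ ⟨hs, hσ.2⟩
    exact ⟨this.1, this.2.trans hbig⟩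
  · push Not at hs
    have hrf : (1 : ℂ) - (starRingEnd ℂ) (⟨σ, U⟩ : ℂ) = ⟨1 - σ, U⟩ := by
      apply Complex.ext <;> simp
    obtain ⟨g1, g2⟩ := hright (1 - σ) ⟨by linarith, by linarith [hσ.1]⟩
    have hne : F (⟨σ, U⟩ : ℂ) ≠ 0 := by
      by_cases h0 : σ ≤ 0
      · exact hF.nzl ⟨σ, U⟩ h0 (by simp only; linarith)
      · push Not at h0
        have hsym := hF.symm ⟨σ, U⟩ h0 (by simp only; linarith) (by simp only; linarith)
        rw [hrf] at hsym
        have h1 : AnalyticAt ℂ F (⟨1 - σ, U⟩ : ℂ) := hF.an _ (by simp only; linarith)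
        have h2 : AnalyticAt ℂ F (⟨σ, U⟩ : ℂ) := hF.an _ (by simp only; linarith)
        rw [h1.analyticOrderAt_eq_zero.2 g1] at hsym
        exact h2.analyticOrderAt_eq_zero.1 hsym.symm
    refine ⟨hne, ?_⟩
    have h3 := hleft ⟨σ, U⟩ hσ.1 hs.le (by simp only; linarith) hne
    rw [hrf] at h3
    simp only at h3
    set a := deriv F (⟨σ, U⟩ : ℂ) / F (⟨σ, U⟩ : ℂ) with ha
    set b := deriv F (⟨1 - σ, U⟩ : ℂ) / F (⟨1 - σ, U⟩ : ℂ) with hb
    have h4 : ‖a‖ ≤ CL + d * Real.log (Q * U) + ‖b‖ := by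
      have h5 : a = (a + ((d * Real.log (Q * U) : ℝ) : ℂ) + (starRingEnd ℂ) b) -
          ((d * Real.log (Q * U) : ℝ) : ℂ) - (starRingEnd ℂ) b := by ring
      rw [h5]
      refine (norm_sub_le _ _).trans ?_
      rw [RCLike.norm_conj]
      refine add_le_add ((norm_sub_le _ _).trans (add_le_add h3 ?_)) le_rfl
      rw [Complex.norm_real, Real.norm_eq_abs, abs_of_nonneg (mul_nonneg hd0 hlU0)]
    refine h4.trans ?_
    have h6 : CL ≤ |CL| * (Real.log (Q * T)) ^ 2 := by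
      have := le_abs_self CL
      have h7 := abs_nonneg CL
      have h8 : 1 ≤ (Real.log (Q * T)) ^ 2 := by nlinarith
      nlinarith
    have h7 : Real.log (Q * U) ≤ 2 * (Real.log (Q * T)) ^ 2 := by nlinarith
    have h8 : d * Real.log (Q * U) ≤ d * (2 * (Real.log (Q * T)) ^ 2) :=
      mul_le_mul_of_nonneg_left h7 hd0
    have h9 : ‖b‖ ≤ D * (Real.log (Q * T)) ^ 2 := g2
    calc CL + d * Real.log (Q * U) + ‖b‖ ≤ |CL| * (Real.log (Q * T)) ^ 2 +
          d * (2 * (Real.log (Q * T)) ^ 2) + D * (Real.log (Q * T)) ^ 2 :=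
          add_le_add (add_le_add h6 h8) h9
      _ = (D + |CL| + 2 * d) * (Real.log (Q * T)) ^ 2 := by ring

end W388
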