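import Pool.Agent.W388.TW.NLowECore
import Pool.Agent.W388.TW.LocalE
import Pool.Agent.W388.TW.EFE

set_option autoImplicit false

open Complex Filter Topology Set MeasureTheory

namespace W388

open H385

open H370 (zset mult NN Nd Ns)

theorem N_lower_D (d A : ℝ) (hd : 1 ≤ d) (hA : 1 ≤ A) :
    ∃ C : ℝ, 0 < C ∧ ∀ (Q : ℝ) (F : ℂ → ℂ) (a : ℕ → ℂ), 1 ≤ Q → GoodE d A Q F a →
    ∀ T κ : ℝ, 3 ≤ κ → 8 * κ ≤ T →
      T / (2 * Real.pi) * (d * Real.log (Q * T)) -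
        C * (T + κ * Real.log (Q * T) + T * Real.log (Q * T) ^ 2 * Real.exp (-κ ^ 2 / 2)) ≤
      (NN F T (2 * T) : ℝ) :=
  N_lower_core_D d A hd hA (fun _ _ _ hQ hF T1 T2 h => zset_finite_D hA hQ hF T1 T2 h)
    (zcount_long_D d A hd hA) (A1_formula_D d A hd hA)

end W388
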