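import Pool.Agent.W388.TW.MeanE2

open Complex Filter Topology Set MeasureTheory
open H370 (zset mult NN Nd Ns)

set_option maxHeartbeats 4000000

namespace W388

open H385

/-- bound for the error terms -/
theorem DDc_le {c : ℕ → ℂ} (C Cn CP : ℝ) (hC : 0 < C) (hCn : 0 < Cn) (hCP : 0 < CP)
    (P X Y N : ℕ) (u : ℝ) (hP : 1 ≤ P) (hX : 1 ≤ X) (hXY : X ≤ Y)
    (h1 : ∑ q ∈ Finset.Ioc X (P * Y), (1 / (q : ℝ)) * Gqc c q u ^ 2 ≤
      Cn * (Real.log ((Y : ℝ) / X) + Real.log P + 1) * Wu c u)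
    (h2 : Gqc c P u ^ 2 ≤ CP * Wu c u) (h3 : Tlc c N u ^ 2 ≤ 1) :
    DDc c C P X Y N u ≤ (C * Cn * (Real.log P + 1) + C * CP + C) *
      (Real.log ((Y : ℝ) / X) + 1) * (Wu c u + 1) := by
  have hlogP : 0 ≤ Real.log P := Real.log_nonneg (by exact_mod_cast hP)
  have hlog : 0 ≤ Real.log ((Y : ℝ) / X) := by
    refine Real.log_nonneg ?_
    have : (0 : ℝ) < X := by exact_mod_cast hX
    rw [one_le_div this]
    exact_mod_cast hXY
  set 𝓛 := Real.log ((Y : ℝ) / X) with h𝓛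
  have hW := Wu_nonneg c u
  unfold DDc
  rw [← h𝓛]
  have a1 : C * ∑ q ∈ Finset.Ioc X (P * Y), (1 / (q : ℝ)) * Gqc c q u ^ 2 ≤
      C * Cn * (Real.log P + 1) * (𝓛 + 1) * Wu c u := by
    calc _ ≤ C * (Cn * (𝓛 + Real.log P + 1) * Wu c u) := mul_le_mul_of_nonneg_left h1 hC.le
      _ = C * Cn * Wu c u * (𝓛 + Real.log P + 1) := by ring
      _ ≤ C * Cn * Wu c u * ((Real.log P + 1) * (𝓛 + 1)) := by
          refine mul_le_mul_of_nonneg_left ?_ (by positivity)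
          nlinarith [mul_nonneg hlogP hlog]
      _ = _ := by ring
  have a2 : C * (𝓛 + 1) * (Gqc c P u ^ 2 + Tlc c N u ^ 2) ≤ C * (𝓛 + 1) * (CP * Wu c u + 1) :=
    mul_le_mul_of_nonneg_left (add_le_add h2 h3) (by positivity)
  have a3 : 0 ≤ C * Cn * (Real.log P + 1) * (𝓛 + 1) := by positivity
  have a4 : 0 ≤ C * CP * (𝓛 + 1) := by positivity
  have a5 : 0 ≤ C * (𝓛 + 1) * Wu c u := by positivity
  calc _ ≤ C * Cn * (Real.log P + 1) * (𝓛 + 1) * Wu c u + C * (𝓛 + 1) * (CP * Wu c u + 1) :=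
        add_le_add a1 a2
    _ ≤ C * Cn * (Real.log P + 1) * (𝓛 + 1) * Wu c u + C * (𝓛 + 1) * (CP * Wu c u + 1) +
        (C * Cn * (Real.log P + 1) * (𝓛 + 1) + C * CP * (𝓛 + 1) + C * (𝓛 + 1) * Wu c u) := by
        linarith
    _ = _ := by ring

/-- **T2** -/
theorem t_mean (hsm : StSmooth) (hnc : StNonCop) : StMean := by
  intro M hM c hS γ β h0 hπ hβ hβ2 ε hε
  obtain ⟨s1, s2, s3, s4, ⟨Cs, hCs, s5, s6, s7, s8⟩, s9⟩ := hsm c hS
  obtain ⟨n1, ⟨Cn, hCn, n2⟩, n3, n4⟩ := hnc c hS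
  have hcm : MeanC c := ⟨n1, s2⟩
  have hs : SmC c Cs := ⟨s3, s4, s5, s6, s7, s8, s9⟩
  obtain ⟨ε1, hε1, hε1', hfin⟩ := YE_final M hM hcm hCs hs γ β h0 hπ hβ ε hε
  obtain ⟨C, P, hC, hP, hms⟩ := msE_int M hM hcm ε1 hε1 hε1'
  obtain ⟨CP, hCP, hGP⟩ := n3 P hP
  have hlogP : 0 ≤ Real.log P := Real.log_nonneg (by exact_mod_cast hP)
  set E : ℝ := C * Cn * (Real.log P + 1) + C * CP + C with hE
  have hE0 : 0 < E := by positivity
  obtain ⟨K, L0, hK, hL0, hY⟩ := hfin C E hC hE0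
  obtain ⟨C4, hC4, hmass⟩ := prim_mass_M M hM
  obtain ⟨L1, hL1⟩ := Filter.eventually_atTop.mp (n4 β ε1 hβ hβ2 hε1)
  have hc0 := cM_pos M hM
  refine ⟨max K (Real.exp ((3 * C4 + C) / (ε1 * cM M))), 1, Real.exp (max (max L0 L1) 1),
    le_max_of_le_left hK, one_pos, Real.one_le_exp (le_max_of_le_right zero_le_one), ?_⟩
  intro X Y T hX hKX hYX hT1 hT2
  have hXpos : (0 : ℝ) < X := lt_of_lt_of_le (Real.exp_pos _) hX
  have hX1 : 1 ≤ X := by exact_mod_cast hXpos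
  have hLmax : max (max L0 L1) 1 ≤ Real.log X := by
    rw [Real.le_log_iff_exp_le hXpos]; exact hX
  have hLL0 : L0 ≤ Real.log X := ((le_max_left _ _).trans (le_max_left _ _)).trans hLmax
  have hLL1 : L1 ≤ Real.log X := ((le_max_right _ _).trans (le_max_left _ _)).trans hLmax
  have hL1' : 1 ≤ Real.log X := (le_max_right _ _).trans hLmax
  have hXexp : Real.exp L0 ≤ X := by rwa [Real.le_log_iff_exp_le hXpos] at hLL0
  have hKX1 : K * X ≤ Y := (mul_le_mul_of_nonneg_right (le_max_left _ _) hXpos.le).trans hKX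
  have hKX2 : Real.exp ((3 * C4 + C) / (ε1 * cM M)) * X ≤ Y :=
    (mul_le_mul_of_nonneg_right (le_max_right _ _) hXpos.le).trans hKX
  have hXYr : (X : ℝ) ≤ Y := NL.b11 hXpos.le hK hKX1
  have hXY : X ≤ Y := by exact_mod_cast hXYr
  have hYpos : (0 : ℝ) < Y := by linarith
  have hT1' : 1 ≤ T := (one_le_pow₀ hL1').trans hT1
  have hT2' : T ≤ Real.exp (Real.log X ^ 2) := by
    refine hT2.trans ?_
    rw [Real.rpow_one]
    calc (X : ℝ) = Real.exp (Real.log X) := (Real.exp_log hXpos).symm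
      _ ≤ _ := Real.exp_le_exp.mpr (le_self_pow₀ hL1' two_ne_zero)
  set 𝓛 : ℝ := Real.log ((Y : ℝ) / X) with h𝓛
  have h𝓛K : (3 * C4 + C) / (ε1 * cM M) ≤ 𝓛 := by
    rw [h𝓛, Real.le_log_iff_exp_le (by positivity), le_div_iff₀ hXpos]
    exact hKX2
  have hWlow := (abs_le.mp (hmass X Y hX1 hXY)).1
  have hWlow' : cM M * 𝓛 - C4 ≤ WM M X Y := by
    have : primFamM M X Y (fun _ _ => 1) = WM M X Y := rfl
    rw [this] at hWlow; linarith
  set N : ℕ := ⌊ε1 / 8 * (X : ℝ) ^ 2⌋₊ with hN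
  set D1 : ℝ := (1 + ε1) * Real.exp (Real.pi * N / (X : ℝ) ^ 2) *
        (cM M * (1 + ε1) * 𝓛 + C) with hD1
  have h𝓛n : 0 ≤ 𝓛 := le_trans (by positivity) h𝓛K
  have hD1n : 0 ≤ D1 := by positivity
  have hexp : Real.exp (Real.pi * N / (X : ℝ) ^ 2) ≤ 1 + ε1 := by
    have h1 : (N : ℝ) ≤ ε1 / 8 * (X : ℝ) ^ 2 := Nat.floor_le (by positivity)
    have h2 : Real.pi * N / (X : ℝ) ^ 2 ≤ ε1 / 2 := by
      rw [div_le_iff₀ (by positivity)]
      have h3 : Real.pi * N ≤ 4 * (ε1 / 8 * (X : ℝ) ^ 2) :=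
        mul_le_mul Real.pi_lt_four.le h1 (by positivity) (by norm_num)
      linarith
    refine (Real.exp_le_exp.mpr h2).trans ?_
    have h4 := Real.exp_bound_div_one_sub_of_interval (x := ε1 / 2) (by positivity) (by linarith)
    refine h4.trans ?_
    rw [div_le_iff₀ (by linarith)]
    exact NL.c1 hε1 hε1'
  have hD1W : D1 ≤ (1 + 11 * ε1) * WM M X Y := by
    have h1 : cM M * (1 + ε1) * 𝓛 + C ≤ (1 + 2 * ε1) * WM M X Y := by
      have h2 : 3 * C4 + C ≤ ε1 * cM M * 𝓛 := by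
        rw [div_le_iff₀ (by positivity)] at h𝓛K; linarith
      have h3 : (1 + 2 * ε1) * (cM M * 𝓛 - C4) ≤ (1 + 2 * ε1) * WM M X Y :=
        mul_le_mul_of_nonneg_left hWlow' (by linarith)
      have h4 : (1 + 2 * ε1) * (cM M * 𝓛 - C4) = cM M * (1 + ε1) * 𝓛 + ε1 * cM M * 𝓛 -
        (1 + 2 * ε1) * C4 := by ring
      have h5 : (1 + 2 * ε1) * C4 ≤ 3 * C4 := mul_le_mul_of_nonneg_right (by linarith) hC4.le
      linarith
    have hW0 : 0 ≤ WM M X Y := primFamM_nonneg _ _ _ _ (fun _ _ => zero_le_one)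
    have h6 : D1 ≤ (1 + ε1) * (1 + ε1) * ((1 + 2 * ε1) * WM M X Y) := by
      rw [hD1]
      refine mul_le_mul ?_ h1 (by positivity) (by positivity)
      exact mul_le_mul_of_nonneg_left hexp (by linarith)
    refine h6.trans ?_
    have h7 : (1 + ε1) * (1 + ε1) * (1 + 2 * ε1) ≤ 1 + 11 * ε1 := by
      have g1 : ε1 ^ 2 ≤ ε1 := pow_le_of_le_one hε1.le hε1' two_ne_zero
      have g2 : ε1 ^ 3 ≤ ε1 := pow_le_of_le_one hε1.le hε1' three_ne_zero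
      have g3 : (1 + ε1) * (1 + ε1) * (1 + 2 * ε1) = 1 + 4 * ε1 + 5 * ε1 ^ 2 + 2 * ε1 ^ 3 := by ring
      rw [g3]; linarith
    calc _ = ((1 + ε1) * (1 + ε1) * (1 + 2 * ε1)) * WM M X Y := by ring
      _ ≤ _ := mul_le_mul_of_nonneg_right h7 hW0
  obtain ⟨y1, y2, hy1, hy2, m2, m5, m4⟩ := hY X Y T D1 hXexp hKX1 hT1 hD1n hD1W
  refine ⟨YE c D1 T (Real.log X) C E 𝓛, y1, y2, hy1, hy2, ?_, m2,
    (YE_cont hs _ _ _ _ _ _).intervalIntegrable _ _, m4, m5⟩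
  intro u hu
  refine (hms X Y N T (Real.log X) u hX1 hXY hL1' hT1' hT2').trans ?_
  rw [← h𝓛, ← hD1]
  unfold YE
  refine add_le_add le_rfl ?_
  refine mul_le_mul_of_nonneg_left ?_ (by positivity)
  have h1 := hL1 (Real.log X) hLL1 X u rfl hu.1 hu.2
  have h2 : 0 ≤ Tlc c N u := tsum_nonneg fun n => by
    split_ifs
    · have := @ArithmeticFunction.vonMangoldt_nonneg n
      positivity
    · exact le_rfl
  have h3 : Tlc c N u ^ 2 ≤ 1 := pow_le_one₀ h2 h1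
  exact DDc_le C Cn CP hC hCn hCP P X Y N u hP hX1 hXY (n2 X Y P hX1 hXY hP u) (hGP u) h3

end W388
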