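import Pool.Agent.W388.TW.D0

/-!
# Dirichlet series side : proof of `W388.StDir` from `W388.StId1` and `W388.StSel`
-/

set_option autoImplicit false

open Complex Filter Topology Set LSeries

namespace W388.XDir

open ArithmeticFunction.vonMangoldt in

/-- summability of an `L`-series from a majorant -/
lemma lseriesSummable_of_le {g : ℕ → ℂ} {v : ℕ → ℝ} {s : ℂ}
    (hg : ∀ n : ℕ, n ≠ 0 → ‖g n‖ ≤ v n) (hv : Summable (fun n : ℕ => v n * (n : ℝ) ^ (-s.re))) :
    LSeriesSummable g s := by
  have h0 : Summable (fun n : ℕ => if n = 0 then 0 else v n * (n : ℝ) ^ (-s.re)) := by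
    refine (hv.add (summable_of_ne_finset_zero (s := {0})
      (f := fun n : ℕ => if n = 0 then -(v 0 * ((0 : ℕ) : ℝ) ^ (-s.re)) else 0) ?_)).congr ?_
    · intro n hn; simp at hn; simp [hn]
    · intro n
      rcases eq_or_ne n 0 with rfl | hn
      · simp
      · simp [hn]
  refine Summable.of_norm_bounded h0 (fun n => ?_)
  rw [LSeries.norm_term_eq]
  split_ifs with hn
  · exact le_rfl
  · rw [Real.rpow_neg (Nat.cast_nonneg n), ← div_eq_mul_inv]
    exact div_le_div_of_nonneg_right (hg n hn) (by positivity)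

lemma norm_char_le {q : ℕ} (χ : DirichletCharacter ℂ q) (n : ZMod q) : ‖χ n‖ ≤ 1 :=
  DirichletCharacter.norm_le_one χ n

/-- the sum over the powers of one prime -/
lemma local_sum {a : ℕ → ℂ} {u v : ℂ} (ha : Summable a) (h0 : a 0 = 1) (h1 : a 1 = u)
    (h2 : ∀ j, a (j + 2) = u * a (j + 1) - v * a j) : ∑' j, a j = (1 - u + v)⁻¹ := by
  have hs1 : Summable (fun j => a (j + 1)) := (summable_nat_add_iff 1).mpr ha
  have hs2 : Summable (fun j => a (j + 2)) := (summable_nat_add_iff 2).mpr ha
  have e1 : ∑' j, a j = a 0 + ∑' j, a (j + 1) := ha.tsum_eq_zero_add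
  have e2 : ∑' j, a (j + 1) = a 1 + ∑' j, a (j + 2) := hs1.tsum_eq_zero_add
  have e3 : ∑' j, a (j + 2) = u * ∑' j, a (j + 1) - v * ∑' j, a j := by
    rw [← tsum_mul_left, ← tsum_mul_left, ← (hs1.mul_left u).tsum_sub (ha.mul_left v)]
    exact tsum_congr h2
  have e4 : (∑' j, a j) * (1 - u + v) = 1 := by
    rw [h0] at e1
    rw [h1] at e2
    have e5 : ∑' j, a (j + 1) = ∑' j, a j - 1 := by rw [e1]; ring
    rw [e3, e5] at e2
    linear_combination e2
  exact eq_inv_of_mul_eq_one_left e4

theorem t_dir (h1 : W388.StId1) (hs : W388.StSel) : W388.StDir := by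
  intro N hN lam hlam hRS
  obtain ⟨-, hSel, -⟩ := hs N hN lam hlam hRS
  obtain ⟨hlamsum, -⟩ := hRS
  set c : ℕ → ℝ := W388.cS N lam with hc
  have hid := h1 N lam hlam
  -- real summability facts
  have hnx : ∀ x : ℝ, 1 < x → Summable (fun n : ℕ => (n : ℝ) ^ (-x)) := fun x hx =>
    Real.summable_nat_rpow.mpr (by linarith)
  have hlx : ∀ x : ℝ, 1 < x → Summable (fun n : ℕ => |lam n| * (n : ℝ) ^ (-x)) := by
    intro x hx
    have e1 := hlamsum (x - 1) (by linarith)
    have e2 : Summable (fun n : ℕ => (1 / 2) * ((n : ℝ) ^ (-x) + lam n ^ 2 * (n : ℝ) ^ (-x))) := by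
      refine ((hnx x hx).add (e1.congr (fun n => ?_))).mul_left _
      congr 2; ring
    refine Summable.of_nonneg_of_le (fun n => by positivity) (fun n => ?_) e2
    have e3 : |lam n| ≤ (1 / 2) * (1 + lam n ^ 2) := by
      nlinarith [sq_nonneg (|lam n| - 1), sq_abs (lam n)]
    calc |lam n| * (n : ℝ) ^ (-x) ≤ ((1 / 2) * (1 + lam n ^ 2)) * (n : ℝ) ^ (-x) :=
          mul_le_mul_of_nonneg_right e3 (by positivity)
      _ = _ := by ring
  have hΛx : ∀ x : ℝ, 1 < x → Summable (fun n : ℕ => ArithmeticFunction.vonMangoldt n * (n : ℝ) ^ (-x)) := by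
    intro x hx
    have e1 := (ArithmeticFunction.LSeriesSummable_vonMangoldt (s := (x : ℂ)) (by simpa using hx)).norm
    refine e1.congr (fun n => ?_)
    rw [LSeries.norm_term_eq]
    split_ifs with hn
    · simp [hn]
    · rw [Complex.norm_real, Real.norm_of_nonneg ArithmeticFunction.vonMangoldt_nonneg,
        Complex.ofReal_re, Real.rpow_neg (Nat.cast_nonneg n), div_eq_mul_inv]
  have hcx : ∀ x : ℝ, 1 < x → Summable (fun n : ℕ => ArithmeticFunction.vonMangoldt n * |c n| * (n : ℝ) ^ (-x)) := by
    intro x hx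
    have e1 := hSel (x - 1) (by linarith)
    have e2 : Summable (fun n : ℕ => (1 / 2) * (ArithmeticFunction.vonMangoldt n * (n : ℝ) ^ (-x) +
        ArithmeticFunction.vonMangoldt n * c n ^ 2 * (n : ℝ) ^ (-x))) := by
      refine ((hΛx x hx).add (e1.congr (fun n => ?_))).mul_left _
      congr 2; ring
    have hΛ0 : ∀ n : ℕ, 0 ≤ ArithmeticFunction.vonMangoldt n := fun n => ArithmeticFunction.vonMangoldt_nonneg
    refine Summable.of_nonneg_of_le (fun n => by have := hΛ0 n; positivity) (fun n => ?_) e2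
    have e3 : |c n| ≤ (1 / 2) * (1 + c n ^ 2) := by
      nlinarith [sq_nonneg (|c n| - 1), sq_abs (c n)]
    calc ArithmeticFunction.vonMangoldt n * |c n| * (n : ℝ) ^ (-x) ≤ ArithmeticFunction.vonMangoldt n * ((1 / 2) * (1 + c n ^ 2)) * (n : ℝ) ^ (-x) :=
          mul_le_mul_of_nonneg_right (mul_le_mul_of_nonneg_left e3 (hΛ0 n)) (by positivity)
      _ = _ := by ring
  have hΛ0 : ∀ n : ℕ, 0 ≤ ArithmeticFunction.vonMangoldt n := fun n => ArithmeticFunction.vonMangoldt_nonneg
  -- the sum `Σ ArithmeticFunction.vonMangoldt |c| n^(-3/2)` and the bound for the logarithm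
  set S0 : ℝ := ∑' n : ℕ, ArithmeticFunction.vonMangoldt n * |c n| * (n : ℝ) ^ (-(3 / 2) : ℝ) with hS0
  have hS0s := hcx (3 / 2) (by norm_num)
  have hS0n : 0 ≤ S0 := tsum_nonneg (fun n => by have := hΛ0 n; positivity)
  have hlog2 : (0 : ℝ) < Real.log 2 := Real.log_pos (by norm_num)
  set B : ℝ := (Real.log 2)⁻¹ * S0 with hB
  have hBn : 0 ≤ B := by positivity
  refine ⟨max (max 1 S0) (Real.exp B), le_trans (le_max_left _ _) (le_max_left _ _), hS0s,
    le_trans (le_max_right _ _) (le_max_left _ _), ?_⟩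
  intro q _ χ F hF
  -- the coefficient functions
  let f : ℕ → ℂ := fun n => χ (n : ZMod q) * (lam n : ℂ)
  let g : ℕ → ℂ := fun n => χ (n : ZMod q) * (c n : ℂ) * (ArithmeticFunction.vonMangoldt n : ℂ)
  let h : ℕ → ℂ := fun n => χ (n : ZMod q) * (c n : ℂ) * (ArithmeticFunction.vonMangoldt n : ℂ) / (Real.log n : ℂ)
  have hfn : ∀ n : ℕ, ‖f n‖ ≤ |lam n| := by
    intro n
    simp only [f]
    rw [norm_mul, Complex.norm_real, Real.norm_eq_abs]
    exact mul_le_of_le_one_left (abs_nonneg _) (norm_char_le χ _)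
  have hgn : ∀ n : ℕ, ‖g n‖ ≤ ArithmeticFunction.vonMangoldt n * |c n| := by
    intro n
    simp only [g]
    rw [norm_mul, norm_mul, Complex.norm_real, Complex.norm_real, Real.norm_eq_abs,
      Real.norm_of_nonneg (hΛ0 n)]
    have := mul_le_of_le_one_left (abs_nonneg (c n)) (norm_char_le χ (n : ZMod q))
    calc _ ≤ |c n| * ArithmeticFunction.vonMangoldt n := mul_le_mul_of_nonneg_right this (hΛ0 n)
      _ = _ := mul_comm _ _
  have hhn : ∀ n : ℕ, ‖h n‖ ≤ (Real.log 2)⁻¹ * (ArithmeticFunction.vonMangoldt n * |c n|) := by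
    intro n
    have e : h n = g n / (Real.log n : ℂ) := rfl
    rw [e, norm_div, Complex.norm_real]
    rcases lt_or_ge n 2 with hn | hn
    · have : Real.log n = 0 := by interval_cases n <;> simp
      rw [this, norm_zero, div_zero]
      have := hΛ0 n
      positivity
    · have h2 : Real.log 2 ≤ Real.log n := Real.log_le_log (by norm_num) (by exact_mod_cast hn)
      rw [Real.norm_of_nonneg (hlog2.le.trans h2), div_eq_inv_mul]
      exact mul_le_mul (inv_anti₀ hlog2 h2) (hgn n) (norm_nonneg _) (by positivity)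
  have hfs : ∀ s : ℂ, 1 < s.re → LSeriesSummable f s := fun s hs =>
    lseriesSummable_of_le (fun n _ => hfn n) (hlx s.re hs)
  have hgs : ∀ s : ℂ, 1 < s.re → LSeriesSummable g s := fun s hs =>
    lseriesSummable_of_le (fun n _ => hgn n) (hcx s.re hs)
  have hhs : ∀ s : ℂ, 1 < s.re → LSeriesSummable h s := fun s hs =>
    lseriesSummable_of_le (fun n _ => hhn n) (by
      simp only [mul_assoc]
      exact ((hcx s.re hs).congr (fun n => by ring)).mul_left _)
  have habs : ∀ (w : ℕ → ℂ), (∀ s : ℂ, 1 < s.re → LSeriesSummable w s) → ∀ s : ℂ, 1 < s.re →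
      abscissaOfAbsConv w < s.re := by
    intro w hw s hs
    have e1 := (hw (((1 + s.re) / 2 : ℝ) : ℂ) (by simp; linarith)).abscissaOfAbsConv_le
    refine lt_of_le_of_lt e1 ?_
    simp only [Complex.ofReal_re]
    exact_mod_cast (by linarith : (1 + s.re) / 2 < s.re)
  have hFL : ∀ s : ℂ, 1 < s.re → F s = LSeries f s := by
    intro s hs
    rw [hF s hs, LSeries]
    refine tsum_congr (fun n => ?_)
    rcases eq_or_ne n 0 with rfl | hn
    · simp [hlam.zero]
    · rw [LSeries.term_of_ne_zero hn, Complex.cpow_neg, div_eq_mul_inv]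
  have hopen : IsOpen {s : ℂ | 1 < s.re} := isOpen_lt continuous_const Complex.continuous_re
  have hderF : ∀ s : ℂ, 1 < s.re → HasDerivAt F (-(LSeries g s * F s)) s := by
    intro s hs
    have e1 := LSeries_hasDerivAt (habs f hfs s hs)
    have e2 : LSeries (logMul f) s = LSeries g s * F s := by
      have e3 : ∀ n : ℕ, n ≠ 0 → logMul f n = (LSeries.convolution g f) n := by
        intro n hn
        rw [LSeries.convolution_def]
        simp only [logMul, f, g]
        rw [Nat.sum_divisorsAntidiagonal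
          (f := fun a b => χ (a : ZMod q) * (c a : ℂ) * (ArithmeticFunction.vonMangoldt a : ℂ) * (χ (b : ZMod q) * (lam b : ℂ)))]
        have e4 := congrArg (fun x : ℝ => (x : ℂ)) (hid n hn)
        push_cast at e4
        rw [← mul_assoc, mul_comm (Complex.log _), mul_assoc, mul_comm (Complex.log _), e4,
          Finset.mul_sum]
        refine Finset.sum_congr rfl (fun d hd => ?_)
        have hd' := Nat.dvd_of_mem_divisors hd
        have e5 : (χ (n : ZMod q)) = χ (d : ZMod q) * χ ((n / d : ℕ) : ZMod q) := by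
          rw [← map_mul, ← Nat.cast_mul, Nat.mul_div_cancel' hd']
        rw [e5]
        ring
      rw [LSeries_congr (fun {n} hn => e3 n hn) s, LSeries_convolution' (hgs s hs) (hfs s hs),
        hFL s hs]
    rw [e2] at e1
    refine e1.congr_of_eventuallyEq ?_
    filter_upwards [hopen.mem_nhds hs] with z hz
    exact hFL z hz
  have hderH : ∀ s : ℂ, 1 < s.re → HasDerivAt (LSeries h) (-(LSeries g s)) s := by
    intro s hs
    have e1 := LSeries_hasDerivAt (habs h hhs s hs)
    have e2 : LSeries (logMul h) s = LSeries g s := by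
      refine LSeries_congr (fun {n} hn => ?_) s
      simp only [logMul, h, g]
      rcases Nat.lt_or_ge n 2 with hn2 | hn2
      · have : n = 1 := by omega
        subst this
        simp
      · have h2 : (Real.log n : ℂ) ≠ 0 := by
          have : 0 < Real.log n := Real.log_pos (by exact_mod_cast hn2)
          exact_mod_cast this.ne'
        rw [← Complex.natCast_log]
        field_simp
    rw [e2] at e1
    exact e1
  -- `F = exp (LSeries h)`
  have hconst : ∀ s : ℂ, 1 < s.re → ∀ t : ℂ, 1 < t.re →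
      F s * Complex.exp (-(LSeries h s)) = F t * Complex.exp (-(LSeries h t)) := by
    intro s hs t ht
    have hd : ∀ z : ℂ, 1 < z.re → HasDerivAt (fun z => F z * Complex.exp (-(LSeries h z))) 0 z := by
      intro z hz
      have e1 := (hderF z hz).mul ((hderH z hz).neg.cexp)
      have e2 : (0 : ℂ) = -(LSeries g z * F z) * Complex.exp ((-LSeries h) z) +
          F z * (Complex.exp ((-LSeries h) z) * - -(LSeries g z)) := by ring
      rw [e2]
      exact e1
    have hpre : IsPreconnected {s : ℂ | 1 < s.re} :=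
      (convex_halfSpace_re_gt 1).isPreconnected
    exact IsOpen.is_const_of_deriv_eq_zero hopen hpre
      (f := fun z => F z * Complex.exp (-(LSeries h z)))
      (fun z hz => (hd z hz).differentiableAt.differentiableWithinAt)
      (fun z hz => (hd z hz).deriv) hs ht
  have hlim : Tendsto (fun x : ℝ => F x * Complex.exp (-(LSeries h x))) atTop (𝓝 1) := by
    have e1 : Tendsto (fun x : ℝ => LSeries f x) atTop (𝓝 (f 1)) :=
      LSeries.tendsto_atTop ((habs f hfs 2 (by norm_num)).trans_le le_top)
    have e2 : Tendsto (fun x : ℝ => LSeries h x) atTop (𝓝 (h 1)) :=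
      LSeries.tendsto_atTop ((habs h hhs 2 (by norm_num)).trans_le le_top)
    have e3 : f 1 = 1 := by simp [f, hlam.one]
    have e4 : h 1 = 0 := by simp [h]
    rw [e3] at e1
    rw [e4] at e2
    have e5 : Tendsto (fun x : ℝ => LSeries f x * Complex.exp (-(LSeries h x))) atTop
        (𝓝 (1 * Complex.exp (-0))) := e1.mul ((Complex.continuous_exp.tendsto _).comp e2.neg)
    rw [neg_zero, Complex.exp_zero, mul_one] at e5
    refine e5.congr' ?_
    filter_upwards [eventually_gt_atTop (1 : ℝ)] with x hx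
    rw [hFL x (by simpa using hx)]
  have hexp : ∀ s : ℂ, 1 < s.re → F s = Complex.exp (LSeries h s) := by
    intro s hs
    have e1 : Tendsto (fun x : ℝ => F x * Complex.exp (-(LSeries h x))) atTop
        (𝓝 (F s * Complex.exp (-(LSeries h s)))) := by
      refine tendsto_const_nhds.congr' ?_
      filter_upwards [eventually_gt_atTop (1 : ℝ)] with x hx
      exact hconst s hs x (by simpa using hx)
    have e2 := tendsto_nhds_unique hlim e1
    rw [Complex.exp_neg] at e2
    field_simp at e2
    exact e2.symm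
  have hHb : ∀ s : ℂ, 3 / 2 ≤ s.re → ‖LSeries h s‖ ≤ B := by
    intro s hs
    rw [LSeries, hB, hS0, ← tsum_mul_left]
    refine tsum_of_norm_bounded (hS0s.mul_left _).hasSum (fun n => ?_)
    rw [LSeries.norm_term_eq]
    split_ifs with hn
    · have := hΛ0 n
      positivity
    · have hn1 : (1 : ℝ) ≤ n := by exact_mod_cast Nat.one_le_iff_ne_zero.mpr hn
      calc ‖h n‖ / (n : ℝ) ^ s.re ≤ ‖h n‖ / (n : ℝ) ^ (3 / 2 : ℝ) :=
            div_le_div_of_nonneg_left (norm_nonneg _) (by positivity)
              (Real.rpow_le_rpow_of_exponent_le hn1 hs)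
        _ ≤ ((Real.log 2)⁻¹ * (ArithmeticFunction.vonMangoldt n * |c n|)) / (n : ℝ) ^ (3 / 2 : ℝ) :=
            div_le_div_of_nonneg_right (hhn n) (by positivity)
        _ = _ := by
            rw [Real.rpow_neg (Nat.cast_nonneg n), div_eq_mul_inv]; ring
  refine ⟨?_, ?_, ?_, ?_, ?_, ?_⟩
  · -- summability
    intro s hs
    refine (hfs s hs).norm.congr (fun n => ?_)
    rcases eq_or_ne n 0 with rfl | hn
    · simp [hlam.zero]
    · rw [LSeries.term_of_ne_zero hn, Complex.cpow_neg, div_eq_mul_inv]
  · intro s hs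
    rw [hexp s hs]
    exact Complex.exp_ne_zero _
  · intro s hs
    have hne : F s ≠ 0 := by rw [hexp s hs]; exact Complex.exp_ne_zero _
    rw [(hderF s hs).deriv, neg_div, mul_div_assoc, div_self hne, mul_one, LSeries]
    congr 1
    refine tsum_congr (fun n => ?_)
    rcases eq_or_ne n 0 with rfl | hn
    · simp
    · rw [LSeries.term_of_ne_zero hn, Complex.cpow_neg, div_eq_mul_inv]
  · intro s hs
    rw [hexp s (by linarith), Complex.norm_exp]
    refine le_trans (Real.exp_le_exp.mpr ?_) (le_max_right _ _)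
    exact (Complex.re_le_norm _).trans (hHb s hs)
  · intro s hs
    rw [hexp s (by linarith), Complex.norm_exp]
    have e1 : -B ≤ (LSeries h s).re := by
      have := Complex.abs_re_le_norm (LSeries h s)
      have h2 := hHb s (by linarith)
      have h3 := neg_abs_le (LSeries h s).re
      linarith
    calc (max (max 1 S0) (Real.exp B))⁻¹ ≤ (Real.exp B)⁻¹ :=
          inv_anti₀ (Real.exp_pos _) (le_max_right _ _)
      _ = Real.exp (-B) := (Real.exp_neg B).symm
      _ ≤ _ := Real.exp_le_exp.mpr e1
  · -- Euler product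
    intro s hs
    let w : ℕ → ℂ := fun n => χ (n : ZMod q) * (n : ℂ) ^ (-s)
    have hwm : ∀ m n : ℕ, w (m * n) = w m * w n := by
      intro m n
      simp only [w]
      rw [Nat.cast_mul, map_mul, Nat.cast_mul, Complex.natCast_mul_natCast_cpow]
      ring
    have hw1 : w 1 = 1 := by simp [w]
    have hwp : ∀ p j : ℕ, w (p ^ j) = w p ^ j := by
      intro p j
      induction j with
      | zero => simp [hw1]
      | succ j ih => rw [pow_succ, hwm, ih, pow_succ]
    let fs : ℕ → ℂ := fun n => w n * (lam n : ℂ)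
    have hfs' : ∀ n : ℕ, fs n = χ (n : ZMod q) * (lam n : ℂ) * (n : ℂ) ^ (-s) := by
      intro n; simp only [fs, w]; ring
    have hsum : Summable (fun n => ‖fs n‖) := by
      refine (hfs s hs).norm.congr (fun n => ?_)
      rw [hfs']
      rcases eq_or_ne n 0 with rfl | hn
      · simp [hlam.zero]
      · rw [LSeries.term_of_ne_zero hn, Complex.cpow_neg, div_eq_mul_inv]
    have e1 := EulerProduct.eulerProduct_hasProd (f := fs) (by simp [fs, hw1, hlam.one])
      (by
        intro m n hmn
        simp only [fs]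
        rw [hwm, hlam.mul m n hmn]
        push_cast
        ring) hsum (by simp [fs, hlam.zero])
    have e2 : ∑' n, fs n = F s := by
      rw [hF s hs]
      exact tsum_congr hfs'
    rw [e2] at e1
    convert e1 using 2 with p
    have hp := p.2
    have hps : Summable (fun j : ℕ => fs ((p : ℕ) ^ j)) := by
      have hinj : Function.Injective (fun j : ℕ => (p : ℕ) ^ j) := Nat.pow_right_injective hp.two_le
      exact (hsum.of_norm).comp_injective hinj
    symm
    have e3 := local_sum (a := fun j : ℕ => fs ((p : ℕ) ^ j)) (u := w p * (lam p : ℂ))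
      (v := if (p : ℕ) ∣ N then 0 else w p ^ 2) hps (by simp [fs, hw1, hlam.one]) (by simp [fs])
      (by
        intro j
        simp only [fs, hwp]
        rw [hlam.pow p j hp]
        split_ifs with hpN
        · push_cast; ring
        · push_cast; ring)
    rw [e3]
    congr 1
    have e4 : w p * (lam p : ℂ) = χ ((p : ℕ) : ZMod q) * (lam p : ℂ) * ((p : ℕ) : ℂ) ^ (-s) := by
      simp only [w]; ring
    have e5 : (if (p : ℕ) ∣ N then 0 else w p ^ 2) =
        (if (p : ℕ) ∣ N then 0 else χ ((p : ℕ) : ZMod q) ^ 2 * ((p : ℕ) : ℂ) ^ (-2 * s)) := by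
      split_ifs with hpN
      · rfl
      · simp only [w]
        rw [mul_pow]
        congr 1
        rw [← Complex.cpow_nat_mul]
        congr 1
        push_cast
        ring
    rw [e4, e5]

end W388.XDir
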