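import Pool.Agent.W388.TW.D0

/-!
# Twists of GL(2) newforms : non-coprime sums and tails (T2b)

`t_noncop : W388.StNonCop` (subtask of helper388, written by helper566).
-/

set_option autoImplicit false

open Complex Filter Topology Set MeasureTheory

namespace W388.XNonCop


/-! ## Gaussian sums over spaced points -/

lemma exp_le_quad (x k : ℝ) (h : k ^ 2 / 16 ≤ x ^ 2) :
    Real.exp (-x ^ 2 / 4) ≤ 64 / (64 + k ^ 2) := by
  have h1 : 1 + k ^ 2 / 64 ≤ Real.exp (x ^ 2 / 4) := by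
    have := Real.add_one_le_exp (x ^ 2 / 4)
    linarith
  have h2 : Real.exp (-x ^ 2 / 4) = (Real.exp (x ^ 2 / 4))⁻¹ := by
    rw [← Real.exp_neg]; congr 1; ring
  rw [h2, show (64 : ℝ) / (64 + k ^ 2) = (1 + k ^ 2 / 64)⁻¹ by field_simp]
  exact inv_anti₀ (by positivity) h1

lemma summ_quad : Summable (fun k : ℤ => (64 : ℝ) / (64 + (k : ℝ) ^ 2)) := by
  have h1 : Summable (fun k : ℤ => (64 : ℝ) * (1 / (k : ℝ) ^ 2)) :=
    ((Real.summable_one_div_int_pow (p := 2)).mpr (by norm_num)).mul_left _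
  have h2 : Summable (fun k : ℤ => if k = 0 then (1 : ℝ) else 0) :=
    (hasSum_ite_eq 0 (1 : ℝ)).summable
  refine Summable.of_nonneg_of_le (fun k => by positivity) (fun k => ?_) (h1.add h2)
  rcases eq_or_ne k 0 with rfl | hk
  · simp
  · have hk' : (0 : ℝ) < (k : ℝ) ^ 2 := by positivity
    rw [if_neg hk, add_zero, mul_one_div]
    exact div_le_div_of_nonneg_left (by norm_num) hk' (by linarith)

lemma gauss_spaced : ∃ C : ℝ, 1 ≤ C ∧ ∀ (u l : ℝ), (1 / 2 : ℝ) ≤ l → ∀ s : Finset ℕ,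
    ∑ j ∈ s, Real.exp (-(u - j * l) ^ 2 / 4) ≤ C := by
  refine ⟨∑' k : ℤ, (64 : ℝ) / (64 + (k : ℝ) ^ 2), ?_, ?_⟩
  · have := summ_quad.sum_le_tsum {0} (fun k _ => by positivity)
    simpa using this
  · intro u l hl s
    set j0 : ℤ := round (u / l) with hj0
    have hr : |u / l - j0| ≤ 1 / 2 := abs_sub_round _
    have hinj : Function.Injective (fun j : ℕ => (j : ℤ) - j0) := by
      intro a b h
      simpa using h
    calc ∑ j ∈ s, Real.exp (-(u - j * l) ^ 2 / 4)
        ≤ ∑ j ∈ s, (64 : ℝ) / (64 + (((j : ℤ) - j0 : ℤ) : ℝ) ^ 2) := by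
          refine Finset.sum_le_sum (fun j _ => exp_le_quad _ _ ?_)
          have hl0 : 0 < l := by linarith
          have h1 : u - j * l = l * (u / l - j) := by field_simp
          set k : ℤ := (j : ℤ) - j0 with hk
          have h2 : u / l - j = (u / l - j0) - k := by rw [hk]; push_cast; ring
          rcases eq_or_ne k 0 with h0 | h0
          · rw [h0]; simp; positivity
          · have hk1 : (1 : ℝ) ≤ |(k : ℝ)| := by
              have := Int.one_le_abs h0
              rw [← Int.cast_abs]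
              exact_mod_cast this
            have h3 : |(k : ℝ)| / 2 ≤ |u / l - j| := by
              rw [h2]
              have h5 := abs_sub_abs_le_abs_sub (k : ℝ) (u / l - j0)
              have h6 : |(k : ℝ) - (u / l - j0)| = |u / l - j0 - k| := abs_sub_comm _ _
              linarith
            have h4 : |(k : ℝ)| / 4 ≤ |u - j * l| := by
              rw [h1, abs_mul, abs_of_pos hl0]
              nlinarith [abs_nonneg (u / l - j), abs_nonneg (k : ℝ)]
            rw [← sq_abs (k : ℝ), ← sq_abs (u - j * l)]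
            nlinarith [abs_nonneg (k : ℝ)]
      _ = ∑ k ∈ s.image (fun j : ℕ => (j : ℤ) - j0), (64 : ℝ) / (64 + (k : ℝ) ^ 2) := by
          rw [Finset.sum_image (fun a _ b _ h => hinj h)]
      _ ≤ _ := summ_quad.sum_le_tsum _ (fun k _ => by positivity)

/-- sum over the powers of one prime -/
lemma gauss_prime : ∃ C : ℝ, 1 ≤ C ∧ ∀ (u : ℝ) (p : ℕ), 2 ≤ p → ∀ s : Finset ℕ,
    (∀ m ∈ s, IsPrimePow m ∧ m.minFac = p) →
    ∑ m ∈ s, Real.exp (-(u - Real.log m) ^ 2 / 4) ≤ C := by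
  obtain ⟨C, hC, h⟩ := gauss_spaced
  refine ⟨C, hC, fun u p hp s hs => ?_⟩
  have hl : (1 / 2 : ℝ) ≤ Real.log p := by
    have h1 : Real.log 2 ≤ Real.log p := Real.log_le_log (by norm_num) (by exact_mod_cast hp)
    have := Real.log_two_gt_d9
    linarith
  have hpow : ∀ m ∈ s, p ^ m.factorization p = m := by
    intro m hm
    have := (hs m hm).1.minFac_pow_factorization_eq
    rwa [(hs m hm).2] at this
  have hinj : Set.InjOn (fun m : ℕ => m.factorization p) (s : Set ℕ) := by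
    intro a ha b hb hab
    rw [← hpow a ha, ← hpow b hb]
    simp only at hab
    rw [hab]
  have h1 := h u (Real.log p) hl (s.image (fun m : ℕ => m.factorization p))
  rw [Finset.sum_image hinj] at h1
  refine le_trans (le_of_eq ?_) h1
  refine Finset.sum_congr rfl (fun m hm => ?_)
  have h2 : Real.log m = (m.factorization p : ℝ) * Real.log p := by
    conv_lhs => rw [← hpow m hm]
    push_cast
    rw [Real.log_pow]
  rw [h2]

/-! ## sums of `1/q` -/

lemma sum_inv_le (X Z : ℕ) (hX : 1 ≤ X) (h : X ≤ Z) :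
    ∑ q ∈ Finset.Ioc X Z, (1 / (q : ℝ)) ≤ Real.log ((Z : ℝ) / X) := by
  induction Z, h using Nat.le_induction with
  | base =>
    have : (X : ℝ) ≠ 0 := by positivity
    simp [this]
  | succ Z hZ ih =>
    rw [Finset.sum_Ioc_succ_top (by omega)]
    have hX0 : (0 : ℝ) < X := by exact_mod_cast hX
    have hZ0 : (0 : ℝ) < Z := by exact_mod_cast (show 0 < Z by omega)
    have h1 : Real.log (((Z + 1 : ℕ) : ℝ) / X) = Real.log ((Z : ℝ) / X) +
        Real.log (((Z + 1 : ℕ) : ℝ) / Z) := by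
      rw [← Real.log_mul (by positivity) (by positivity)]
      congr 1
      field_simp
    rw [h1]
    refine add_le_add ih ?_
    have h2 : 1 - ((((Z + 1 : ℕ) : ℝ)) / Z)⁻¹ ≤ Real.log ((((Z + 1 : ℕ) : ℝ)) / Z) :=
      Real.one_sub_inv_le_log_of_pos (by positivity)
    refine le_trans (le_of_eq ?_) h2
    push_cast
    field_simp
    ring

/-- `∑_{X < q ≤ Z, d ∣ q} 1/q ≤ (log (Z/X) + 1)/d` -/
lemma sum_inv_dvd (X Z d : ℕ) (hX : 1 ≤ X) (h : X ≤ Z) (hd : 1 ≤ d) :
    ∑ q ∈ (Finset.Ioc X Z).filter (fun q => d ∣ q), (1 / (q : ℝ)) ≤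
      (Real.log ((Z : ℝ) / X) + 1) / d := by
  have hX0 : (0 : ℝ) < X := by exact_mod_cast hX
  have hZ0 : (0 : ℝ) < Z := by exact_mod_cast (show 0 < Z by omega)
  have hd0 : (0 : ℝ) < d := by exact_mod_cast hd
  have hlog0 : 0 ≤ Real.log ((Z : ℝ) / X) := by
    apply Real.log_nonneg
    rw [le_div_iff₀ hX0]
    rw [one_mul]
    exact_mod_cast h
  have hsub : (Finset.Ioc X Z).filter (fun q => d ∣ q) ⊆
      (Finset.Ioc (X / d) (Z / d)).image (fun m => d * m) := by
    intro q hq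
    rw [Finset.mem_filter, Finset.mem_Ioc] at hq
    obtain ⟨⟨h1, h2⟩, m, rfl⟩ := hq
    rw [Finset.mem_image]
    refine ⟨m, ?_, rfl⟩
    rw [Finset.mem_Ioc]
    constructor
    · rw [Nat.div_lt_iff_lt_mul hd]; linarith [Nat.mul_comm d m]
    · rw [Nat.le_div_iff_mul_le hd]; linarith [Nat.mul_comm d m]
  have hmain : ∑ m ∈ Finset.Ioc (X / d) (Z / d), (1 / (m : ℝ)) ≤ Real.log ((Z : ℝ) / X) + 1 := by
    rcases Nat.eq_zero_or_pos (X / d) with h0 | h0
    · rw [h0]
      have hXd : X < d := by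
        rw [Nat.div_eq_zero_iff] at h0
        omega
      rcases Nat.eq_zero_or_pos (Z / d) with h1 | h1
      · rw [h1]; simp; linarith
      · have h2 : ∑ m ∈ Finset.Ioc 0 (Z / d), (1 / (m : ℝ)) = (harmonic (Z / d) : ℝ) := by
          rw [harmonic_eq_sum_Icc]
          push_cast
          refine Finset.sum_congr ?_ (fun i _ => by rw [one_div])
          ext i; simp [Finset.mem_Ioc, Finset.mem_Icc]; omega
        rw [h2]
        refine (harmonic_le_one_add_log _).trans ?_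
        have h3 : Real.log ((Z / d : ℕ) : ℝ) ≤ Real.log ((Z : ℝ) / X) := by
          apply Real.log_le_log (by exact_mod_cast h1)
          calc ((Z / d : ℕ) : ℝ) ≤ (Z : ℝ) / d := Nat.cast_div_le
            _ ≤ (Z : ℝ) / X := by
              apply div_le_div_of_nonneg_left hZ0.le hX0
              exact_mod_cast hXd.le
        linarith
    · have hle : X / d ≤ Z / d := Nat.div_le_div_right h
      refine (sum_inv_le _ _ h0 hle).trans ?_
      have hM : (0 : ℝ) < ((X / d : ℕ) : ℝ) := by exact_mod_cast h0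
      have h1 : (X : ℝ) ≤ 2 * d * ((X / d : ℕ) : ℝ) := by
        have h2 : X < d * (X / d + 1) := Nat.lt_mul_div_succ X hd
        have h3 : X ≤ 2 * d * (X / d) := by nlinarith
        exact_mod_cast h3
      have h2 : (((Z / d : ℕ) : ℝ)) / ((X / d : ℕ) : ℝ) ≤ 2 * ((Z : ℝ) / X) := by
        rw [div_le_iff₀ hM]
        have h4 : ((Z / d : ℕ) : ℝ) ≤ (Z : ℝ) / d := Nat.cast_div_le
        refine h4.trans ?_
        rw [div_le_iff₀ hd0]
        have h5 : 2 * ((Z : ℝ) / X) * ((X / d : ℕ) : ℝ) * d =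
          (Z : ℝ) / X * (2 * d * ((X / d : ℕ) : ℝ)) := by ring
        rw [h5]
        calc (Z : ℝ) = (Z : ℝ) / X * X := by field_simp
          _ ≤ _ := mul_le_mul_of_nonneg_left h1 (by positivity)
      have h3 : 0 < (((Z / d : ℕ) : ℝ)) / ((X / d : ℕ) : ℝ) := by
        have : (0 : ℝ) < ((Z / d : ℕ) : ℝ) := by
          have := lt_of_lt_of_le h0 hle
          exact_mod_cast this
        positivity
      calc Real.log ((((Z / d : ℕ) : ℝ)) / ((X / d : ℕ) : ℝ))
          ≤ Real.log (2 * ((Z : ℝ) / X)) := Real.log_le_log h3 h2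
        _ = Real.log 2 + Real.log ((Z : ℝ) / X) := Real.log_mul (by norm_num) (by positivity)
        _ ≤ _ := by
          have := Real.log_two_lt_d9
          linarith
  calc ∑ q ∈ (Finset.Ioc X Z).filter (fun q => d ∣ q), (1 / (q : ℝ))
      ≤ ∑ q ∈ (Finset.Ioc (X / d) (Z / d)).image (fun m => d * m), (1 / (q : ℝ)) :=
        Finset.sum_le_sum_of_subset_of_nonneg hsub (fun _ _ _ => by positivity)
    _ = ∑ m ∈ Finset.Ioc (X / d) (Z / d), (1 / ((d * m : ℕ) : ℝ)) := by
        rw [Finset.sum_image]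
        intro a _ b _ hab
        exact Nat.eq_of_mul_eq_mul_left hd hab
    _ = (∑ m ∈ Finset.Ioc (X / d) (Z / d), (1 / (m : ℝ))) / d := by
        rw [Finset.sum_div]
        refine Finset.sum_congr rfl (fun m _ => ?_)
        push_cast
        rw [one_div, one_div, mul_inv]
        field_simp
    _ ≤ _ := by gcongr

/-! ## the main finite inequality -/

/-- prime powers below `M` -/
noncomputable def TT (M : ℕ) : Finset ℕ := by
  classical exact (Finset.range M).filter (fun m => IsPrimePow m)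

lemma mem_TT {M m : ℕ} : m ∈ TT M ↔ m < M ∧ IsPrimePow m := by
  classical
  unfold TT
  rw [Finset.mem_filter, Finset.mem_range]

lemma minFac_prime_of_pp {m : ℕ} (h : IsPrimePow m) : m.minFac.Prime :=
  Nat.minFac_prime h.ne_one

lemma vM_pp {m : ℕ} (h : IsPrimePow m) : ArithmeticFunction.vonMangoldt m = Real.log m.minFac := by
  rw [ArithmeticFunction.vonMangoldt_apply, if_pos h]

lemma not_coprime_iff {m q : ℕ} (h : IsPrimePow m) : ¬ Nat.Coprime m q ↔ m.minFac ∣ q := by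
  have h1 := h.minFac_pow_factorization_eq
  have hp := minFac_prime_of_pp h
  have hk : 0 < m.factorization m.minFac := by
    refine Nat.pos_of_ne_zero (fun h0 => ?_)
    rw [h0, pow_zero] at h1
    exact h.ne_one h1.symm
  rw [← not_iff_not, not_not, ← hp.coprime_iff_not_dvd]
  conv_lhs => rw [← h1]
  exact Nat.coprime_pow_left_iff hk _ _

lemma log_le_four (x : ℝ) (hx : 1 ≤ x) : Real.log x ≤ 4 * x ^ (1 / 4 : ℝ) := by
  have := Real.log_le_rpow_div (x := x) (by linarith) (show (0 : ℝ) < 1 / 4 by norm_num)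
  linarith

/-- `∑ Λ(m) e^(-(u - log m)²/4) / (p √p)`, `p = minFac m` -/
lemma sum_A : ∃ C : ℝ, 0 < C ∧ ∀ (u : ℝ) (M : ℕ),
    ∑ m ∈ TT M, Real.log m.minFac / (m.minFac * Real.sqrt m.minFac) *
      Real.exp (-(u - Real.log m) ^ 2 / 4) ≤ C := by
  obtain ⟨C0, hC0, h0⟩ := gauss_prime
  have hs : Summable (fun n : ℕ => 4 * (1 / (n : ℝ) ^ (5 / 4 : ℝ))) :=
    (Real.summable_one_div_nat_rpow.mpr (by norm_num)).mul_left _
  have hs0 : 0 ≤ ∑' n : ℕ, 4 * (1 / (n : ℝ) ^ (5 / 4 : ℝ)) :=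
    tsum_nonneg (fun n => by positivity)
  refine ⟨C0 * (∑' n : ℕ, 4 * (1 / (n : ℝ) ^ (5 / 4 : ℝ))) + 1, by positivity, fun u M => ?_⟩
  have hmaps : ∀ m ∈ TT M, m.minFac ∈ (Finset.Ico 2 (M + 2)) := by
    intro m hm
    rw [mem_TT] at hm
    have hp := minFac_prime_of_pp hm.2
    rw [Finset.mem_Ico]
    refine ⟨hp.two_le, ?_⟩
    have := Nat.minFac_le hm.2.pos
    omega
  rw [← Finset.sum_fiberwise_of_maps_to hmaps]
  have hb : ∀ p ∈ Finset.Ico 2 (M + 2),
      ∑ m ∈ (TT M).filter (fun m => m.minFac = p),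
        Real.log m.minFac / (m.minFac * Real.sqrt m.minFac) *
          Real.exp (-(u - Real.log m) ^ 2 / 4) ≤ C0 * (4 * (1 / (p : ℝ) ^ (5 / 4 : ℝ))) := by
    intro p hp
    rw [Finset.mem_Ico] at hp
    have hp1 : (1 : ℝ) ≤ p := by exact_mod_cast (show 1 ≤ p by omega)
    have hp0 : (0 : ℝ) < p := by linarith
    have h1 : ∑ m ∈ (TT M).filter (fun m => m.minFac = p),
        Real.log m.minFac / (m.minFac * Real.sqrt m.minFac) *
          Real.exp (-(u - Real.log m) ^ 2 / 4) =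
        Real.log p / (p * Real.sqrt p) * ∑ m ∈ (TT M).filter (fun m => m.minFac = p),
          Real.exp (-(u - Real.log m) ^ 2 / 4) := by
      rw [Finset.mul_sum]
      refine Finset.sum_congr rfl (fun m hm => ?_)
      rw [(Finset.mem_filter.mp hm).2]
    rw [h1]
    have h2 := h0 u p hp.1 ((TT M).filter (fun m => m.minFac = p)) (fun m hm =>
      ⟨(mem_TT.mp (Finset.mem_filter.mp hm).1).2, (Finset.mem_filter.mp hm).2⟩)
    have h3 : Real.log p / (p * Real.sqrt p) ≤ 4 * (1 / (p : ℝ) ^ (5 / 4 : ℝ)) := by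
      have h4 := log_le_four p hp1
      have h5 : (p : ℝ) ^ (1 / 4 : ℝ) * (p : ℝ) ^ (5 / 4 : ℝ) = p * Real.sqrt p := by
        rw [← Real.rpow_add hp0, Real.sqrt_eq_rpow]
        conv_rhs => rw [← Real.rpow_one_add' hp0.le (by norm_num)]
        norm_num
      rw [mul_one_div, div_le_div_iff₀ (by positivity) (by positivity), ← h5]
      calc Real.log p * (p : ℝ) ^ (5 / 4 : ℝ) ≤ 4 * (p : ℝ) ^ (1 / 4 : ℝ) * (p : ℝ) ^ (5 / 4 : ℝ) :=
            mul_le_mul_of_nonneg_right h4 (by positivity)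
        _ = _ := by ring
    have h6 : 0 ≤ Real.log p / (p * Real.sqrt p) :=
      div_nonneg (Real.log_nonneg hp1) (by positivity)
    calc Real.log p / (p * Real.sqrt p) * ∑ m ∈ (TT M).filter (fun m => m.minFac = p),
          Real.exp (-(u - Real.log m) ^ 2 / 4)
        ≤ (4 * (1 / (p : ℝ) ^ (5 / 4 : ℝ))) * C0 := by
          apply mul_le_mul h3 h2 (Finset.sum_nonneg (fun _ _ => (Real.exp_pos _).le)) (by positivity)
      _ = _ := by ring
  refine (Finset.sum_le_sum hb).trans ?_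
  rw [← Finset.mul_sum]
  have := hs.sum_le_tsum (Finset.Ico 2 (M + 2)) (fun n _ => by positivity)
  have h7 : C0 * ∑ p ∈ Finset.Ico 2 (M + 2), 4 * (1 / (p : ℝ) ^ (5 / 4 : ℝ)) ≤
      C0 * ∑' n : ℕ, 4 * (1 / (n : ℝ) ^ (5 / 4 : ℝ)) :=
    mul_le_mul_of_nonneg_left this (by linarith)
  linarith

/-- the term -/
noncomputable def tm (c : ℕ → ℂ) (u : ℝ) (n : ℕ) : ℝ :=
  ArithmeticFunction.vonMangoldt n * ‖c n‖ / Real.sqrt n * Real.exp (-(u - Real.log n) ^ 2 / 4)

/-- the squared term -/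
noncomputable def wm (c : ℕ → ℂ) (u : ℝ) (n : ℕ) : ℝ :=
  ArithmeticFunction.vonMangoldt n * ‖c n‖ ^ 2 / n * Real.exp (-(u - Real.log n) ^ 2 / 4)

lemma tm_nonneg (c : ℕ → ℂ) (u : ℝ) (n : ℕ) : 0 ≤ tm c u n :=
  mul_nonneg (div_nonneg (mul_nonneg ArithmeticFunction.vonMangoldt_nonneg (norm_nonneg _))
    (Real.sqrt_nonneg _)) (Real.exp_pos _).le

lemma wm_nonneg (c : ℕ → ℂ) (u : ℝ) (n : ℕ) : 0 ≤ wm c u n :=
  mul_nonneg (div_nonneg (mul_nonneg ArithmeticFunction.vonMangoldt_nonneg (by positivity))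
    (by positivity)) (Real.exp_pos _).le

lemma tm_sq (c : ℕ → ℂ) (u : ℝ) (n : ℕ) :
    tm c u n ^ 2 = (ArithmeticFunction.vonMangoldt n * Real.exp (-(u - Real.log n) ^ 2 / 4)) * wm c u n := by
  unfold tm wm
  have : (Real.sqrt n) ^ 2 = (n : ℝ) := Real.sq_sqrt (Nat.cast_nonneg n)
  rw [mul_pow, div_pow, this]
  ring

lemma tm_zero_of_not_pp (c : ℕ → ℂ) (u : ℝ) {n : ℕ} (h : ¬ IsPrimePow n) : tm c u n = 0 := by
  unfold tm
  rw [ArithmeticFunction.vonMangoldt_apply, if_neg h]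
  simp

/-- finite part of `Gqc` -/
lemma fin_eq (c : ℕ → ℂ) (u : ℝ) (M q : ℕ) :
    ∑ n ∈ Finset.range M, (if Nat.Coprime n q then 0 else tm c u n) =
      ∑ n ∈ TT M, (if n.minFac ∣ q then tm c u n else 0) := by
  classical
  unfold TT
  rw [Finset.sum_filter]
  refine Finset.sum_congr rfl (fun n _ => ?_)
  by_cases hn : IsPrimePow n
  · rw [if_pos hn]
    by_cases hc : Nat.Coprime n q
    · rw [if_pos hc, if_neg (fun h => (not_coprime_iff hn).mpr h hc)]
    · rw [if_neg hc, if_pos ((not_coprime_iff hn).mp hc)]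
  · rw [if_neg hn, tm_zero_of_not_pp c u hn]
    simp

/-- weights -/
noncomputable def Am (u : ℝ) (n : ℕ) : ℝ :=
  Real.log n.minFac * Real.exp (-(u - Real.log n) ^ 2 / 4) / Real.sqrt n.minFac

noncomputable def Bm (c : ℕ → ℂ) (u : ℝ) (n : ℕ) : ℝ := wm c u n * Real.sqrt n.minFac

lemma log_minFac_nonneg (n : ℕ) : 0 ≤ Real.log n.minFac :=
  Real.log_nonneg (by exact_mod_cast (Nat.minFac_pos n))

lemma Am_nonneg (u : ℝ) (n : ℕ) : 0 ≤ Am u n :=
  div_nonneg (mul_nonneg (log_minFac_nonneg n) (Real.exp_pos _).le) (Real.sqrt_nonneg _)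

lemma Bm_nonneg (c : ℕ → ℂ) (u : ℝ) (n : ℕ) : 0 ≤ Bm c u n :=
  mul_nonneg (wm_nonneg c u n) (Real.sqrt_nonneg _)

lemma sqrt_minFac_pos (n : ℕ) : 0 < Real.sqrt n.minFac :=
  Real.sqrt_pos.mpr (by exact_mod_cast (Nat.minFac_pos n))

lemma tm_sq_eq (c : ℕ → ℂ) (u : ℝ) {n : ℕ} (hn : IsPrimePow n) :
    tm c u n ^ 2 = Am u n * Bm c u n := by
  rw [tm_sq, vM_pp hn]
  unfold Am Bm
  have := sqrt_minFac_pos n
  field_simp

lemma cs_q (c : ℕ → ℂ) (u : ℝ) (M q : ℕ) :
    (∑ n ∈ TT M, (if n.minFac ∣ q then tm c u n else 0)) ^ 2 ≤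
      (∑ n ∈ TT M, (if n.minFac ∣ q then Am u n else 0)) *
      (∑ n ∈ TT M, (if n.minFac ∣ q then Bm c u n else 0)) := by
  refine Finset.sum_sq_le_sum_mul_sum_of_sq_le_mul _ (fun i _ => ?_) (fun i _ => ?_)
    (fun i hi => ?_)
  · split_ifs
    · exact Am_nonneg u i
    · exact le_rfl
  · split_ifs
    · exact Bm_nonneg c u i
    · exact le_rfl
  · split_ifs
    · exact (tm_sq_eq c u (mem_TT.mp hi).2).le
    · simp

/-- the main inequality for truncated sums -/
lemma fin_main : ∃ C : ℝ, 0 < C ∧ ∀ (c : ℕ → ℂ) (u : ℝ) (M X Z : ℕ), 1 ≤ X → X ≤ Z →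
    ∑ q ∈ Finset.Ioc X Z, (1 / (q : ℝ)) *
      (∑ n ∈ Finset.range M, (if Nat.Coprime n q then 0 else tm c u n)) ^ 2 ≤
      C * (Real.log ((Z : ℝ) / X) + 1) * ∑ n ∈ TT M, wm c u n := by
  obtain ⟨C0, hC0, h0⟩ := gauss_prime
  obtain ⟨C1, hC1, h1⟩ := sum_A
  refine ⟨C0 + C1, by positivity, fun c u M X Z hX hXZ => ?_⟩
  set K : ℝ := Real.log ((Z : ℝ) / X) + 1 with hK
  have hX0 : (0 : ℝ) < X := by exact_mod_cast hX
  have hK0 : 0 ≤ K := by
    have : 0 ≤ Real.log ((Z : ℝ) / X) := by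
      apply Real.log_nonneg
      rw [le_div_iff₀ hX0, one_mul]
      exact_mod_cast hXZ
    linarith
  -- the inner sum over `m`
  have hin : ∀ n ∈ TT M, ∑ m ∈ TT M, Am u m *
      (if m.minFac = n.minFac then 1 / (n.minFac : ℝ) else 1 / ((m.minFac : ℝ) * n.minFac)) ≤
        (C0 + C1) / Real.sqrt n.minFac := by
    intro n hn
    have hnp := (mem_TT.mp hn).2
    have hp := minFac_prime_of_pp hnp
    have hp1 : (1 : ℝ) ≤ n.minFac := by exact_mod_cast hp.one_lt.le
    have hsq := sqrt_minFac_pos n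
    have hs1 : 1 ≤ Real.sqrt n.minFac := Real.one_le_sqrt.mpr hp1
    have hss : Real.sqrt n.minFac * Real.sqrt n.minFac = n.minFac :=
      Real.mul_self_sqrt (by linarith)
    have hsplit : ∑ m ∈ TT M, Am u m *
        (if m.minFac = n.minFac then 1 / (n.minFac : ℝ) else 1 / ((m.minFac : ℝ) * n.minFac)) ≤
        ∑ m ∈ TT M, (if m.minFac = n.minFac then Am u m / n.minFac else 0) +
        ∑ m ∈ TT M, Am u m / m.minFac * (1 / n.minFac) := by
      rw [← Finset.sum_add_distrib]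
      refine Finset.sum_le_sum (fun m hm => ?_)
      have hA := Am_nonneg u m
      have hm1 : (0 : ℝ) < m.minFac := by exact_mod_cast (Nat.minFac_pos m)
      split_ifs with h
      · have : 0 ≤ Am u m / m.minFac * (1 / n.minFac) := by positivity
        have h' : Am u m * (1 / (n.minFac : ℝ)) = Am u m / n.minFac := by ring
        rw [h']
        linarith
      · rw [zero_add]
        apply le_of_eq
        field_simp
    refine hsplit.trans ?_
    have hfirst : ∑ m ∈ TT M, (if m.minFac = n.minFac then Am u m / n.minFac else 0) ≤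
        C0 / Real.sqrt n.minFac := by
      rw [← Finset.sum_filter]
      have h2 := h0 u n.minFac hp.two_le ((TT M).filter (fun m => m.minFac = n.minFac))
        (fun m hm => ⟨(mem_TT.mp (Finset.mem_filter.mp hm).1).2, (Finset.mem_filter.mp hm).2⟩)
      have h3 : ∑ m ∈ (TT M).filter (fun m => m.minFac = n.minFac), Am u m / n.minFac =
          Real.log n.minFac / n.minFac / Real.sqrt n.minFac *
            ∑ m ∈ (TT M).filter (fun m => m.minFac = n.minFac),
              Real.exp (-(u - Real.log m) ^ 2 / 4) := by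
        rw [Finset.mul_sum]
        refine Finset.sum_congr rfl (fun m hm => ?_)
        unfold Am
        rw [(Finset.mem_filter.mp hm).2]
        ring
      rw [h3]
      have h4 : Real.log n.minFac / n.minFac ≤ 1 := by
        rw [div_le_one (by linarith)]
        exact (Real.log_le_sub_one_of_pos (by linarith)).trans (by linarith)
      have h5 : 0 ≤ Real.log n.minFac / n.minFac :=
        div_nonneg (log_minFac_nonneg n) (by linarith)
      have h6 : 0 ≤ ∑ m ∈ (TT M).filter (fun m => m.minFac = n.minFac),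
              Real.exp (-(u - Real.log m) ^ 2 / 4) :=
        Finset.sum_nonneg (fun _ _ => (Real.exp_pos _).le)
      calc Real.log n.minFac / n.minFac / Real.sqrt n.minFac *
            ∑ m ∈ (TT M).filter (fun m => m.minFac = n.minFac),
              Real.exp (-(u - Real.log m) ^ 2 / 4)
          ≤ 1 / Real.sqrt n.minFac * C0 := by
            apply mul_le_mul _ h2 h6 (by positivity)
            gcongr
        _ = _ := by ring
    have hsecond : ∑ m ∈ TT M, Am u m / m.minFac * (1 / n.minFac) ≤ C1 / Real.sqrt n.minFac := by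
      rw [← Finset.sum_mul]
      have h2 : ∑ m ∈ TT M, Am u m / m.minFac ≤ C1 := by
        refine le_trans (le_of_eq ?_) (h1 u M)
        refine Finset.sum_congr rfl (fun m _ => ?_)
        unfold Am
        have hm1 : (0 : ℝ) < m.minFac := by exact_mod_cast (Nat.minFac_pos m)
        have := sqrt_minFac_pos m
        field_simp
      have h3 : (1 : ℝ) / n.minFac ≤ 1 / Real.sqrt n.minFac := by
        apply one_div_le_one_div_of_le hsq
        nlinarith [hss, hs1]
      calc (∑ m ∈ TT M, Am u m / m.minFac) * (1 / (n.minFac : ℝ))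
          ≤ C1 * (1 / Real.sqrt n.minFac) := by
            apply mul_le_mul h2 h3 (by positivity) hC1.le
        _ = _ := by ring
    calc _ ≤ C0 / Real.sqrt n.minFac + C1 / Real.sqrt n.minFac := add_le_add hfirst hsecond
      _ = _ := by ring
  calc ∑ q ∈ Finset.Ioc X Z, (1 / (q : ℝ)) *
      (∑ n ∈ Finset.range M, (if Nat.Coprime n q then 0 else tm c u n)) ^ 2
      ≤ ∑ q ∈ Finset.Ioc X Z, (1 / (q : ℝ)) *
        ((∑ m ∈ TT M, (if m.minFac ∣ q then Am u m else 0)) *
        (∑ n ∈ TT M, (if n.minFac ∣ q then Bm c u n else 0))) := by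
        refine Finset.sum_le_sum (fun q _ => ?_)
        rw [fin_eq]
        exact mul_le_mul_of_nonneg_left (cs_q c u M q) (by positivity)
    _ = ∑ n ∈ TT M, ∑ m ∈ TT M, Am u m * Bm c u n *
          ∑ q ∈ Finset.Ioc X Z, (if m.minFac ∣ q ∧ n.minFac ∣ q then 1 / (q : ℝ) else 0) := by
        simp_rw [Finset.sum_mul_sum, Finset.mul_sum]
        rw [Finset.sum_comm]
        rw [show (∑ y ∈ TT M, ∑ x ∈ Finset.Ioc X Z, ∑ i ∈ TT M, 1 / (x : ℝ) *
          ((if y.minFac ∣ x then Am u y else 0) * (if i.minFac ∣ x then Bm c u i else 0))) =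
          ∑ y ∈ TT M, ∑ i ∈ TT M, ∑ x ∈ Finset.Ioc X Z, 1 / (x : ℝ) *
          ((if y.minFac ∣ x then Am u y else 0) * (if i.minFac ∣ x then Bm c u i else 0)) from
          Finset.sum_congr rfl (fun y _ => Finset.sum_comm)]
        rw [Finset.sum_comm]
        refine Finset.sum_congr rfl (fun n _ => Finset.sum_congr rfl (fun m _ =>
          Finset.sum_congr rfl (fun q _ => ?_)))
        by_cases a : m.minFac ∣ q <;> by_cases b : n.minFac ∣ q <;> simp [a, b]
        ring
    _ ≤ ∑ n ∈ TT M, ∑ m ∈ TT M, Am u m * Bm c u n * (K *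
          (if m.minFac = n.minFac then 1 / (n.minFac : ℝ) else
            1 / ((m.minFac : ℝ) * n.minFac))) := by
        refine Finset.sum_le_sum (fun n hn => Finset.sum_le_sum (fun m hm => ?_))
        refine mul_le_mul_of_nonneg_left ?_ (mul_nonneg (Am_nonneg u m) (Bm_nonneg c u n))
        have hpn := minFac_prime_of_pp (mem_TT.mp hn).2
        have hpm := minFac_prime_of_pp (mem_TT.mp hm).2
        split_ifs with h
        · have h2 := sum_inv_dvd X Z n.minFac hX hXZ hpn.one_lt.le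
          rw [Finset.sum_filter] at h2
          refine le_trans (le_of_eq ?_) (h2.trans (le_of_eq ?_))
          · refine Finset.sum_congr rfl (fun q _ => ?_)
            rw [h]; simp
          · rw [hK]; ring
        · have hcop : Nat.Coprime m.minFac n.minFac := (Nat.coprime_primes hpm hpn).mpr h
          have h2 := sum_inv_dvd X Z (m.minFac * n.minFac) hX hXZ
            (Nat.mul_pos hpm.pos hpn.pos)
          rw [Finset.sum_filter] at h2
          refine le_trans (le_of_eq ?_) (h2.trans (le_of_eq ?_))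
          · refine Finset.sum_congr rfl (fun q _ => ?_)
            have : (m.minFac ∣ q ∧ n.minFac ∣ q) ↔ m.minFac * n.minFac ∣ q :=
              ⟨fun h => hcop.mul_dvd_of_dvd_of_dvd h.1 h.2,
                fun h => ⟨dvd_of_mul_right_dvd h, dvd_of_mul_left_dvd h⟩⟩
            simp only [this]
          · rw [hK]; push_cast; ring
    _ = ∑ n ∈ TT M, K * Bm c u n * ∑ m ∈ TT M, Am u m *
          (if m.minFac = n.minFac then 1 / (n.minFac : ℝ) else
            1 / ((m.minFac : ℝ) * n.minFac)) := by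
        refine Finset.sum_congr rfl (fun n _ => ?_)
        rw [Finset.mul_sum]
        exact Finset.sum_congr rfl (fun m _ => by ring)
    _ ≤ ∑ n ∈ TT M, K * Bm c u n * ((C0 + C1) / Real.sqrt n.minFac) := by
        refine Finset.sum_le_sum (fun n hn => ?_)
        exact mul_le_mul_of_nonneg_left (hin n hn) (mul_nonneg hK0 (Bm_nonneg c u n))
    _ = (C0 + C1) * K * ∑ n ∈ TT M, wm c u n := by
        rw [Finset.mul_sum]
        refine Finset.sum_congr rfl (fun n _ => ?_)
        unfold Bm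
        have := sqrt_minFac_pos n
        field_simp

/-! ## consequences of `SelE` -/

lemma log_le_nat (n : ℕ) : Real.log n ≤ n := by
  rcases Nat.eq_zero_or_pos n with rfl | h
  · simp
  · have h0 : (0 : ℝ) < n := by exact_mod_cast h
    exact (Real.log_le_sub_one_of_pos h0).trans (by linarith)

lemma log_nat_nonneg (n : ℕ) : 0 ≤ Real.log n := Real.log_natCast_nonneg n

/-- pointwise bound `Λ(n) |c(n)|² / n ≤ C (1 + log n)` -/
lemma sel_point (c : ℕ → ℂ) (h : W388.SelE c) : ∃ C : ℝ, 0 < C ∧ ∀ n : ℕ,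
    ArithmeticFunction.vonMangoldt n * ‖c n‖ ^ 2 / n ≤ C * (1 + Real.log n) := by
  unfold W388.SelE at h
  have h1 : ∀ᶠ x : ℝ in atTop,
      (∑ n ∈ Finset.Icc 1 ⌊x⌋₊, ArithmeticFunction.vonMangoldt n * ‖c n‖ ^ 2 / n) / Real.log x < 2 :=
    h.eventually_lt_const (by norm_num)
  obtain ⟨x0, hx0⟩ := (h1.and (eventually_ge_atTop (2 : ℝ))).exists_forall_of_atTop
  set N0 : ℕ := ⌈x0⌉₊ with hN0
  set D : ℝ := ∑ n ∈ Finset.range (N0 + 1), ArithmeticFunction.vonMangoldt n * ‖c n‖ ^ 2 / n with hD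
  have hnn : ∀ n : ℕ, 0 ≤ ArithmeticFunction.vonMangoldt n * ‖c n‖ ^ 2 / n := fun n =>
    div_nonneg (mul_nonneg ArithmeticFunction.vonMangoldt_nonneg (by positivity)) (by positivity)
  have hD0 : 0 ≤ D := Finset.sum_nonneg (fun n _ => hnn n)
  refine ⟨2 + D, by positivity, fun n => ?_⟩
  have hl := log_nat_nonneg n
  rcases lt_or_ge N0 n with hn | hn
  · have hx : x0 ≤ (n : ℝ) := (Nat.le_ceil x0).trans (by exact_mod_cast hn.le)
    obtain ⟨h2, h3⟩ := hx0 n hx
    have hlog : 0 < Real.log n := Real.log_pos (by linarith)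
    rw [div_lt_iff₀ hlog, Nat.floor_natCast] at h2
    have hn1 : 1 ≤ n := by
      have : (2 : ℝ) ≤ n := h3
      exact_mod_cast (by linarith : (1 : ℝ) ≤ n)
    have h4 : ArithmeticFunction.vonMangoldt n * ‖c n‖ ^ 2 / n ≤ ∑ n ∈ Finset.Icc 1 n, ArithmeticFunction.vonMangoldt n * ‖c n‖ ^ 2 / n :=
      Finset.single_le_sum (f := fun n : ℕ => ArithmeticFunction.vonMangoldt n * ‖c n‖ ^ 2 / n) (fun i _ => hnn i)
        (Finset.mem_Icc.mpr ⟨hn1, le_rfl⟩)
    nlinarith
  · have h4 : ArithmeticFunction.vonMangoldt n * ‖c n‖ ^ 2 / n ≤ D :=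
      Finset.single_le_sum (f := fun n : ℕ => ArithmeticFunction.vonMangoldt n * ‖c n‖ ^ 2 / n) (fun i _ => hnn i)
        (Finset.mem_range.mpr (by omega))
    nlinarith

/-- pointwise bound for the terms -/
lemma tm_point (c : ℕ → ℂ) (h : W388.SelE c) : ∃ C : ℝ, 0 < C ∧ ∀ (u : ℝ) (n : ℕ),
    tm c u n ≤ C * (1 + Real.log n) * Real.exp (-(u - Real.log n) ^ 2 / 4) := by
  obtain ⟨C, hC, h1⟩ := sel_point c h
  refine ⟨Real.sqrt C, Real.sqrt_pos.mpr hC, fun u n => ?_⟩
  unfold tm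
  refine mul_le_mul_of_nonneg_right ?_ (Real.exp_pos _).le
  have hl := log_nat_nonneg n
  have h2 : ArithmeticFunction.vonMangoldt n * ‖c n‖ / Real.sqrt n ≤ Real.sqrt (C * (1 + Real.log n) ^ 2) := by
    apply Real.le_sqrt_of_sq_le
    rw [div_pow, Real.sq_sqrt (Nat.cast_nonneg n), mul_pow]
    have h3 : ArithmeticFunction.vonMangoldt n ≤ 1 + Real.log n := by
      have := ArithmeticFunction.vonMangoldt_le_log (n := n)
      linarith
    calc ArithmeticFunction.vonMangoldt n ^ 2 * ‖c n‖ ^ 2 / n = ArithmeticFunction.vonMangoldt n * (ArithmeticFunction.vonMangoldt n * ‖c n‖ ^ 2 / n) := by ring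
      _ ≤ (1 + Real.log n) * (C * (1 + Real.log n)) := by
        apply mul_le_mul h3 (h1 n) _ (by linarith)
        exact div_nonneg (mul_nonneg ArithmeticFunction.vonMangoldt_nonneg (by positivity))
          (by positivity)
      _ = _ := by ring
  refine h2.trans (le_of_eq ?_)
  rw [Real.sqrt_mul hC.le, Real.sqrt_sq (by linarith)]

/-- Gaussian beats every power -/
lemma gauss_pow (u x : ℝ) : Real.exp (-(u - x) ^ 2 / 4) ≤ Real.exp (3 * |u| + 9) * Real.exp (-3 * x) := by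
  rw [← Real.exp_add]
  apply Real.exp_le_exp.mpr
  have h1 : 0 ≤ (x - u - 6) ^ 2 := sq_nonneg _
  have h2 : u ≤ |u| := le_abs_self u
  nlinarith

lemma exp_neg_log {n : ℕ} (hn : n ≠ 0) (k : ℕ) :
    Real.exp (-(k : ℝ) * Real.log n) = 1 / (n : ℝ) ^ k := by
  have h0 : (0 : ℝ) < n := by positivity
  rw [neg_mul, Real.exp_neg, ← Real.log_pow, Real.exp_log (by positivity), one_div]

lemma tm_summable (c : ℕ → ℂ) (h : W388.SelE c) (u : ℝ) : Summable (tm c u) := by
  obtain ⟨C, hC, h1⟩ := tm_point c h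
  have hs : Summable (fun n : ℕ => C * 2 * Real.exp (3 * |u| + 9) * (1 / (n : ℝ) ^ 2)) :=
    (Real.summable_one_div_nat_pow.mpr (by norm_num)).mul_left _
  refine Summable.of_nonneg_of_le (tm_nonneg c u) (fun n => ?_) hs
  rcases Nat.eq_zero_or_pos n with rfl | hn
  · simp [tm]
  · have hn0 : (0 : ℝ) < n := by exact_mod_cast hn
    have hn1 : (1 : ℝ) ≤ n := by exact_mod_cast hn
    have h2 := gauss_pow u (Real.log n)
    have h3 := exp_neg_log (n := n) (by omega) 3
    push_cast at h3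
    rw [h3] at h2
    have h4 : 1 + Real.log n ≤ 2 * n := by
      have := log_le_nat n
      linarith
    calc tm c u n ≤ C * (1 + Real.log n) * Real.exp (-(u - Real.log n) ^ 2 / 4) := h1 u n
      _ ≤ C * (2 * n) * (Real.exp (3 * |u| + 9) * (1 / (n : ℝ) ^ 3)) := by
        apply mul_le_mul (mul_le_mul_of_nonneg_left h4 hC.le) h2 (Real.exp_pos _).le
          (by positivity)
      _ = _ := by field_simp

lemma wm_summable (c : ℕ → ℂ) (h : W388.SelE c) (u : ℝ) : Summable (wm c u) := by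
  obtain ⟨C, hC, h1⟩ := sel_point c h
  have hs : Summable (fun n : ℕ => C * 2 * Real.exp (3 * |u| + 9) * (1 / (n : ℝ) ^ 2)) :=
    (Real.summable_one_div_nat_pow.mpr (by norm_num)).mul_left _
  refine Summable.of_nonneg_of_le (wm_nonneg c u) (fun n => ?_) hs
  rcases Nat.eq_zero_or_pos n with rfl | hn
  · simp [wm]
  · have hn0 : (0 : ℝ) < n := by exact_mod_cast hn
    have hn1 : (1 : ℝ) ≤ n := by exact_mod_cast hn
    have h2 := gauss_pow u (Real.log n)
    have h3 := exp_neg_log (n := n) (by omega) 3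
    push_cast at h3
    rw [h3] at h2
    have h4 : 1 + Real.log n ≤ 2 * n := by
      have := log_le_nat n
      linarith
    calc wm c u n ≤ C * (1 + Real.log n) * Real.exp (-(u - Real.log n) ^ 2 / 4) :=
          mul_le_mul_of_nonneg_right (h1 n) (Real.exp_pos _).le
      _ ≤ C * (2 * n) * (Real.exp (3 * |u| + 9) * (1 / (n : ℝ) ^ 3)) := by
        apply mul_le_mul (mul_le_mul_of_nonneg_left h4 hC.le) h2 (Real.exp_pos _).le
          (by positivity)
      _ = _ := by field_simp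

lemma wu_eq (c : ℕ → ℂ) (u : ℝ) : W388.Wu c u = ∑' n : ℕ, wm c u n := rfl

lemma gq_tendsto (c : ℕ → ℂ) (h : W388.SelE c) (u : ℝ) (q : ℕ) :
    Tendsto (fun M : ℕ => ∑ n ∈ Finset.range M, (if Nat.Coprime n q then 0 else tm c u n)) atTop
      (𝓝 (W388.Gqc c q u)) := by
  have hs : Summable (fun n : ℕ => if Nat.Coprime n q then 0 else tm c u n) := by
    refine Summable.of_nonneg_of_le (fun n => ?_) (fun n => ?_) (tm_summable c h u)
    · split_ifs
      · exact le_rfl
      · exact tm_nonneg c u n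
    · split_ifs
      · exact tm_nonneg c u n
      · exact le_rfl
  exact hs.hasSum.tendsto_sum_nat

lemma tt_le_wu (c : ℕ → ℂ) (h : W388.SelE c) (u : ℝ) (M : ℕ) :
    ∑ n ∈ TT M, wm c u n ≤ W388.Wu c u := by
  rw [wu_eq]
  exact (wm_summable c h u).sum_le_tsum _ (fun n _ => wm_nonneg c u n)

lemma wu_nonneg (c : ℕ → ℂ) (u : ℝ) : 0 ≤ W388.Wu c u := by
  rw [wu_eq]
  exact tsum_nonneg (wm_nonneg c u)

lemma part_Z : ∃ C : ℝ, 0 < C ∧ ∀ (c : ℕ → ℂ), W388.SelE c → ∀ X Z : ℕ, 1 ≤ X → X ≤ Z →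
    ∀ u : ℝ, ∑ q ∈ Finset.Ioc X Z, (1 / (q : ℝ)) * W388.Gqc c q u ^ 2 ≤
      C * (Real.log ((Z : ℝ) / X) + 1) * W388.Wu c u := by
  obtain ⟨C, hC, h1⟩ := fin_main
  refine ⟨C, hC, fun c h X Z hX hXZ u => ?_⟩
  have hX0 : (0 : ℝ) < X := by exact_mod_cast hX
  have hK0 : 0 ≤ Real.log ((Z : ℝ) / X) + 1 := by
    have a1 : 0 ≤ Real.log ((Z : ℝ) / X) := by
      apply Real.log_nonneg
      rw [le_div_iff₀ hX0, one_mul]
      exact_mod_cast hXZ
    linarith
  have ht : Tendsto (fun M : ℕ => ∑ q ∈ Finset.Ioc X Z, (1 / (q : ℝ)) *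
      (∑ n ∈ Finset.range M, (if Nat.Coprime n q then 0 else tm c u n)) ^ 2) atTop
      (𝓝 (∑ q ∈ Finset.Ioc X Z, (1 / (q : ℝ)) * W388.Gqc c q u ^ 2)) :=
    tendsto_finsetSum _ (fun q _ => ((gq_tendsto c h u q).pow 2).const_mul _)
  refine le_of_tendsto' ht (fun M => ?_)
  refine (h1 c u M X Z hX hXZ).trans ?_
  exact mul_le_mul_of_nonneg_left (tt_le_wu c h u M) (mul_nonneg hC.le hK0)

theorem part_two (c : ℕ → ℂ) (h : W388.SelE c) :
    ∃ C : ℝ, 0 < C ∧ ∀ X Y P : ℕ, 1 ≤ X → X ≤ Y → 1 ≤ P → ∀ u : ℝ,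
    ∑ q ∈ Finset.Ioc X (P * Y), (1 / (q : ℝ)) * W388.Gqc c q u ^ 2 ≤
      C * (Real.log ((Y : ℝ) / X) + Real.log P + 1) * W388.Wu c u := by
  obtain ⟨C, hC, h1⟩ := part_Z
  refine ⟨C, hC, fun X Y P hX hXY hP u => ?_⟩
  have hX0 : (0 : ℝ) < X := by exact_mod_cast hX
  have hY0 : (0 : ℝ) < Y := by exact_mod_cast (show 0 < Y by omega)
  have hP0 : (0 : ℝ) < P := by exact_mod_cast hP
  have hXZ : X ≤ P * Y := by nlinarith
  have hlog : Real.log (((P * Y : ℕ) : ℝ) / X) = Real.log ((Y : ℝ) / X) + Real.log P := by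
    rw [← Real.log_mul (by positivity) (by positivity)]
    congr 1
    push_cast
    ring
  have h2 := h1 c h X (P * Y) hX hXZ u
  rwa [hlog] at h2

theorem part_three (c : ℕ → ℂ) (h : W388.SelE c) :
    ∀ P : ℕ, 1 ≤ P → ∃ C : ℝ, 0 < C ∧ ∀ u : ℝ, W388.Gqc c P u ^ 2 ≤ C * W388.Wu c u := by
  intro P hP
  obtain ⟨C, hC, h1⟩ := part_Z
  rcases Nat.lt_or_ge P 2 with h2 | h2
  · have hP1 : P = 1 := by omega
    refine ⟨1, one_pos, fun u => ?_⟩
    have h3 : W388.Gqc c P u = 0 := by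
      unfold W388.Gqc
      rw [hP1]
      simp
    rw [h3]
    have := wu_nonneg c u
    nlinarith
  · have hP0 : (0 : ℝ) < P := by exact_mod_cast (show 0 < P by omega)
    have hQ0 : (0 : ℝ) < ((P - 1 : ℕ) : ℝ) := by exact_mod_cast (show 0 < P - 1 by omega)
    have hlog : 0 ≤ Real.log ((P : ℝ) / ((P - 1 : ℕ) : ℝ)) := by
      apply Real.log_nonneg
      rw [le_div_iff₀ hQ0, one_mul]
      exact_mod_cast (show P - 1 ≤ P by omega)
    refine ⟨P * (C * (Real.log ((P : ℝ) / ((P - 1 : ℕ) : ℝ)) + 1)), by positivity, fun u => ?_⟩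
    have h3 := h1 c h (P - 1) P (by omega) (by omega) u
    have h4 : Finset.Ioc (P - 1) P = {P} := by
      ext x
      simp only [Finset.mem_Ioc, Finset.mem_singleton]
      omega
    rw [h4, Finset.sum_singleton] at h3
    calc W388.Gqc c P u ^ 2 = P * (1 / (P : ℝ) * W388.Gqc c P u ^ 2) := by field_simp
      _ ≤ P * (C * (Real.log ((P : ℝ) / ((P - 1 : ℕ) : ℝ)) + 1) * W388.Wu c u) :=
        mul_le_mul_of_nonneg_left h3 hP0.le
      _ = _ := by ring

theorem part_four (c : ℕ → ℂ) (h : W388.SelE c) :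
    ∀ β ε1 : ℝ, 0 < β → β < 2 → 0 < ε1 → ∀ᶠ L : ℝ in atTop, ∀ (X : ℕ) (u : ℝ),
    Real.log X = L → 0 ≤ u → u ≤ β * L → W388.Tlc c ⌊ε1 / 8 * (X : ℝ) ^ 2⌋₊ u ≤ 1 := by
  intro β ε1 hβ hβ2 hε1
  obtain ⟨C, hC, h1⟩ := tm_point c h
  set δ : ℝ := 1 - β / 2 with hδ
  have hδ0 : 0 < δ := by rw [hδ]; linarith
  set C2 : ℝ := |Real.log (ε1 / 8)| with hC2
  have hC20 : 0 ≤ C2 := abs_nonneg _
  have hs : Summable (fun n : ℕ => 1 / (n : ℝ) ^ 2) :=
    Real.summable_one_div_nat_pow.mpr (by norm_num)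
  set S : ℝ := ∑' n : ℕ, 1 / (n : ℝ) ^ 2 with hS
  have hlim : Tendsto (fun L : ℝ => 2 * C * S * Real.exp (-L)) atTop (𝓝 (2 * C * S * 0)) :=
    (Real.tendsto_exp_neg_atTop_nhds_zero).const_mul _
  rw [mul_zero] at hlim
  filter_upwards [eventually_ge_atTop (1 : ℝ), eventually_ge_atTop C2,
    eventually_ge_atTop (2 * C2 / δ), eventually_ge_atTop (64 / δ ^ 2),
    hlim.eventually_le_const (show (0 : ℝ) < 1 by norm_num)] with L a1 a2 a3 a4 a5
  intro X u hX hu hu2
  have hXpos : (0 : ℝ) < X := by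
    rcases Nat.eq_zero_or_pos X with h | h
    · rw [h] at hX; simp at hX; linarith
    · exact_mod_cast h
  have hterm : ∀ n : ℕ, (if ⌊ε1 / 8 * (X : ℝ) ^ 2⌋₊ < n then tm c u n else 0) ≤
      2 * C * Real.exp (-L) * (1 / (n : ℝ) ^ 2) := by
    intro n
    split_ifs with hn
    · have hn1 : 1 ≤ n := by omega
      have hn0 : (0 : ℝ) < n := by exact_mod_cast hn1
      have hnX : ε1 / 8 * (X : ℝ) ^ 2 ≤ n := by
        have h2 := Nat.lt_floor_add_one (ε1 / 8 * (X : ℝ) ^ 2)
        have h3 : ((⌊ε1 / 8 * (X : ℝ) ^ 2⌋₊ : ℕ) : ℝ) + 1 ≤ n := by exact_mod_cast hn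
        linarith
      have hlog : 2 * L - C2 ≤ Real.log n := by
        have h2 := Real.log_le_log (by positivity) hnX
        rw [Real.log_mul (by positivity) (by positivity), Real.log_pow, hX] at h2
        have h3 := neg_abs_le (Real.log (ε1 / 8))
        push_cast at h2
        rw [hC2]
        linarith
      set ρ : ℝ := Real.log n with hρ
      have hρL : L ≤ ρ := by linarith
      have h5 : (δ / 2) * ρ ≤ ρ - u := by
        have h6 : ρ - β * L ≥ δ * ρ - C2 := by
          have : β * L ≤ (β / 2) * (ρ + C2) := by nlinarith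
          have h7 : (β / 2) * C2 ≤ C2 := by nlinarith
          rw [hδ]
          nlinarith
        have h8 : 2 * C2 ≤ δ * ρ := by
          have := (div_le_iff₀ hδ0).mp (a3.trans hρL)
          linarith
        linarith
      have h9 : 4 * ρ ≤ (u - ρ) ^ 2 / 4 := by
        have h10 : 64 ≤ δ ^ 2 * ρ := by
          have := (div_le_iff₀ (by positivity : (0 : ℝ) < δ ^ 2)).mp (a4.trans hρL)
          linarith
        have h11 : 0 ≤ (δ / 2) * ρ := by
          have : 0 ≤ ρ := by linarith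
          positivity
        have h12 : ((δ / 2) * ρ) ^ 2 ≤ (u - ρ) ^ 2 := by
          rw [← neg_sq (u - ρ)]
          apply pow_le_pow_left₀ h11
          linarith
        nlinarith
      have h13 : Real.exp (-(u - ρ) ^ 2 / 4) ≤ Real.exp (-L) * (1 / (n : ℝ) ^ 3) := by
        have h14 := exp_neg_log (n := n) (by omega) 3
        push_cast at h14
        rw [← h14, ← Real.exp_add]
        apply Real.exp_le_exp.mpr
        linarith
      have h15 : 1 + ρ ≤ 2 * n := by
        have := log_le_nat n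
        have h16 : (1 : ℝ) ≤ n := by exact_mod_cast hn1
        linarith
      calc tm c u n ≤ C * (1 + ρ) * Real.exp (-(u - ρ) ^ 2 / 4) := h1 u n
        _ ≤ C * (2 * n) * (Real.exp (-L) * (1 / (n : ℝ) ^ 3)) := by
          apply mul_le_mul (mul_le_mul_of_nonneg_left h15 hC.le) h13 (Real.exp_pos _).le
            (by positivity)
        _ = _ := by field_simp
    · positivity
  have hnn : ∀ n : ℕ, 0 ≤ (if ⌊ε1 / 8 * (X : ℝ) ^ 2⌋₊ < n then tm c u n else 0) := by
    intro n
    split_ifs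
    · exact tm_nonneg c u n
    · exact le_rfl
  have hs2 : Summable (fun n : ℕ => 2 * C * Real.exp (-L) * (1 / (n : ℝ) ^ 2)) := hs.mul_left _
  have hfin : W388.Tlc c ⌊ε1 / 8 * (X : ℝ) ^ 2⌋₊ u ≤
      ∑' n : ℕ, 2 * C * Real.exp (-L) * (1 / (n : ℝ) ^ 2) := by
    unfold W388.Tlc
    exact Summable.tsum_le_tsum hterm (Summable.of_nonneg_of_le hnn hterm hs2) hs2
  rw [tsum_mul_left] at hfin
  refine hfin.trans ?_
  refine le_trans (le_of_eq ?_) a5
  ring

/-- T2b -/
theorem t_noncop : W388.StNonCop :=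
  fun c h => ⟨fun u => tm_summable c h u, part_two c h, part_three c h, part_four c h⟩

end W388.XNonCop
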