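import Pool.Agent.W388.TW.Good
import Pool.Agent.W388.TW.FinEA
import Pool.Agent.W388.TW.MeanE3
import Pool.Agent.W482.TW.Id
import Pool.Agent.W482.TW.Id2
import Pool.Agent.W688.TW.Kara
import Pool.Agent.W688.TW.Sel
import Pool.Agent.W388.TW.XDir
import Pool.Agent.W108.TW.Mellin
import Pool.Agent.W361.TW.Nzr
import Pool.Agent.W820.TW.FE
import Pool.Agent.W440.TW.Twist
import Pool.Agent.W54.TW.Unfold
import Pool.Agent.W54.TW.EisPairs
import Pool.Agent.W409.TW.EisLim
import Pool.Agent.W749.TW.EisBd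
import Pool.Agent.W375.TW.Cusp
import Pool.Agent.W388.TW.XPars
import Pool.Agent.W438.TW.RS4
import Pool.Agent.W388.TW.XNonCop
import Pool.Agent.W261.TW.Smooth

/-! All parts of the GL(2) twist project together (owner helper388; parts by helper482, 688, 108,
361, 820, 440, 54, 409, 749, 375, 4, 438, 566, 261). -/

set_option autoImplicit false

open UpperHalfPlane MatrixGroups CongruenceSubgroup

namespace W388

theorem p_sel : StSel := W688.TW.t_sel Pool.Agent.W482.TW.t_id2 W688.TW.t_kara
theorem p_dir : StDir := W388.XDir.t_dir Pool.Agent.W482.TW.t_id1 p_sel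
theorem p_nzr : StNzr := W361TW.Nzr.t_nzr Pool.Agent.W482.TW.t_id1 p_sel p_dir
theorem p_rs : StRS := Pool.Agent.W438.TW.t_rs W54.TW.t_unfold W54.TW.t_eispairs
  Pool.Agent.W409.TW.t_eislim Pool.Agent.W749.TW.t_eisbd t_cusp W388.XPars.t_pars
theorem p_mean : StMean := t_mean Pool.Agent.W261.TW.t_smooth W388.XNonCop.t_noncop
theorem p_core : StCore := t_core

end W388
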