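import Pool.Agent.W388.TW.Parts
import Pool.Agent.H385R2.WinE

/-! The main theorem of the GL(2) twist project (owner helper388). -/

set_option autoImplicit false
set_option maxHeartbeats 4000000

open Complex Filter Topology Set MeasureTheory UpperHalfPlane MatrixGroups CongruenceSubgroup

namespace W388

open H385
open H370 (zset mult NN Nd Ns)

/-- the family theorem for twists of an `L`-function of degree `d`, given a numerical bound for the
constant -/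
theorem final_of_const_E (d A : ℝ) (hd : 1 ≤ d) (hA : 1 ≤ A) (M : ℕ) (hM : Squarefree M)
    (c : ℕ → ℂ) (F : (q : ℕ) → DirichletCharacter ℂ q → ℂ → ℂ) (hF : TwE d A M c F)
    (hS : SelE c) (γ κ : ℝ) (h0 : 0 < γ) (hπ : γ < Real.pi)
    (hκ : d / 2 * Rw γ 0 + 4 / d * (∫ α in (0 : ℝ)..1, α * Rw γ α) < κ) :
    ∃ K η X0 : ℝ, 1 ≤ K ∧ 0 < η ∧ 1 ≤ X0 ∧
    ∀ (X Y : ℕ) (T : ℝ), X0 ≤ X → K * X ≤ Y → (Y : ℝ) ≤ (X : ℝ) ^ (1 + η) →
      (Real.log X) ^ 2 ≤ T → T ≤ (X : ℝ) ^ η →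
      (2 - κ) * primFamM M X Y (fun q χ => (NN (F q χ) T (2 * T) : ℝ)) ≤
        primFamM M X Y (fun q χ => (Ns (F q χ) T (2 * T) : ℝ)) ∧
      (3 - κ) / 2 * primFamM M X Y (fun q χ => (NN (F q χ) T (2 * T) : ℝ)) ≤
        primFamM M X Y (fun q χ => (Nd (F q χ) T (2 * T) : ℝ)) := by
  have hd0 : 0 < d := by linarith
  set R0 : ℝ := Rw γ 0 with hR0
  have hR0n : 0 ≤ R0 := Rw_nonneg γ h0 hπ 0
  set J : ℝ := ∫ α in (0 : ℝ)..1, α * Rw γ α with hJ
  have hJn : 0 ≤ J := I1_nonneg γ h0 hπ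
  set e : ℝ := κ - (d / 2 * R0 + 4 / d * J) with he
  have he0 : 0 < e := by rw [he]; linarith
  -- choose β
  set s : ℝ := min (1 / 2) (e / (d * R0 + 1)) with hs
  have hs0 : 0 < s := by positivity
  have hs1 : s ≤ 1 / 2 := min_le_left _ _
  have hs2 : d * R0 * s ≤ e := by
    have h1 : s ≤ e / (d * R0 + 1) := min_le_right _ _
    calc d * R0 * s ≤ d * R0 * (e / (d * R0 + 1)) := mul_le_mul_of_nonneg_left h1 (by positivity)
      _ = e * (d * R0 / (d * R0 + 1)) := by ring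
      _ ≤ e * 1 := by
        refine mul_le_mul_of_nonneg_left ?_ he0.le
        rw [div_le_one (by positivity)]; linarith
      _ = e := mul_one e
  set β : ℝ := 2 - s with hβ
  have hβ1 : 1 < β := by rw [hβ]; linarith
  have hβ2 : β < 2 := by rw [hβ]; linarith
  have hβ0 : 0 < β := by linarith
  have e2 : d * R0 / β ≤ d / 2 * R0 + e / 2 := by
    have : d * R0 / β = d / 2 * R0 + d * R0 * s / (2 * β) := by
      rw [hβ]
      have : (2 - s) ≠ 0 := by linarith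
      field_simp
      ring
    rw [this]
    have h3 : d * R0 * s / (2 * β) ≤ e / 2 := by
      rw [div_le_div_iff₀ (by positivity) (by norm_num)]
      nlinarith [mul_nonneg (mul_nonneg hd0.le hR0n) hs0.le]
    linarith
  have hcp : 0 ≤ 2 * β * J := by positivity
  obtain ⟨K, η, X0, hK, hη, hX0, h⟩ := p_core d A hd hA M c F hF γ β _ h0 hπ hβ0 hcp hR0n
    (p_mean M hM c hS γ β h0 hπ hβ0 hβ2) (e / 2) (by positivity)
  refine ⟨K, η, X0, hK, hη, hX0, ?_⟩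
  intro X Y T a1 a2 a3 a4 a5
  obtain ⟨b1, b2⟩ := h X Y T a1 a2 a3 a4 a5
  have hN : 0 ≤ primFamM M X Y (fun q χ => (NN (F q χ) T (2 * T) : ℝ)) :=
    primFamM_nonneg _ _ _ _ (fun _ _ => Nat.cast_nonneg _)
  have hJ2 : 2 * β * J / d ≤ 4 / d * J := by
    calc 2 * β * J / d ≤ 2 * 2 * J / d := by gcongr
      _ = _ := by ring
  have hcc : d * R0 / β + 2 * β * J / d + e / 2 ≤ κ := by
    have : d / 2 * R0 + 4 / d * J + e = κ := by rw [he]; ring
    linarith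
  have hcc' := mul_le_mul_of_nonneg_right hcc hN
  have l1 := primFamM_lin M X Y 2 1 (fun q χ => (NN (F q χ) T (2 * T) : ℝ))
    (fun q χ => (Ns (F q χ) T (2 * T) : ℝ))
  have l2 := primFamM_lin M X Y 3 2 (fun q χ => (NN (F q χ) T (2 * T) : ℝ))
    (fun q χ => (Nd (F q χ) T (2 * T) : ℝ))
  simp only [one_mul] at l1
  rw [l1] at b1
  rw [l2] at b2
  constructor
  · linarith
  · linarith

/-- degree 2 : 67.25% -/
theorem final_deg2_E (A : ℝ) (hA : 1 ≤ A) (M : ℕ) (hM : Squarefree M)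
    (c : ℕ → ℂ) (F : (q : ℕ) → DirichletCharacter ℂ q → ℂ → ℂ) (hF : TwE 2 A M c F)
    (hS : SelE c) :
    ∃ K η X0 : ℝ, 1 ≤ K ∧ 0 < η ∧ 1 ≤ X0 ∧
    ∀ (X Y : ℕ) (T : ℝ), X0 ≤ X → K * X ≤ Y → (Y : ℝ) ≤ (X : ℝ) ^ (1 + η) →
      (Real.log X) ^ 2 ≤ T → T ≤ (X : ℝ) ^ η →
      0.6725 * primFamM M X Y (fun q χ => (NN (F q χ) T (2 * T) : ℝ)) ≤
        primFamM M X Y (fun q χ => (Ns (F q χ) T (2 * T) : ℝ)) ∧
      0.83625 * primFamM M X Y (fun q χ => (NN (F q χ) T (2 * T) : ℝ)) ≤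
        primFamM M X Y (fun q χ => (Nd (F q χ) T (2 * T) : ℝ)) := by
  obtain ⟨K, η, X0, hK, hη, hX0, h⟩ := final_of_const_E 2 A (by norm_num) hA M hM c F hF hS
    1.414 1.3275 (by norm_num) (by linarith [Real.pi_gt_three])
    (by have := Rw_const_d2; norm_num at this ⊢; exact this)
  refine ⟨K, η, X0, hK, hη, hX0, ?_⟩
  intro X Y T a1 a2 a3 a4 a5
  obtain ⟨b1, b2⟩ := h X Y T a1 a2 a3 a4 a5
  norm_num at b1 b2 ⊢
  exact ⟨b1, b2⟩

/-! ### the radical -/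

/-- the radical of `N` -/
def rad (N : ℕ) : ℕ := ∏ p ∈ N.primeFactors, p

theorem rad_squarefree (N : ℕ) : Squarefree (rad N) := by
  unfold rad
  refine Finset.squarefree_prod_of_pairwise_isCoprime ?_ ?_
  · intro p hp q hq hpq
    have h1 := Nat.prime_of_mem_primeFactors hp
    have h2 := Nat.prime_of_mem_primeFactors hq
    show IsRelPrime p q
    rw [← Nat.coprime_iff_isRelPrime]
    exact (Nat.coprime_primes h1 h2).mpr hpq
  · intro p hp
    exact (Nat.prime_of_mem_primeFactors hp).squarefree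

theorem coprime_rad {N : ℕ} (hN : N ≠ 0) (q : ℕ) : Nat.Coprime q (rad N) ↔ Nat.Coprime q N := by
  constructor
  · intro h
    rw [Nat.coprime_comm] at h ⊢
    refine Nat.Coprime.symm (Nat.Coprime.symm ?_)
    refine Nat.coprime_of_dvd fun p hp h1 h2 => ?_
    have h3 : p ∣ rad N := by
      unfold rad
      exact Finset.dvd_prod_of_mem _ (Nat.mem_primeFactors.mpr ⟨hp, h1, hN⟩)
    exact Nat.Prime.one_lt hp |>.ne' (Nat.Coprime.eq_one_of_dvd (Nat.Coprime.coprime_dvd_left h3 h) h2)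
  · intro h
    unfold rad
    refine Nat.Coprime.prod_right fun p hp => ?_
    exact Nat.Coprime.coprime_dvd_right (Nat.dvd_of_mem_primeFactors hp) h

theorem primFamM_rad {N : ℕ} (hN : N ≠ 0) (X Y : ℕ)
    (f : (q : ℕ) → DirichletCharacter ℂ q → ℝ) : primFamM (rad N) X Y f = primFamM N X Y f := by
  unfold primFamM
  congr 1
  ext q
  simp only [Finset.mem_filter, coprime_rad hN]

/-- **Main theorem**, analytic normalisation. -/
theorem newf_final {N : ℕ} [NeZero N] {k : ℤ} (hk : 1 ≤ k)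
    {f : CuspForm (Gamma0 N : Subgroup (GL (Fin 2) ℝ)) k} {ε : ℝ} (hf : IsNewf N k f ε) :
    ∃ F : (q : ℕ) → DirichletCharacter ℂ q → ℂ → ℂ,
      (∀ (q : ℕ) (χ : DirichletCharacter ℂ q), 1 ≤ q → Nat.Coprime q N → χ.IsPrimitive →
        Differentiable ℂ (F q χ) ∧ ∀ s : ℂ, 1 < s.re →
          HasProd (fun p : Nat.Primes =>
            (1 - χ ((p : ℕ) : ZMod q) * (lamf f p : ℂ) * ((p : ℕ) : ℂ) ^ (-s) +
              (if (p : ℕ) ∣ N then 0 else
                χ ((p : ℕ) : ZMod q) ^ 2 * ((p : ℕ) : ℂ) ^ (-2 * s)))⁻¹) (F q χ s)) ∧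
      ∃ K η X0 : ℝ, 1 ≤ K ∧ 0 < η ∧ 1 ≤ X0 ∧
      ∀ (X Y : ℕ) (T : ℝ), X0 ≤ X → K * X ≤ Y → (Y : ℝ) ≤ (X : ℝ) ^ (1 + η) →
        (Real.log X) ^ 2 ≤ T → T ≤ (X : ℝ) ^ η →
        0.6725 * primFamM N X Y (fun q χ => (NN (F q χ) T (2 * T) : ℝ)) ≤
          primFamM N X Y (fun q χ => (Ns (F q χ) T (2 * T) : ℝ)) ∧
        0.83625 * primFamM N X Y (fun q χ => (NN (F q χ) T (2 * T) : ℝ)) ≤
          primFamM N X Y (fun q χ => (Nd (F q χ) T (2 * T) : ℝ)) := by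
  obtain ⟨A, F, hA, h1, h2, h3⟩ := newf_twists Pool.Agent.W440.TW.t_twist
    Pool.Agent.W108.TW.t_mellin Pool.Agent.W820.TW.t_fe p_dir p_nzr p_rs p_sel hk hf
  have hN : N ≠ 0 := NeZero.ne N
  have h1' : TwE 2 A (rad N) (fun n => (cS N (lamf f) n : ℂ)) F := by
    intro q χ hq hqN hχ
    exact h1 q χ hq ((coprime_rad hN q).mp hqN) hχ
  obtain ⟨K, η, X0, hK, hη, hX0, h⟩ := final_deg2_E A hA (rad N) (rad_squarefree N) _ F h1' h2
  refine ⟨F, h3, K, η, X0, hK, hη, hX0, fun X Y T a1 a2 a3 a4 a5 => ?_⟩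
  have := h X Y T a1 a2 a3 a4 a5
  simp only [primFamM_rad hN] at this
  exact this

end W388
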