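import Pool.Agent.W388.TW.Defs
import Pool.Agent.H343R2.EFb
import Pool.Agent.H385R2.CutB
import Pool.Agent.H385R2.FamBase
import Pool.Agent.H385R2.NLowCore

/-! Coefficient sequences that are only summable against `n^(-3/2)`. -/

set_option autoImplicit false

open Complex Filter Topology Set MeasureTheory
open H370 (zset mult NN Nd Ns mk_eq DD term_eq gauss_int)
open H343 (hhb PPb norm_hhb hhb_diff hhb_cont_line gauss_lineb)

namespace W388

open H385

/-- coefficient condition -/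
structure CoefE (A : ℝ) (a : ℕ → ℂ) : Prop where
  h1 : ∀ n : ℕ, n ≤ 1 → a n = 0
  sm : Summable (fun n : ℕ => ‖a n‖ * (n : ℝ) ^ (-(3 / 2) : ℝ))
  le : ∑' n : ℕ, ‖a n‖ * (n : ℝ) ^ (-(3 / 2) : ℝ) ≤ A

theorem GoodE.coef {d A Q : ℝ} {F : ℂ → ℂ} {a : ℕ → ℂ} (h : GoodE d A Q F a) : CoefE A a :=
  ⟨h.ha1, h.has, h.ha⟩

variable {A : ℝ} {a : ℕ → ℂ}

lemma CoefE.zero (h : CoefE A a) : a 0 = 0 := h.h1 0 (by norm_num)

lemma CoefE.norm_npow (_h : CoefE A a) (n : ℕ) (v : ℝ) :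
    ‖a n * (n : ℂ) ^ (-(⟨3 / 2, v⟩ : ℂ))‖ ≤ ‖a n‖ * (n : ℝ) ^ (-(3 / 2) : ℝ) := by
  rcases Nat.eq_zero_or_pos n with h | h
  · subst h
    rw [_h.zero]; simp
  · rw [norm_mul, Complex.norm_natCast_cpow_of_pos h]
    simp

lemma CoefE.norm_DD (h : CoefE A a) (v : ℝ) : ‖DD a (⟨3 / 2, v⟩ : ℂ)‖ ≤ A := by
  unfold DD
  exact (tsum_of_norm_bounded h.sm.hasSum (fun n => h.norm_npow n v)).trans h.le

lemma CoefE.DD_cont (h : CoefE A a) : Continuous (fun v : ℝ => DD a (⟨3 / 2, v⟩ : ℂ)) := by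
  unfold DD
  apply continuous_tsum _ h.sm (fun n v => h.norm_npow n v)
  intro n
  rcases Nat.eq_zero_or_pos n with h' | h'
  · have h0 : a n = 0 := by rw [h']; exact h.zero
    simp only [h0, zero_mul]
    exact continuous_const
  · have : (fun v : ℝ => a n * (n : ℂ) ^ (-(⟨3 / 2, v⟩ : ℂ))) =
        fun v : ℝ => a n * cexp (-((Real.log n : ℝ) : ℂ) * ((3 / 2 : ℝ) + v * I)) := by
      funext v
      rw [term_eq n h', mk_eq]
    rw [this]
    fun_prop

lemma CoefE.PPb_integral (ha : CoefE A a) (b : ℝ) (hb : 0 < b) (u t : ℝ) :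
    (∫ v : ℝ, DD a (⟨3 / 2, v⟩ : ℂ) * hhb b u t (⟨3 / 2, v⟩ : ℂ)) =
      Real.sqrt (2 * Real.pi / b) * PPb b a u t := by
  set f : ℕ → ℝ → ℂ := fun n v => a n * (n : ℂ) ^ (-(⟨3 / 2, v⟩ : ℂ)) * hhb b u t (⟨3 / 2, v⟩ : ℂ)
    with hf
  have hcl := hhb_cont_line b u t (3 / 2)
  have hnb : ∀ n v, ‖f n v‖ ≤ (‖a n‖ * (n : ℝ) ^ (-(3 / 2) : ℝ)) *
      (Real.exp (u * (3 / 2 - 1 / 2)) * Real.exp (b / 2) * Real.exp (-(b / 2) * (v - t) ^ 2)) := by
    intro n v
    simp only [hf]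
    rw [norm_mul, norm_hhb]
    apply mul_le_mul (ha.norm_npow n v) (le_of_eq _) (by positivity)
      (by positivity)
    rw [mul_assoc, ← Real.exp_add (b / 2)]
    congr 2; ring
  have hcont : ∀ n, Continuous (f n) := by
    intro n
    rcases Nat.eq_zero_or_pos n with h | h
    · have h0 : a n = 0 := by rw [h]; exact ha.zero
      simp only [hf, h0, zero_mul]
      exact continuous_const
    · simp only [hf]
      have : (fun v : ℝ => a n * (n : ℂ) ^ (-(⟨3 / 2, v⟩ : ℂ))) =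
          fun v : ℝ => a n * cexp (-((Real.log n : ℝ) : ℂ) * ((3 / 2 : ℝ) + v * I)) := by
        funext v
        rw [term_eq n h, mk_eq]
      refine Continuous.mul ?_ hcl
      rw [this]
      fun_prop
  have hG : Integrable (fun v : ℝ => Real.exp (u * (3 / 2 - 1 / 2)) * Real.exp (b / 2) *
      Real.exp (-(b / 2) * (v - t) ^ 2)) := (gauss_int t (b / 2) (by positivity)).const_mul _
  have hint : ∀ n, Integrable (f n) := fun n =>
    (hG.const_mul (‖a n‖ * (n : ℝ) ^ (-(3 / 2) : ℝ))).mono'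
      (hcont n).aestronglyMeasurable (Eventually.of_forall (hnb n))
  have hsum : Summable fun n => ∫ v, ‖f n v‖ := by
    refine Summable.of_nonneg_of_le (fun n => integral_nonneg fun v => norm_nonneg _) (fun n => ?_)
      (ha.sm.mul_right (∫ v : ℝ, Real.exp (u * (3 / 2 - 1 / 2)) * Real.exp (b / 2) *
      Real.exp (-(b / 2) * (v - t) ^ 2)))
    rw [← integral_const_mul]
    exact integral_mono (hint n).norm (hG.const_mul _) (fun v => hnb n v)
  have key := hasSum_integral_of_summable_integral_norm hint hsum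
  have e1 : (fun v : ℝ => DD a (⟨3 / 2, v⟩ : ℂ) * hhb b u t (⟨3 / 2, v⟩ : ℂ)) =
      fun v => ∑' n, f n v := by
    funext v
    simp only [hf, DD]
    rw [tsum_mul_right]
  rw [e1, ← key.tsum_eq]
  unfold PPb
  rw [← tsum_mul_left]
  congr 1
  funext n
  rcases Nat.eq_zero_or_pos n with h | h
  · have h0 : a n = 0 := by rw [h]; exact ha.zero
    simp [hf, h0]
  · have e2 : ∀ v : ℝ, f n v = a n * (hhb b u t (⟨3 / 2, v⟩ : ℂ) *
        cexp (-((Real.log n : ℝ) : ℂ) * (⟨3 / 2, v⟩ : ℂ))) := by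
      intro v
      simp only [hf]
      rw [term_eq n h]
      ring
    simp_rw [e2]
    rw [integral_const_mul, gauss_lineb _ _ _ _ _ hb]
    have e3 : Real.exp (-Real.log n / 2) = (Real.sqrt n)⁻¹ := by
      rw [Real.sqrt_eq_rpow, ← Real.rpow_neg (by positivity),
        Real.rpow_def_of_pos (by exact_mod_cast h)]
      congr 1; ring
    rw [e3]
    push_cast
    ring

/-- the Gaussian beats one power of `n` -/
lemma gauss_pow (u : ℝ) (n : ℕ) :
    (Real.sqrt n)⁻¹ * Real.exp (-(u - Real.log n) ^ 2 / 4) ≤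
      Real.exp (u + 1) * (n : ℝ) ^ (-(3 / 2) : ℝ) := by
  rcases Nat.eq_zero_or_pos n with h | h
  · subst h
    have : (0 : ℝ) ^ (-(3 / 2) : ℝ) = 0 := Real.zero_rpow (by norm_num)
    simp [this]
  · have hn : (0 : ℝ) < n := by exact_mod_cast h
    have h1 : (Real.sqrt n)⁻¹ = Real.exp (-(1 / 2) * Real.log n) := by
      rw [Real.sqrt_eq_rpow, ← Real.rpow_neg hn.le, Real.rpow_def_of_pos hn]
      congr 1; ring
    have h2 : (n : ℝ) ^ (-(3 / 2) : ℝ) = Real.exp (-(3 / 2) * Real.log n) := by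
      rw [Real.rpow_def_of_pos hn]
      congr 1; ring
    rw [h1, h2, ← Real.exp_add, ← Real.exp_add]
    apply Real.exp_le_exp.mpr
    nlinarith [sq_nonneg (Real.log n - u - 2)]

lemma CoefE.dom (h : CoefE A a) (u : ℝ) : Summable (fun n : ℕ => ‖a n‖ * ((Real.sqrt n)⁻¹ *
    Real.exp (-(u - Real.log n) ^ 2 / 4))) := by
  refine Summable.of_nonneg_of_le (fun n => by positivity) (fun n => ?_)
    (h.sm.mul_left (Real.exp (u + 1)))
  calc ‖a n‖ * ((Real.sqrt n)⁻¹ * Real.exp (-(u - Real.log n) ^ 2 / 4)) ≤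
      ‖a n‖ * (Real.exp (u + 1) * (n : ℝ) ^ (-(3 / 2) : ℝ)) :=
        mul_le_mul_of_nonneg_left (gauss_pow u n) (norm_nonneg _)
    _ = _ := by ring

lemma norm_PP1_term_E (a : ℕ → ℂ) (u m : ℝ) (n : ℕ) :
    ‖a n * (Real.sqrt n : ℂ)⁻¹ * cexp (I * m * (u - Real.log n)) *
      Real.exp (-(u - Real.log n) ^ 2 / 4)‖ ≤
    ‖a n‖ * ((Real.sqrt n)⁻¹ * Real.exp (-(u - Real.log n) ^ 2 / 4)) := by
  have h1 : ‖cexp (I * m * (u - Real.log n))‖ = 1 := by
    have : I * m * (u - Real.log n) = ((m * (u - Real.log n) : ℝ) : ℂ) * I := by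
      push_cast; ring
    rw [this, Complex.norm_exp_ofReal_mul_I]
  rw [norm_mul, norm_mul, norm_mul, h1, mul_one, norm_inv, Complex.norm_real, Complex.norm_real,
    Real.norm_of_nonneg (Real.sqrt_nonneg _), Real.norm_of_nonneg (Real.exp_pos _).le, mul_assoc]

lemma CoefE.PP1_cont (h : CoefE A a) (u : ℝ) : Continuous (fun m : ℝ => PP1 a u m) := by
  unfold PP1
  refine continuous_tsum (fun n => by fun_prop) (h.dom u) fun n m => ?_
  exact norm_PP1_term_E a u m n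

lemma CoefE.PP1_zero_le (h : CoefE A a) (m : ℝ) : ‖PP1 a 0 m‖ ≤ Real.exp 1 * A := by
  unfold PP1
  have h2 : ∑' n : ℕ, Real.exp 1 * (‖a n‖ * (n : ℝ) ^ (-(3 / 2) : ℝ)) ≤ Real.exp 1 * A := by
    rw [tsum_mul_left]
    exact mul_le_mul_of_nonneg_left h.le (Real.exp_pos _).le
  refine (tsum_of_norm_bounded (h.sm.mul_left (Real.exp 1)).hasSum (fun n => ?_)).trans h2
  refine (norm_PP1_term_E a 0 m n).trans ?_
  have h3 := gauss_pow 0 n
  rw [zero_add] at h3
  calc _ ≤ ‖a n‖ * (Real.exp 1 * (n : ℝ) ^ (-(3 / 2) : ℝ)) :=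
        mul_le_mul_of_nonneg_left h3 (norm_nonneg _)
    _ = _ := by ring

lemma CoefE.bt_sum_formula (ha : CoefE A a) (T u t : ℝ) :
    ∑' n : ℕ, a n * ((Real.sqrt n : ℂ)⁻¹ * bt T u t (Real.log n)) =
      ((1 / (2 * Real.sqrt Real.pi) * (1 / Real.sqrt (2 * Real.pi)) : ℝ) : ℂ) *
        ∫ τ in T..(2 * T), (Real.exp (-(t - τ) ^ 2 / 4) : ℂ) * PP1 a u ((t + τ) / 2) := by
  have h1 : ∫ τ in T..(2 * T), (Real.exp (-(t - τ) ^ 2 / 4) : ℂ) * PP1 a u ((t + τ) / 2)
      = ∑' n : ℕ, ∫ τ in T..(2 * T), (Real.exp (-(t - τ) ^ 2 / 4) : ℂ) *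
        (a n * (Real.sqrt n : ℂ)⁻¹ * cexp (I * ((t + τ) / 2 : ℝ) * (u - Real.log n)) *
          Real.exp (-(u - Real.log n) ^ 2 / 4)) := by
    have e1 : ∀ τ : ℝ, (Real.exp (-(t - τ) ^ 2 / 4) : ℂ) * PP1 a u ((t + τ) / 2) =
        ∑' n : ℕ, (Real.exp (-(t - τ) ^ 2 / 4) : ℂ) *
        (a n * (Real.sqrt n : ℂ)⁻¹ * cexp (I * ((t + τ) / 2 : ℝ) * (u - Real.log n)) *
          Real.exp (-(u - Real.log n) ^ 2 / 4)) := by
      intro τ
      rw [tsum_mul_left]
      rfl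
    simp_rw [e1]
    symm
    refine (intervalIntegral.hasSum_integral_of_dominated_convergence
      (fun n _ => ‖a n‖ * ((Real.sqrt n)⁻¹ *
        Real.exp (-(u - Real.log n) ^ 2 / 4))) ?_ ?_ ?_ ?_ ?_).tsum_eq
    · intro n
      apply Continuous.aestronglyMeasurable
      fun_prop
    · intro n
      refine Eventually.of_forall fun τ _ => ?_
      rw [norm_mul, Complex.norm_real, Real.norm_of_nonneg (Real.exp_pos _).le]
      have h2 : Real.exp (-(t - τ) ^ 2 / 4) ≤ 1 := by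
        rw [Real.exp_le_one_iff]
        nlinarith [sq_nonneg (t - τ)]
      have h3 := norm_PP1_term_E a u ((t + τ) / 2) n
      calc _ ≤ 1 * _ := mul_le_mul_of_nonneg_right h2 (norm_nonneg _)
        _ ≤ _ := by rw [one_mul]; exact h3
    · exact Eventually.of_forall fun τ _ => ha.dom u
    · exact intervalIntegrable_const
    · refine Eventually.of_forall fun τ _ => ?_
      have : Summable (fun n : ℕ => (a n * (Real.sqrt n : ℂ)⁻¹ *
          cexp (I * ((t + τ) / 2 : ℝ) * (u - Real.log n)) *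
          Real.exp (-(u - Real.log n) ^ 2 / 4))) :=
        Summable.of_norm_bounded (ha.dom u) (norm_PP1_term_E a u ((t + τ) / 2))
      exact (this.mul_left _).hasSum
  rw [h1, ← tsum_mul_left]
  refine tsum_congr fun n => ?_
  have h4 : ∀ τ : ℝ, (Real.exp (-(t - τ) ^ 2 / 4) : ℂ) *
        (a n * (Real.sqrt n : ℂ)⁻¹ * cexp (I * ((t + τ) / 2 : ℝ) * (u - Real.log n)) *
          Real.exp (-(u - Real.log n) ^ 2 / 4)) =
      (a n * (Real.sqrt n : ℂ)⁻¹ * Real.exp (-(u - Real.log n) ^ 2 / 4)) *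
        ((Real.exp (-(t - τ) ^ 2 / 4) : ℂ) * cexp (I * ((t + τ) / 2) * (u - Real.log n))) := by
    intro τ
    push_cast
    ring
  simp_rw [h4]
  rw [intervalIntegral.integral_const_mul]
  unfold bt
  push_cast
  ring

lemma CoefE.dom2 (h : CoefE A a) (u : ℝ) : Summable (fun n : ℕ => ‖a n‖ * ((Real.sqrt n)⁻¹ *
    (1 / Real.sqrt (2 * Real.pi) * Real.exp (-(u - Real.log n) ^ 2 / 4)))) := by
  refine ((h.dom u).mul_left (1 / Real.sqrt (2 * Real.pi))).congr fun n => ?_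
  ring

lemma fa_term_bound_E (a : ℕ → ℂ) (T u t : ℝ) (hT : 0 ≤ T) (n : ℕ) :
    ‖a n * ((Real.sqrt n : ℂ)⁻¹ * bt T u t (Real.log n))‖ ≤
      (‖a n‖ * ((Real.sqrt n)⁻¹ *
      (1 / Real.sqrt (2 * Real.pi) * Real.exp (-(u - Real.log n) ^ 2 / 4)))) * wt T t := by
  rw [norm_mul, norm_mul, norm_inv, Complex.norm_real, Real.norm_eq_abs,
    abs_of_nonneg (Real.sqrt_nonneg _)]
  have h1 := bt_norm T u t (Real.log n) hT
  have h2 := wt_nonneg T t hT
  calc ‖a n‖ * ((Real.sqrt n)⁻¹ * ‖bt T u t (Real.log n)‖) ≤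
      ‖a n‖ * ((Real.sqrt n)⁻¹ *
        (1 / Real.sqrt (2 * Real.pi) * Real.exp (-(u - Real.log n) ^ 2 / 4) * wt T t)) := by
        gcongr
    _ = _ := by ring

lemma CoefE.Pf_cont (h : CoefE A a) (T u : ℝ) (hT : 0 ≤ T) : Continuous (fun t => Pf a T u t) := by
  unfold Pf
  refine continuous_tsum ?_ (h.dom2 u) ?_
  · intro n
    exact continuous_const.mul (continuous_const.mul (fa_bt_cont T u _))
  · intro n t
    refine (fa_term_bound_E a T u t hT n).trans ?_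
    have h1 := wt_le_one T t hT
    have h2 : 0 ≤ ‖a n‖ * ((Real.sqrt n)⁻¹ *
      (1 / Real.sqrt (2 * Real.pi) * Real.exp (-(u - Real.log n) ^ 2 / 4))) := by
      positivity
    nlinarith

lemma CoefE.Pf_int (ha : CoefE A a) (T u : ℝ) (hT : 0 ≤ T) :
    Integrable (fun t => ‖Pf a T u t‖ ^ 2) := by
  obtain ⟨C, hC, hw⟩ := wt_sq_int
  have hwi := (hw T hT).1
  set G := ∑' n : ℕ, ‖a n‖ * ((Real.sqrt n)⁻¹ *
      (1 / Real.sqrt (2 * Real.pi) * Real.exp (-(u - Real.log n) ^ 2 / 4))) with hG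
  refine Integrable.mono' (hwi.const_mul (G ^ 2))
    ((ha.Pf_cont T u hT).norm.pow 2).aestronglyMeasurable ?_
  filter_upwards with t
  rw [Real.norm_eq_abs, abs_of_nonneg (sq_nonneg _), ← mul_pow]
  apply pow_le_pow_left₀ (norm_nonneg _)
  unfold Pf
  have hs := (ha.dom2 u).mul_right (wt T t)
  refine (norm_tsum_le_tsum_norm ?_).trans ?_
  · exact Summable.of_nonneg_of_le (fun n => norm_nonneg _)
      (fun n => fa_term_bound_E a T u t hT n) hs
  · rw [hG, ← tsum_mul_right]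
    exact Summable.tsum_le_tsum (fun n => fa_term_bound_E a T u t hT n)
      (Summable.of_nonneg_of_le (fun n => norm_nonneg _)
      (fun n => fa_term_bound_E a T u t hT n) hs) hs

end W388
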