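import Pool.Agent.W388.TW.D0
import Pool.Agent.H385R2.Defs

/-! Statement of the real analysis part of the mean square (owner helper388). -/

set_option autoImplicit false

open Complex Filter Topology Set MeasureTheory
open H385 (Rw)

namespace W388


/-- `SWu(u) = ∑ Λ(n)² |c(n)|² / n · exp(-(u - log n)²)` and the version with `(u - log n)² / 2` -/
noncomputable def SWu (c : ℕ → ℂ) (b u : ℝ) : ℝ :=
  ∑' n : ℕ, ArithmeticFunction.vonMangoldt n ^ 2 * ‖c n‖ ^ 2 / n * Real.exp (-(b * (u - Real.log n) ^ 2))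

/-- T2a : real analysis of the smoothed sums. -/
def StSmooth : Prop := ∀ (c : ℕ → ℂ), SelE c →
  -- summability and continuity
  (∀ u : ℝ, Summable (fun n : ℕ => ArithmeticFunction.vonMangoldt n * ‖c n‖ ^ 2 / n * Real.exp (-(u - Real.log n) ^ 2 / 4))) ∧
  (∀ b : ℝ, 0 < b → ∀ u : ℝ,
    Summable (fun n : ℕ => ArithmeticFunction.vonMangoldt n ^ 2 * ‖c n‖ ^ 2 / n * Real.exp (-(b * (u - Real.log n) ^ 2)))) ∧
  Continuous (Wu c) ∧ (∀ b : ℝ, 0 < b → Continuous (SWu c b)) ∧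
  -- crude bounds
  (∃ C : ℝ, 0 < C ∧ (∀ u : ℝ, 0 ≤ u → Wu c u ≤ C * (u + 1)) ∧
    (∀ L : ℝ, 0 ≤ L → ∫ u in (0 : ℝ)..L, Wu c u ≤ C * (L + 1)) ∧
    (∀ u : ℝ, 0 ≤ u → SWu c (1 / 2) u ≤ C * (u + 1) ^ 2) ∧
    (∀ L : ℝ, 0 ≤ L → ∫ u in (0 : ℝ)..L, SWu c (1 / 2) u ≤ C * (L + 1) ^ 2)) ∧
  -- the main term
  (∀ (γ : ℝ), 0 < γ → γ < Real.pi → ∀ ε : ℝ, 0 < ε → ∃ L0 : ℝ, 0 < L0 ∧ ∀ L : ℝ, L0 ≤ L →
    ∫ u in (0 : ℝ)..L, Rw γ (u / L) * SWu c 1 u ≤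
      Real.sqrt Real.pi * L ^ 2 * ((∫ α in (0 : ℝ)..1, α * Rw γ α) + ε))

end W388
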