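import Pool.Agent.H385R2.FinDA0
import Pool.Agent.W388.TW.D1

/-!
# Twists of GL(2) newforms : statements which need the family machinery (owner helper388)
-/

set_option autoImplicit false

open Complex Filter Topology Set MeasureTheory
open H385 (primFamM HYM WM Rw bt)

namespace W388


/-! ## analytic part (T1) -/

/-- analytic input about an L-function of degree `d` in the upper half plane, uniform in the
conductor `Q ^ d`; as `H385.GoodD`, but the coefficients `a` of `-F'/F` are only summable against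
`n^(-3/2)`. -/
structure GoodE (d A Q : ℝ) (F : ℂ → ℂ) (a : ℕ → ℂ) : Prop where
  an : ∀ s : ℂ, 0 < s.im → AnalyticAt ℂ F s
  growth : ∀ s : ℂ, (1 / 16 : ℝ) ≤ s.re → s.re ≤ 4 → 1 ≤ s.im → ‖F s‖ ≤ A * (Q * s.im) ^ A
  lower : ∀ t : ℝ, 1 ≤ t → A⁻¹ ≤ ‖F (⟨2, t⟩ : ℂ)‖
  nzr : ∀ s : ℂ, 1 ≤ s.re → 1 ≤ s.im → F s ≠ 0
  nzl : ∀ s : ℂ, s.re ≤ 0 → 1 ≤ s.im → F s ≠ 0
  symm : ∀ s : ℂ, 0 < s.re → s.re < 1 → 1 ≤ s.im →
    analyticOrderAt F (1 - (starRingEnd ℂ) s) = analyticOrderAt F s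
  ha1 : ∀ n : ℕ, n ≤ 1 → a n = 0
  has : Summable (fun n : ℕ => ‖a n‖ * (n : ℝ) ^ (-(3 / 2) : ℝ))
  ha : ∑' n : ℕ, ‖a n‖ * (n : ℝ) ^ (-(3 / 2) : ℝ) ≤ A
  ld : ∀ s : ℂ, 1 < s.re → 1 ≤ s.im → deriv F s / F s = - ∑' n : ℕ, a n * (n : ℂ) ^ (-s)
  left : ∀ s : ℂ, -1 / 2 ≤ s.re → s.re ≤ 1 / 2 → 1 ≤ s.im → F s ≠ 0 →
    ‖deriv F s / F s + ((d * Real.log (Q * s.im) : ℝ) : ℂ) +
      (starRingEnd ℂ) (deriv F (1 - (starRingEnd ℂ) s) / F (1 - (starRingEnd ℂ) s))‖ ≤ A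

/-- twists by primitive characters of conductor prime to `M` of an `L`-function of degree `d`
(as `H385.TwD`, without a pointwise bound for `c`) -/
def TwE (d A : ℝ) (M : ℕ) (c : ℕ → ℂ) (F : (q : ℕ) → DirichletCharacter ℂ q → ℂ → ℂ) : Prop :=
  ∀ (q : ℕ) (χ : DirichletCharacter ℂ q), 2 ≤ q → Nat.Coprime q M → χ.IsPrimitive →
    GoodE d A q (F q χ) (fun n => χ (n : ZMod q) * c n * (ArithmeticFunction.vonMangoldt n : ℂ))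

/-- T1 : `H385.final_core_D` with `TwE` in place of `TwD`. -/
def StCore : Prop := ∀ (d A : ℝ), 1 ≤ d → 1 ≤ A → ∀ (M : ℕ) (c : ℕ → ℂ)
    (F : (q : ℕ) → DirichletCharacter ℂ q → ℂ → ℂ), TwE d A M c F →
    ∀ (γ β c' : ℝ), 0 < γ → γ < Real.pi → 0 < β → 0 ≤ c' → 0 ≤ Rw γ 0 → HYM M c γ β c' →
    ∀ (ε : ℝ), 0 < ε →
    ∃ K η X0 : ℝ, 1 ≤ K ∧ 0 < η ∧ 1 ≤ X0 ∧
    ∀ (X Y : ℕ) (T : ℝ), X0 ≤ X → K * X ≤ Y → (Y : ℝ) ≤ (X : ℝ) ^ (1 + η) →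
      (Real.log X) ^ 2 ≤ T → T ≤ (X : ℝ) ^ η →
      primFamM M X Y (fun q χ => 2 * (H370.NN (F q χ) T (2 * T) : ℝ) -
        (H370.Ns (F q χ) T (2 * T) : ℝ)) ≤
        (d * Rw γ 0 / β + c' / d + ε) *
          primFamM M X Y (fun q χ => (H370.NN (F q χ) T (2 * T) : ℝ)) ∧
      primFamM M X Y (fun q χ => 3 * (H370.NN (F q χ) T (2 * T) : ℝ) -
        2 * (H370.Nd (F q χ) T (2 * T) : ℝ)) ≤
        (d * Rw γ 0 / β + c' / d + ε) *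
          primFamM M X Y (fun q χ => (H370.NN (F q χ) T (2 * T) : ℝ))

/-! ## mean square (T2) -/

/-- T2 : the mean square hypothesis from `SelE`. -/
def StMean : Prop := ∀ (M : ℕ), Squarefree M → ∀ (c : ℕ → ℂ), SelE c →
  ∀ (γ β : ℝ), 0 < γ → γ < Real.pi → 0 < β → β < 2 →
    HYM M c γ β (2 * β * (∫ α in (0 : ℝ)..1, α * Rw γ α))

end W388
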