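import Pool.Agent.W388.TW.Defs
import Pool.Agent.H385R2.FinDB
import Pool.Agent.H385R2.NLA

open Complex Filter Topology Set MeasureTheory
open H370 (zset mult NN Nd Ns)

set_option maxHeartbeats 4000000

namespace W388

open H385

/-- `Λ ‖c (√n)⁻¹ bt‖` -/
theorem b_bound_E (c : ℕ → ℂ) (T u t : ℝ) (hT : 0 ≤ T) (n : ℕ) :
    ArithmeticFunction.vonMangoldt n *
      ‖c n * ((Real.sqrt n : ℂ)⁻¹ * bt T u t (Real.log n))‖ ≤
      wt T t * (ArithmeticFunction.vonMangoldt n * ‖c n‖ / Real.sqrt n *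
        Real.exp (-(u - Real.log n) ^ 2 / 4)) := by
  have h := b_bound T u t hT n
  rw [norm_mul]
  have := mul_le_mul_of_nonneg_left h (norm_nonneg (c n))
  calc _ = ‖c n‖ * (ArithmeticFunction.vonMangoldt n *
        ‖(Real.sqrt n : ℂ)⁻¹ * bt T u t (Real.log n)‖) := by ring
    _ ≤ _ := this
    _ = _ := by ring

/-- hypotheses on `c` used in the mean square (from `StSmooth` and `StNonCop`) -/
structure MeanC (c : ℕ → ℂ) : Prop where
  hs : ∀ u : ℝ, Summable (fun n : ℕ =>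
    ArithmeticFunction.vonMangoldt n * ‖c n‖ / Real.sqrt n * Real.exp (-(u - Real.log n) ^ 2 / 4))
  hs2 : ∀ b : ℝ, 0 < b → ∀ u : ℝ,
    Summable (fun n : ℕ => ArithmeticFunction.vonMangoldt n ^ 2 * ‖c n‖ ^ 2 / n *
      Real.exp (-(b * (u - Real.log n) ^ 2)))

theorem bc_summable_E {c : ℕ → ℂ} (hc : MeanC c) (T u t : ℝ) (hT : 0 ≤ T) :
    Summable (fun n : ℕ => ArithmeticFunction.vonMangoldt n *
      ‖c n * ((Real.sqrt n : ℂ)⁻¹ * bt T u t (Real.log n))‖) := by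
  refine Summable.of_nonneg_of_le (fun n => ?_) (fun n => b_bound_E c T u t hT n)
    ((hc.hs u).mul_left _)
  exact mul_nonneg ArithmeticFunction.vonMangoldt_nonneg (norm_nonneg _)

theorem bc_tsum_sq_E {c : ℕ → ℂ} (hc : MeanC c) (T u t : ℝ) (hT : 0 ≤ T)
    (p : ℕ → Prop) [DecidablePred p] :
    (∑' n : ℕ, (if p n then ArithmeticFunction.vonMangoldt n *
      ‖c n * ((Real.sqrt n : ℂ)⁻¹ * bt T u t (Real.log n))‖ else 0)) ^ 2 ≤
    wt T t ^ 2 * (∑' n : ℕ, (if p n then ArithmeticFunction.vonMangoldt n * ‖c n‖ / Real.sqrt n *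
        Real.exp (-(u - Real.log n) ^ 2 / 4) else 0)) ^ 2 := by
  have hs : ∀ f : ℕ → ℝ, (∀ n, 0 ≤ f n) → Summable f → Summable (fun n => if p n then f n else 0) := by
    intro f hf hfs
    refine Summable.of_nonneg_of_le (fun n => ?_) (fun n => ?_) hfs
    · split_ifs
      · exact hf n
      · exact le_rfl
    · split_ifs
      · exact le_rfl
      · exact hf n
  have h1 : ∑' n : ℕ, (if p n then ArithmeticFunction.vonMangoldt n *
      ‖c n * ((Real.sqrt n : ℂ)⁻¹ * bt T u t (Real.log n))‖ else 0) ≤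
      wt T t * ∑' n : ℕ, (if p n then ArithmeticFunction.vonMangoldt n * ‖c n‖ / Real.sqrt n *
        Real.exp (-(u - Real.log n) ^ 2 / 4) else 0) := by
    rw [← tsum_mul_left]
    refine Summable.tsum_le_tsum (fun n => ?_) (hs _ (fun n => mul_nonneg
      ArithmeticFunction.vonMangoldt_nonneg (norm_nonneg _)) (bc_summable_E hc T u t hT))
      ((hs _ (fun n => by
        have := @ArithmeticFunction.vonMangoldt_nonneg n
        positivity) (hc.hs u)).mul_left _)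
    split_ifs
    · exact b_bound_E c T u t hT n
    · simp
  have h0 : 0 ≤ ∑' n : ℕ, (if p n then ArithmeticFunction.vonMangoldt n *
      ‖c n * ((Real.sqrt n : ℂ)⁻¹ * bt T u t (Real.log n))‖ else 0) := by
    refine tsum_nonneg (fun n => ?_)
    split_ifs
    · exact mul_nonneg ArithmeticFunction.vonMangoldt_nonneg (norm_nonneg _)
    · exact le_rfl
  rw [← mul_pow]
  exact pow_le_pow_left₀ h0 h1 2

theorem btc_sum_int_E {c : ℕ → ℂ} (hc : MeanC c) : ∃ C : ℝ, 0 < C ∧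
    ∀ (T κ u : ℝ) (N : ℕ), 1 ≤ κ → 1 ≤ T → T ≤ Real.exp (κ ^ 2) →
    Integrable (fun t => ∑ n ∈ Finset.Icc 1 N, (ArithmeticFunction.vonMangoldt n) ^ 2 *
      ‖c n * ((Real.sqrt n : ℂ)⁻¹ * bt T u t (Real.log n))‖ ^ 2) ∧
    ∫ t : ℝ, ∑ n ∈ Finset.Icc 1 N, (ArithmeticFunction.vonMangoldt n) ^ 2 *
      ‖c n * ((Real.sqrt n : ℂ)⁻¹ * bt T u t (Real.log n))‖ ^ 2 ≤
      T / (2 * Real.pi) * SWu c 1 u + C * κ * SWu c (1 / 2) u := by
  obtain ⟨C5, hC5, h5⟩ := bt_sq_int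
  refine ⟨C5, by positivity, ?_⟩
  intro T κ u N hκ hT hTκ
  have hint : ∀ n ∈ Finset.Icc 1 N, Integrable (fun t => (ArithmeticFunction.vonMangoldt n) ^ 2 *
      ‖c n * ((Real.sqrt n : ℂ)⁻¹ * bt T u t (Real.log n))‖ ^ 2) := by
    intro n hn
    have := (h5 T κ u (Real.log n) hκ hT hTκ).1
    refine Integrable.const_mul ?_ _
    simp only [norm_mul, mul_pow]
    exact (this.const_mul _).const_mul _
  refine ⟨integrable_finsetSum _ hint, ?_⟩
  rw [integral_finsetSum _ hint]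
  have hS2 := hc.hs2 (1 / 2) (by norm_num) u
  have hS1 := hc.hs2 1 one_pos u
  have hterm : ∀ n ∈ Finset.Icc 1 N, ∫ t : ℝ, (ArithmeticFunction.vonMangoldt n) ^ 2 *
      ‖c n * ((Real.sqrt n : ℂ)⁻¹ * bt T u t (Real.log n))‖ ^ 2 ≤
      T / (2 * Real.pi) * (ArithmeticFunction.vonMangoldt n ^ 2 * ‖c n‖ ^ 2 / n *
        Real.exp (-(1 * (u - Real.log n) ^ 2))) +
      C5 * κ * (ArithmeticFunction.vonMangoldt n ^ 2 * ‖c n‖ ^ 2 / n *
        Real.exp (-(1 / 2 * (u - Real.log n) ^ 2))) := by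
    intro n hn
    have hn1 : 1 ≤ n := (Finset.mem_Icc.mp hn).1
    have hn0 : (0 : ℝ) < n := by exact_mod_cast hn1
    have h7 := (h5 T κ u (Real.log n) hκ hT hTκ).2
    rw [integral_const_mul]
    simp only [norm_mul, mul_pow]
    rw [integral_const_mul, integral_const_mul]
    have h8 : ‖(Real.sqrt n : ℂ)⁻¹‖ ^ 2 = 1 / n := by
      rw [norm_inv, Complex.norm_real, Real.norm_of_nonneg (Real.sqrt_nonneg _), inv_pow,
        Real.sq_sqrt hn0.le]
      simp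
    rw [h8]
    have e1 : -(1 * (u - Real.log n) ^ 2) = -(u - Real.log n) ^ 2 := by ring
    have e2 : -(1 / 2 * (u - Real.log n) ^ 2) = -(u - Real.log n) ^ 2 / 2 := by ring
    rw [e1, e2]
    have h9 : (ArithmeticFunction.vonMangoldt n) ^ 2 * (‖c n‖ ^ 2 * (1 / (n : ℝ) *
        ∫ t : ℝ, ‖bt T u t (Real.log n)‖ ^ 2)) ≤ (ArithmeticFunction.vonMangoldt n) ^ 2 *
        (‖c n‖ ^ 2 * (1 / (n : ℝ) *
        (T / (2 * Real.pi) * Real.exp (-(u - Real.log n) ^ 2) +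
      C5 * κ * Real.exp (-(u - Real.log n) ^ 2 / 2)))) := by gcongr
    refine h9.trans (le_of_eq ?_)
    ring
  refine (Finset.sum_le_sum hterm).trans ?_
  rw [Finset.sum_add_distrib, ← Finset.mul_sum, ← Finset.mul_sum]
  have a1 : ∑ n ∈ Finset.Icc 1 N, (ArithmeticFunction.vonMangoldt n ^ 2 * ‖c n‖ ^ 2 / n *
        Real.exp (-(1 * (u - Real.log n) ^ 2))) ≤ SWu c 1 u :=
    hS1.sum_le_tsum _ (fun n _ => by positivity)
  have a2 : ∑ n ∈ Finset.Icc 1 N, (ArithmeticFunction.vonMangoldt n ^ 2 * ‖c n‖ ^ 2 / n *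
        Real.exp (-(1 / 2 * (u - Real.log n) ^ 2))) ≤ SWu c (1 / 2) u :=
    hS2.sum_le_tsum _ (fun n _ => by positivity)
  have hT0 : 0 ≤ T := by linarith
  exact add_le_add (mul_le_mul_of_nonneg_left a1 (by positivity))
    (mul_le_mul_of_nonneg_left a2 (by positivity))

/-- error terms -/
noncomputable def DDc (c : ℕ → ℂ) (C1 : ℝ) (P X Y N : ℕ) (u : ℝ) : ℝ :=
  C1 * ∑ q ∈ Finset.Ioc X (P * Y), (1 / (q : ℝ)) * Gqc c q u ^ 2 +
    C1 * (Real.log ((Y : ℝ) / X) + 1) * (Gqc c P u ^ 2 + Tlc c N u ^ 2)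

theorem DDc_nonneg (c : ℕ → ℂ) (C1 : ℝ) (hC : 0 ≤ C1) (P X Y N : ℕ) (u : ℝ) (hX : 1 ≤ X)
    (hXY : X ≤ Y) : 0 ≤ DDc c C1 P X Y N u := by
  have hlog : 0 ≤ Real.log ((Y : ℝ) / X) := by
    refine Real.log_nonneg ?_
    have : (0 : ℝ) < X := by exact_mod_cast hX
    rw [one_le_div this]
    exact_mod_cast hXY
  unfold DDc
  positivity

theorem msE_point (M : ℕ) (hM : Squarefree M) {c : ℕ → ℂ}
    (hc : MeanC c) (ε1 : ℝ) (h1 : 0 < ε1) (h2 : ε1 ≤ 1) : ∃ (C : ℝ) (P : ℕ), 0 < C ∧ 1 ≤ P ∧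
    ∀ (X Y N : ℕ) (T u t : ℝ), 1 ≤ X → X ≤ Y → 0 ≤ T →
    primFamM M X Y (fun q χ =>
        ‖∑' n : ℕ, (χ (n : ZMod q) * c n * (ArithmeticFunction.vonMangoldt n : ℂ)) *
          ((Real.sqrt n : ℂ)⁻¹ * bt T u t (Real.log n))‖ ^ 2) ≤
      ((1 + ε1) * Real.exp (Real.pi * N / (X : ℝ) ^ 2) *
        (cM M * (1 + ε1) * Real.log ((Y : ℝ) / X) + C)) *
        ∑ n ∈ Finset.Icc 1 N, (ArithmeticFunction.vonMangoldt n) ^ 2 *
          ‖c n * ((Real.sqrt n : ℂ)⁻¹ * bt T u t (Real.log n))‖ ^ 2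
      + wt T t ^ 2 * DDc c C P X Y N u := by
  obtain ⟨C, P, hC, hP, h⟩ := prim_ls_M M hM ε1 h1 h2
  refine ⟨C, P, by positivity, hP, ?_⟩
  intro X Y N T u t hX hXY hT
  have h3 := h X Y N (fun n => c n * ((Real.sqrt n : ℂ)⁻¹ * bt T u t (Real.log n))) hX hXY
    (bc_summable_E hc T u t hT)
  have hlog : 0 ≤ Real.log ((Y : ℝ) / X) := by
    refine Real.log_nonneg ?_
    have : (0 : ℝ) < X := by exact_mod_cast hX
    rw [one_le_div this]
    exact_mod_cast hXY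
  have e1 : primFamM M X Y (fun q χ =>
        ‖∑' n : ℕ, (χ (n : ZMod q) * c n * (ArithmeticFunction.vonMangoldt n : ℂ)) *
          ((Real.sqrt n : ℂ)⁻¹ * bt T u t (Real.log n))‖ ^ 2) = primFamM M X Y (fun q χ =>
        ‖∑' n : ℕ, χ (n : ZMod q) * (ArithmeticFunction.vonMangoldt n : ℂ) *
          (c n * ((Real.sqrt n : ℂ)⁻¹ * bt T u t (Real.log n)))‖ ^ 2) := by
    congr 1
    funext q χ
    congr 2
    refine tsum_congr (fun n => ?_)
    ring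
  rw [e1]
  refine h3.trans ?_
  have hG : ∀ q : ℕ, (∑' n : ℕ, if Nat.Coprime n q then 0 else ArithmeticFunction.vonMangoldt n *
      ‖c n * ((Real.sqrt n : ℂ)⁻¹ * bt T u t (Real.log n))‖) ^ 2 ≤
        wt T t ^ 2 * (Gqc c q u) ^ 2 := by
    intro q
    have h := bc_tsum_sq_E hc T u t hT (fun n => ¬ Nat.Coprime n q)
    simp only [ite_not] at h
    exact h
  have h4 : (∑' n : ℕ, if N < n then ArithmeticFunction.vonMangoldt n *
      ‖c n * ((Real.sqrt n : ℂ)⁻¹ * bt T u t (Real.log n))‖ else 0) ^ 2 ≤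
        wt T t ^ 2 * (Tlc c N u) ^ 2 := bc_tsum_sq_E hc T u t hT (fun n => N < n)
  have h5 : C * ∑ q ∈ Finset.Ioc X (P * Y), (1 / (q : ℝ)) *
        (∑' n : ℕ, if Nat.Coprime n q then 0 else ArithmeticFunction.vonMangoldt n *
          ‖c n * ((Real.sqrt n : ℂ)⁻¹ * bt T u t (Real.log n))‖) ^ 2 ≤
      C * ∑ q ∈ Finset.Ioc X (P * Y), (1 / (q : ℝ)) * (wt T t ^ 2 * (Gqc c q u) ^ 2) := by
    refine mul_le_mul_of_nonneg_left ?_ hC.le
    refine Finset.sum_le_sum (fun q _ => ?_)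
    exact mul_le_mul_of_nonneg_left (hG q) (by positivity)
  have h6 : C * (Real.log ((Y : ℝ) / X) + 1) *
        ((∑' n : ℕ, if Nat.Coprime n P then 0 else ArithmeticFunction.vonMangoldt n *
          ‖c n * ((Real.sqrt n : ℂ)⁻¹ * bt T u t (Real.log n))‖) ^ 2 +
         (∑' n : ℕ, if N < n then ArithmeticFunction.vonMangoldt n *
          ‖c n * ((Real.sqrt n : ℂ)⁻¹ * bt T u t (Real.log n))‖ else 0) ^ 2) ≤
      C * (Real.log ((Y : ℝ) / X) + 1) * (wt T t ^ 2 * (Gqc c P u) ^ 2 +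
        wt T t ^ 2 * (Tlc c N u) ^ 2) := by
    refine mul_le_mul_of_nonneg_left ?_ (by positivity)
    exact add_le_add (hG P) h4
  have h7 : wt T t ^ 2 * DDc c C P X Y N u =
      C * ∑ q ∈ Finset.Ioc X (P * Y), (1 / (q : ℝ)) * (wt T t ^ 2 * (Gqc c q u) ^ 2) +
      C * (Real.log ((Y : ℝ) / X) + 1) * (wt T t ^ 2 * (Gqc c P u) ^ 2 +
        wt T t ^ 2 * (Tlc c N u) ^ 2) := by
    unfold DDc
    have : ∑ q ∈ Finset.Ioc X (P * Y), (1 / (q : ℝ)) * (wt T t ^ 2 * (Gqc c q u) ^ 2) =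
      wt T t ^ 2 * ∑ q ∈ Finset.Ioc X (P * Y), (1 / (q : ℝ)) * Gqc c q u ^ 2 := by
      rw [Finset.mul_sum]
      exact Finset.sum_congr rfl (fun q _ => by ring)
    rw [this]; ring
  rw [h7]
  linarith

theorem SWu_nonneg (c : ℕ → ℂ) (b u : ℝ) : 0 ≤ SWu c b u :=
  tsum_nonneg fun n => by positivity

theorem Wu_nonneg (c : ℕ → ℂ) (u : ℝ) : 0 ≤ Wu c u :=
  tsum_nonneg fun n => by
    have := @ArithmeticFunction.vonMangoldt_nonneg n
    positivity

theorem msE_int (M : ℕ) (hM : Squarefree M) {c : ℕ → ℂ}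
    (hc : MeanC c) (ε1 : ℝ) (h1 : 0 < ε1) (h2 : ε1 ≤ 1) : ∃ (C : ℝ) (P : ℕ), 0 < C ∧ 1 ≤ P ∧
    ∀ (X Y N : ℕ) (T κ u : ℝ), 1 ≤ X → X ≤ Y → 1 ≤ κ → 1 ≤ T → T ≤ Real.exp (κ ^ 2) →
    ∫ t : ℝ, primFamM M X Y (fun q χ =>
        ‖∑' n : ℕ, (χ (n : ZMod q) * c n * (ArithmeticFunction.vonMangoldt n : ℂ)) *
          ((Real.sqrt n : ℂ)⁻¹ * bt T u t (Real.log n))‖ ^ 2) ≤
      ((1 + ε1) * Real.exp (Real.pi * N / (X : ℝ) ^ 2) *
        (cM M * (1 + ε1) * Real.log ((Y : ℝ) / X) + C)) *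
        (T / (2 * Real.pi) * SWu c 1 u + C * κ * SWu c (1 / 2) u)
      + (T + C) * DDc c C P X Y N u := by
  obtain ⟨C, P, hC, hP, h⟩ := msE_point M hM hc ε1 h1 h2
  obtain ⟨C5, hC5, h5⟩ := btc_sum_int_E hc
  obtain ⟨C7, hC7, h7⟩ := wt_sq_int
  have hcM := cM_pos M hM
  refine ⟨C + C5 + C7, P, by positivity, hP, ?_⟩
  intro X Y N T κ u hX hXY hκ hT hTκ
  have hT0 : 0 ≤ T := by linarith
  have hlog : 0 ≤ Real.log ((Y : ℝ) / X) := by
    refine Real.log_nonneg ?_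
    have : (0 : ℝ) < X := by exact_mod_cast hX
    rw [one_le_div this]
    exact_mod_cast hXY
  obtain ⟨i1, i2⟩ := h5 T κ u N hκ hT hTκ
  obtain ⟨j1, j2⟩ := h7 T hT0
  have hDD := DDc_nonneg c C hC.le P X Y N u hX hXY
  set D1 : ℝ := (1 + ε1) * Real.exp (Real.pi * N / (X : ℝ) ^ 2) *
        (cM M * (1 + ε1) * Real.log ((Y : ℝ) / X) + C) with hD1
  have hD1n : 0 ≤ D1 := by positivity
  have hS1 := SWu_nonneg c 1 u
  have hS2 := SWu_nonneg c (1 / 2) u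
  calc _ ≤ ∫ t : ℝ, (D1 * ∑ n ∈ Finset.Icc 1 N, (ArithmeticFunction.vonMangoldt n) ^ 2 *
          ‖c n * ((Real.sqrt n : ℂ)⁻¹ * bt T u t (Real.log n))‖ ^ 2 +
            wt T t ^ 2 * DDc c C P X Y N u) := by
        refine integral_mono_of_nonneg ?_ ?_ ?_
        · exact Filter.Eventually.of_forall (fun t => primFamM_nonneg _ _ _ _ (fun _ _ => sq_nonneg _))
        · exact (i1.const_mul _).add (j1.mul_const _)
        · exact Filter.Eventually.of_forall (fun t => h X Y N T u t hX hXY hT0)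
    _ = D1 * (∫ t : ℝ, ∑ n ∈ Finset.Icc 1 N, (ArithmeticFunction.vonMangoldt n) ^ 2 *
          ‖c n * ((Real.sqrt n : ℂ)⁻¹ * bt T u t (Real.log n))‖ ^ 2) +
          (∫ t : ℝ, wt T t ^ 2) * DDc c C P X Y N u := by
        rw [integral_add (i1.const_mul _) (j1.mul_const _), integral_const_mul, integral_mul_const]
    _ ≤ D1 * (T / (2 * Real.pi) * SWu c 1 u + C5 * κ * SWu c (1 / 2) u) +
        (T + C7) * DDc c C P X Y N u := by
        exact add_le_add (mul_le_mul_of_nonneg_left i2 hD1n) (mul_le_mul_of_nonneg_right j2 hDD)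
    _ ≤ _ := by
        have hDD2 : DDc c C P X Y N u ≤ DDc c (C + C5 + C7) P X Y N u := by
          unfold DDc
          gcongr <;> linarith
        have hD2 : D1 ≤ (1 + ε1) * Real.exp (Real.pi * N / (X : ℝ) ^ 2) *
            (cM M * (1 + ε1) * Real.log ((Y : ℝ) / X) + (C + C5 + C7)) := by
          rw [hD1]; gcongr; linarith
        have e1 : T / (2 * Real.pi) * SWu c 1 u + C5 * κ * SWu c (1 / 2) u ≤
            T / (2 * Real.pi) * SWu c 1 u + (C + C5 + C7) * κ * SWu c (1 / 2) u := by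
          gcongr; linarith
        refine add_le_add ?_ ?_
        · exact mul_le_mul hD2 e1 (by positivity) (by positivity)
        · exact mul_le_mul (by linarith) hDD2 hDD (by linarith)

end W388
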