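import Pool.Agent.W388.TW.MeanE1

open Complex Filter Topology Set MeasureTheory
open H370 (zset mult NN Nd Ns)

set_option maxHeartbeats 4000000

namespace W388

open H385

/-- facts on the smoothed sums (from `StSmooth`) -/
structure SmC (c : ℕ → ℂ) (Cs : ℝ) : Prop where
  wc : Continuous (Wu c)
  sc : ∀ b : ℝ, 0 < b → Continuous (SWu c b)
  wle : ∀ u : ℝ, 0 ≤ u → Wu c u ≤ Cs * (u + 1)
  wint : ∀ L : ℝ, 0 ≤ L → ∫ u in (0 : ℝ)..L, Wu c u ≤ Cs * (L + 1)
  sle : ∀ u : ℝ, 0 ≤ u → SWu c (1 / 2) u ≤ Cs * (u + 1) ^ 2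
  sint : ∀ L : ℝ, 0 ≤ L → ∫ u in (0 : ℝ)..L, SWu c (1 / 2) u ≤ Cs * (L + 1) ^ 2
  main : ∀ (γ : ℝ), 0 < γ → γ < Real.pi → ∀ ε : ℝ, 0 < ε → ∃ L0 : ℝ, 0 < L0 ∧ ∀ L : ℝ, L0 ≤ L →
    ∫ u in (0 : ℝ)..L, Rw γ (u / L) * SWu c 1 u ≤
      Real.sqrt Real.pi * L ^ 2 * ((∫ α in (0 : ℝ)..1, α * Rw γ α) + ε)

theorem SWu_anti {c : ℕ → ℂ} (hc : MeanC c) (u : ℝ) : SWu c 1 u ≤ SWu c (1 / 2) u := by
  refine Summable.tsum_le_tsum (fun n => ?_) (hc.hs2 1 one_pos u) (hc.hs2 (1 / 2) (by norm_num) u)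
  refine mul_le_mul_of_nonneg_left (Real.exp_le_exp.mpr ?_) (by positivity)
  nlinarith [sq_nonneg (u - Real.log n)]

/-- the majorant -/
noncomputable def YE (c : ℕ → ℂ) (D1 T L C E 𝓛 : ℝ) (u : ℝ) : ℝ :=
  D1 * (T / (2 * Real.pi) * SWu c 1 u + C * L * SWu c (1 / 2) u) +
    (T + C) * (E * (𝓛 + 1) * (Wu c u + 1))

theorem YE_cont {c : ℕ → ℂ} {Cs : ℝ} (h : SmC c Cs) (D1 T L C E 𝓛 : ℝ) :
    Continuous (YE c D1 T L C E 𝓛) := by
  unfold YE
  have h1 := h.sc 1 one_pos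
  have h2 := h.sc (1 / 2) (by norm_num)
  have h3 := h.wc
  fun_prop

theorem YE_integral {c : ℕ → ℂ} {Cs : ℝ} (h : SmC c Cs) (γ : ℝ) (h0 : 0 < γ) (hπ : γ < Real.pi)
    (D1 T L C E 𝓛 Λ : ℝ) (hD : 0 ≤ D1) (hT : 0 ≤ T) (hL : 0 ≤ L) (hC : 0 ≤ C) (hE : 0 ≤ E)
    (h𝓛 : 0 ≤ 𝓛) (hΛ : 0 < Λ) :
    ∫ u in (0 : ℝ)..Λ, Rw γ (u / Λ) * YE c D1 T L C E 𝓛 u ≤
      D1 * (T / (2 * Real.pi)) * (∫ u in (0 : ℝ)..Λ, Rw γ (u / Λ) * SWu c 1 u) +
      Rw γ 0 * (D1 * C * L * (∫ u in (0 : ℝ)..Λ, SWu c (1 / 2) u) +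
        (T + C) * (E * (𝓛 + 1)) * ((∫ u in (0 : ℝ)..Λ, Wu c u) + Λ)) := by
  have hR := Rw_cont γ h0 hπ
  have c1 := h.sc 1 one_pos
  have c2 := h.sc (1 / 2) (by norm_num)
  have c3 := h.wc
  have hRS : Continuous (fun u : ℝ => Rw γ (u / Λ) * SWu c 1 u) :=
    (hR.comp (continuous_id.div_const Λ)).mul c1
  set F : ℝ → ℝ := fun u => D1 * C * L * SWu c (1 / 2) u +
    (T + C) * (E * (𝓛 + 1)) * (Wu c u + 1) with hF
  have hFc : Continuous F := by
    rw [hF]; fun_prop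
  have hF0 : ∀ u, 0 ≤ F u := by
    intro u
    have := SWu_nonneg c (1 / 2) u
    have := Wu_nonneg c u
    rw [hF]; positivity
  have h1 : ∫ u in (0 : ℝ)..Λ, Rw γ (u / Λ) * YE c D1 T L C E 𝓛 u ≤
      ∫ u in (0 : ℝ)..Λ, (D1 * (T / (2 * Real.pi)) * (Rw γ (u / Λ) * SWu c 1 u) + Rw γ 0 * F u) := by
    refine intervalIntegral.integral_mono_on hΛ.le ?_ ?_ (fun u hu => ?_)
    · exact ((hR.comp (continuous_id.div_const Λ)).mul (YE_cont h _ _ _ _ _ _)).intervalIntegrable _ _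
    · exact ((hRS.const_mul _).add (hFc.const_mul _)).intervalIntegrable _ _
    · have h2 : YE c D1 T L C E 𝓛 u = D1 * (T / (2 * Real.pi)) * SWu c 1 u + F u := by
        rw [hF]; unfold YE; ring
      rw [h2]
      have h3 : Rw γ (u / Λ) * F u ≤ Rw γ 0 * F u :=
        mul_le_mul_of_nonneg_right (Rw_le γ h0 hπ _ (div_nonneg hu.1 hΛ.le)) (hF0 u)
      nlinarith
  refine h1.trans (le_of_eq ?_)
  rw [intervalIntegral.integral_add ((hRS.const_mul _).intervalIntegrable _ _)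
    ((hFc.const_mul _).intervalIntegrable _ _), intervalIntegral.integral_const_mul,
    intervalIntegral.integral_const_mul]
  congr 2
  have i1 : IntervalIntegrable (fun u : ℝ => D1 * C * L * SWu c (1 / 2) u) volume 0 Λ :=
    (c2.const_mul _).intervalIntegrable _ _
  have i2 : IntervalIntegrable (fun u : ℝ => (T + C) * (E * (𝓛 + 1)) * (Wu c u + 1)) volume 0 Λ :=
    ((c3.add continuous_const).const_mul _).intervalIntegrable _ _
  rw [hF, intervalIntegral.integral_add i1 i2, intervalIntegral.integral_const_mul,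
    intervalIntegral.integral_const_mul, intervalIntegral.integral_add
      (c3.intervalIntegrable _ _) (continuous_const.intervalIntegrable _ _)]
  simp

theorem YE_final (M : ℕ) (hM : Squarefree M) {c : ℕ → ℂ} (hcm : MeanC c) {Cs : ℝ} (hCs : 0 < Cs)
    (hs : SmC c Cs) (γ β : ℝ) (h0 : 0 < γ) (hπ : γ < Real.pi) (hβ : 0 < β) (ε : ℝ) (hε : 0 < ε) :
    ∃ ε1 : ℝ, 0 < ε1 ∧ ε1 ≤ 1 ∧ ∀ (C E : ℝ), 0 < C → 0 < E →
    ∃ K L0 : ℝ, 1 ≤ K ∧ 0 < L0 ∧ ∀ (X Y : ℕ) (T D1 : ℝ), Real.exp L0 ≤ X → K * X ≤ Y →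
      (Real.log X) ^ 2 ≤ T → 0 ≤ D1 → D1 ≤ (1 + 11 * ε1) * WM M X Y →
      ∃ y1 y2 : ℝ, 0 ≤ y1 ∧ 0 ≤ y2 ∧
      (∀ u ∈ Set.Icc 0 (β * Real.log X),
        YE c D1 T (Real.log X) C E (Real.log ((Y : ℝ) / X)) u ≤ T * (y1 * (u + 1) + y2)) ∧
      Real.sqrt y1 + Real.sqrt y2 ≤ ε * Real.log X * Real.sqrt (WM M X Y) ∧
      (2 / (Real.sqrt Real.pi * (β * Real.log X))) * (∫ u in (0 : ℝ)..(β * Real.log X),
        Rw γ (u / (β * Real.log X)) * YE c D1 T (Real.log X) C E (Real.log ((Y : ℝ) / X)) u) ≤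
        T / (2 * Real.pi) * Real.log X * WM M X Y *
          (2 * β * (∫ α in (0 : ℝ)..1, α * Rw γ α) + ε) := by
  obtain ⟨C4, hC4, hmass⟩ := prim_mass_M M hM
  set I1 : ℝ := ∫ α in (0 : ℝ)..1, α * Rw γ α with hI1
  have hI1n : 0 ≤ I1 := I1_nonneg γ h0 hπ
  set R0 : ℝ := Rw γ 0 with hR0
  have hR0n : 0 ≤ R0 := Rw_nonneg γ h0 hπ 0
  have hpi := Real.pi_pos
  have hspi : 0 < Real.sqrt Real.pi := Real.sqrt_pos.mpr hpi
  have hspi2 : Real.sqrt Real.pi * Real.sqrt Real.pi = Real.pi := Real.mul_self_sqrt hpi.le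
  have hc0 := cM_pos M hM
  refine ⟨min 1 (ε / (88 * (β * I1 + 1))), by positivity, min_le_left _ _, ?_⟩
  set ε1 : ℝ := min 1 (ε / (88 * (β * I1 + 1))) with hε1
  have hε1p : 0 < ε1 := by positivity
  have hε1le : ε1 ≤ 1 := min_le_left _ _
  have hε1b : 22 * ε1 * (β * I1) ≤ ε / 4 := by
    have h1 : ε1 ≤ ε / (88 * (β * I1 + 1)) := min_le_right _ _
    have h2 : 0 ≤ β * I1 := by positivity
    calc 22 * ε1 * (β * I1) ≤ 22 * (ε / (88 * (β * I1 + 1))) * (β * I1) := by gcongr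
      _ = ε / 4 * (β * I1 / (β * I1 + 1)) := by field_simp; ring
      _ ≤ ε / 4 * 1 := by
        refine mul_le_mul_of_nonneg_left ?_ (by positivity)
        rw [div_le_one (by positivity)]; linarith
      _ = ε / 4 := mul_one _
  intro C E hC hE
  set C11 : ℝ := 4 / cM M with hC11
  have hC11p : 0 < C11 := by positivity
  set ε3 : ℝ := ε / (96 * β) with hε3
  have hε3p : 0 < ε3 := by positivity
  have hε3b : 24 * β * ε3 = ε / 4 := by rw [hε3]; field_simp; ring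
  obtain ⟨Lm, hLm, hmain⟩ := hs.main γ h0 hπ ε3 hε3p
  set K1 : ℝ := 2 * R0 / Real.sqrt Real.pi * (48 * C * Cs * β + 2 * E * C11 * (2 * Cs + 1)) with hK1
  have hK1n : 0 ≤ K1 := by positivity
  set Q1 : ℝ := 24 * Cs * (1 + C) * β + 2 * E * C11 * (Cs + 1) with hQ1
  -- choice of L0
  have hev : ∀ᶠ L : ℝ in atTop, 1 ≤ L ∧ 1 ≤ β * L ∧ C ≤ L ∧ Lm ≤ β * L ∧
      4 * Real.pi * K1 ≤ ε * L ∧ Q1 ≤ ε ^ 2 * L := by
    filter_upwards [eventually_ge_atTop 1, lin_ev 1 β hβ, eventually_ge_atTop C, lin_ev Lm β hβ,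
      lin_ev (4 * Real.pi * K1) ε hε, lin_ev Q1 (ε ^ 2) (by positivity)]
      with L a1 a2 a3 a4 a5 a6
    exact ⟨a1, a2, a3, a4, a5, a6⟩
  obtain ⟨L0', hL0'⟩ := Filter.eventually_atTop.mp hev
  set L0 : ℝ := max L0' 1 with hL0
  set K : ℝ := Real.exp (2 * C4 / cM M + 1) with hK
  have hK1' : 1 ≤ K := by
    rw [hK]; exact Real.one_le_exp (by positivity)
  refine ⟨K, L0, hK1', lt_of_lt_of_le one_pos (le_max_right _ _), ?_⟩
  intro X Y T D1 hXe hKX hT hD1 hD1W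
  have hXpos : (0 : ℝ) < X := lt_of_lt_of_le (Real.exp_pos _) hXe
  have hX1 : 1 ≤ X := by exact_mod_cast hXpos
  set L : ℝ := Real.log X with hL
  have hLL0 : L0 ≤ L := by rw [hL, Real.le_log_iff_exp_le hXpos]; exact hXe
  obtain ⟨a1, a2, a3, a4, a5, a6⟩ := hL0' L ((le_max_left _ _).trans hLL0)
  have hL0p : 0 < L := by linarith
  have hXYr : (X : ℝ) ≤ Y := aux_XY K X Y hK1' hXpos hKX
  have hXY : X ≤ Y := by exact_mod_cast hXYr
  have hYpos : (0 : ℝ) < Y := by linarith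
  set 𝓛 : ℝ := Real.log ((Y : ℝ) / X) with h𝓛
  have h𝓛K : 2 * C4 / cM M + 1 ≤ 𝓛 := by
    rw [h𝓛, Real.le_log_iff_exp_le (by positivity), ← hK, le_div_iff₀ hXpos]
    exact hKX
  have hCc : 0 ≤ 2 * C4 / cM M := by positivity
  have h𝓛n : 0 ≤ 𝓛 := by linarith
  set W : ℝ := WM M X Y with hW
  have hWmass : |W - cM M * 𝓛| ≤ C4 := hmass X Y hX1 hXY
  have hWlow : cM M / 2 * 𝓛 ≤ W := by
    have h1 := (abs_le.mp hWmass).1
    have h2 : C4 ≤ cM M / 2 * 𝓛 := by
      have : 2 * C4 / cM M ≤ 𝓛 := by linarith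
      rw [div_le_iff₀ hc0] at this
      linarith
    linarith
  have hWn : 0 ≤ W := le_trans (by positivity) hWlow
  have hC11W : 𝓛 + 1 ≤ C11 * W := by
    have h1 : 𝓛 + 1 ≤ 2 * 𝓛 := by linarith
    refine h1.trans ?_
    have h2 : C11 * (cM M / 2 * 𝓛) = 2 * 𝓛 := by rw [hC11]; field_simp; ring
    rw [← h2]
    exact mul_le_mul_of_nonneg_left hWlow hC11p.le
  have hT1 : L ≤ T := by
    have : L * 1 ≤ L * L := mul_le_mul_of_nonneg_left a1 hL0p.le
    linarith [show L ^ 2 = L * L by ring]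
  have hTpos : 0 < T := by linarith
  have hCT : T + C ≤ 2 * T := by linarith
  have hLambda : 0 < β * L := by positivity
  have hD12 : D1 ≤ 12 * W := hD1W.trans (mul_le_mul_of_nonneg_right (by linarith) hWn)
  refine ⟨W * (12 * Cs * (1 + C) * (β * L + 1) + 2 * E * C11 * (Cs + 1)), 0, by positivity,
    le_rfl, ?_, ?_, ?_⟩
  · -- pointwise
    intro u hu
    have hu0 : 0 ≤ u := hu.1
    have s0 := SWu_nonneg c 1 u
    have s1 := SWu_anti hcm u
    have s2 := hs.sle u hu0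
    have s3 := SWu_nonneg c (1 / 2) u
    have s4 := hs.wle u hu0
    have s5 := Wu_nonneg c u
    have s6 : SWu c (1 / 2) u ≤ Cs * ((β * L + 1) * (u + 1)) := by
      refine s2.trans (mul_le_mul_of_nonneg_left ?_ hCs.le)
      rw [sq]
      exact mul_le_mul_of_nonneg_right (by linarith [hu.2]) (by linarith)
    set S : ℝ := Cs * ((β * L + 1) * (u + 1)) with hS
    have hSn : 0 ≤ S := s3.trans s6
    have b1 : D1 * (T / (2 * Real.pi) * SWu c 1 u + C * L * SWu c (1 / 2) u) ≤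
        12 * W * (T * (1 + C) * S) := by
      have c1 : T / (2 * Real.pi) * SWu c 1 u ≤ T * S :=
        mul_le_mul (aux_pi T hTpos) (s1.trans s6) s0 hTpos.le
      have c2 : C * L * SWu c (1 / 2) u ≤ C * T * S := by gcongr
      refine mul_le_mul hD12 ?_ (by positivity) (by positivity)
      calc _ ≤ T * S + C * T * S := add_le_add c1 c2
        _ = _ := by ring
    have b2 : (T + C) * (E * (𝓛 + 1) * (Wu c u + 1)) ≤
        (2 * T) * (E * (C11 * W) * ((Cs + 1) * (u + 1))) := by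
      have c1 : Wu c u + 1 ≤ (Cs + 1) * (u + 1) := by
        have : Cs * (u + 1) + 1 ≤ (Cs + 1) * (u + 1) := by
          have e : (Cs + 1) * (u + 1) = Cs * (u + 1) + (u + 1) := by ring
          rw [e]; linarith
        linarith
      refine mul_le_mul hCT ?_ (by positivity) (by positivity)
      refine mul_le_mul ?_ c1 (by positivity) (by positivity)
      exact mul_le_mul_of_nonneg_left hC11W hE.le
    unfold YE
    calc _ ≤ 12 * W * (T * (1 + C) * S) +
          (2 * T) * (E * (C11 * W) * ((Cs + 1) * (u + 1))) := add_le_add b1 b2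
      _ = _ := by rw [hS]; ring
  · -- square roots
    rw [Real.sqrt_zero, add_zero]
    have c1 : W * (12 * Cs * (1 + C) * (β * L + 1) + 2 * E * C11 * (Cs + 1)) ≤ (ε * L) ^ 2 * W := by
      have d1 : 12 * Cs * (1 + C) * (β * L + 1) + 2 * E * C11 * (Cs + 1) ≤ Q1 * L := by
        have e1 : 12 * Cs * (1 + C) * (β * L + 1) ≤ 12 * Cs * (1 + C) * (2 * (β * L)) := by
          refine mul_le_mul_of_nonneg_left (by linarith) (by positivity)
        have e2 : 2 * E * C11 * (Cs + 1) * 1 ≤ 2 * E * C11 * (Cs + 1) * L :=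
          mul_le_mul_of_nonneg_left a1 (by positivity)
        rw [hQ1]
        calc _ ≤ 12 * Cs * (1 + C) * (2 * (β * L)) + 2 * E * C11 * (Cs + 1) * L := by linarith
          _ = _ := by ring
      have d2 : Q1 * L ≤ (ε * L) ^ 2 := by
        calc Q1 * L ≤ (ε ^ 2 * L) * L := mul_le_mul_of_nonneg_right a6 hL0p.le
          _ = _ := by ring
      rw [mul_comm W]
      exact mul_le_mul_of_nonneg_right (d1.trans d2) hWn
    calc _ ≤ Real.sqrt ((ε * L) ^ 2 * W) := Real.sqrt_le_sqrt c1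
      _ = _ := by rw [Real.sqrt_mul (by positivity), Real.sqrt_sq (by positivity)]
  · -- the integral
    have g0 := YE_integral hs γ h0 hπ D1 T L C E 𝓛 (β * L) hD1 hTpos.le hL0p.le hC.le hE.le h𝓛n
      hLambda
    have g1 := hmain (β * L) a4
    have g2 := hs.sint (β * L) hLambda.le
    have g3 := hs.wint (β * L) hLambda.le
    have g4 : ∫ u in (0 : ℝ)..(β * L), Rw γ (u / (β * L)) * YE c D1 T L C E 𝓛 u ≤
        D1 * (T / (2 * Real.pi)) * (Real.sqrt Real.pi * (β * L) ^ 2 * (I1 + ε3)) +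
        R0 * (12 * W * C * L * (Cs * (4 * (β * L) ^ 2)) +
          (2 * T) * (E * (C11 * W)) * ((2 * Cs + 1) * (β * L))) := by
      refine g0.trans (add_le_add ?_ ?_)
      · exact mul_le_mul_of_nonneg_left g1 (by positivity)
      · refine mul_le_mul_of_nonneg_left (add_le_add ?_ ?_) hR0n
        · have e1 : (β * L + 1) ^ 2 ≤ 4 * (β * L) ^ 2 := by
            have : (β * L + 1) ^ 2 ≤ (2 * (β * L)) ^ 2 :=
              pow_le_pow_left₀ (by positivity) (by linarith) 2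
            linarith [show (2 * (β * L)) ^ 2 = 4 * (β * L) ^ 2 by ring]
          have e2 : ∫ u in (0 : ℝ)..(β * L), SWu c (1 / 2) u ≤ Cs * (4 * (β * L) ^ 2) :=
            g2.trans (mul_le_mul_of_nonneg_left e1 hCs.le)
          have e3 : 0 ≤ ∫ u in (0 : ℝ)..(β * L), SWu c (1 / 2) u :=
            intervalIntegral.integral_nonneg hLambda.le (fun u _ => SWu_nonneg c _ u)
          have e4 : D1 * C * L ≤ 12 * W * C * L := by gcongr
          exact mul_le_mul e4 e2 e3 (by positivity)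
        · have e1 : (∫ u in (0 : ℝ)..(β * L), Wu c u) + β * L ≤ (2 * Cs + 1) * (β * L) := by
            have : Cs * (β * L + 1) ≤ Cs * (2 * (β * L)) :=
              mul_le_mul_of_nonneg_left (by linarith) hCs.le
            linarith [show (2 * Cs + 1) * (β * L) = Cs * (2 * (β * L)) + β * L by ring]
          have e3 : 0 ≤ ∫ u in (0 : ℝ)..(β * L), Wu c u :=
            intervalIntegral.integral_nonneg hLambda.le (fun u _ => Wu_nonneg c u)
          refine mul_le_mul ?_ e1 (by positivity) (by positivity)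
          exact mul_le_mul hCT (mul_le_mul_of_nonneg_left hC11W hE.le) (by positivity) (by positivity)
    have hpre : 0 ≤ 2 / (Real.sqrt Real.pi * (β * L)) := by positivity
    have g6 := mul_le_mul_of_nonneg_left g4 hpre
    refine g6.trans ?_
    have g7 : (2 / (Real.sqrt Real.pi * (β * L))) *
        (D1 * (T / (2 * Real.pi)) * (Real.sqrt Real.pi * (β * L) ^ 2 * (I1 + ε3)) +
        R0 * (12 * W * C * L * (Cs * (4 * (β * L) ^ 2)) +
          (2 * T) * (E * (C11 * W)) * ((2 * Cs + 1) * (β * L)))) =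
        D1 * (T / (2 * Real.pi)) * (2 * β * (I1 + ε3) * L) +
        2 * R0 / Real.sqrt Real.pi * W * (48 * C * Cs * β * L ^ 2 + 2 * E * C11 * (2 * Cs + 1) * T) := by
      field_simp
      ring
    rw [g7]
    have g8 : 2 * R0 / Real.sqrt Real.pi * W *
        (48 * C * Cs * β * L ^ 2 + 2 * E * C11 * (2 * Cs + 1) * T) ≤ T * W * K1 := by
      have : 48 * C * Cs * β * L ^ 2 + 2 * E * C11 * (2 * Cs + 1) * T ≤
          T * (48 * C * Cs * β + 2 * E * C11 * (2 * Cs + 1)) := by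
        have e := mul_le_mul_of_nonneg_left hT (show 0 ≤ 48 * C * Cs * β by positivity)
        calc _ ≤ 48 * C * Cs * β * T + 2 * E * C11 * (2 * Cs + 1) * T := by linarith
          _ = _ := by ring
      calc _ ≤ 2 * R0 / Real.sqrt Real.pi * W *
            (T * (48 * C * Cs * β + 2 * E * C11 * (2 * Cs + 1))) :=
            mul_le_mul_of_nonneg_left this (by positivity)
        _ = _ := by rw [hK1]; ring
    have g9 : T * W * K1 ≤ T / (2 * Real.pi) * L * W * (ε / 2) := by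
      have : K1 ≤ L * ε / (4 * Real.pi) := by
        rw [le_div_iff₀ (by positivity)]; linarith
      calc T * W * K1 ≤ T * W * (L * ε / (4 * Real.pi)) :=
            mul_le_mul_of_nonneg_left this (by positivity)
        _ = _ := by field_simp; ring
    have g10 : D1 * (T / (2 * Real.pi)) * (2 * β * (I1 + ε3) * L) ≤
        T / (2 * Real.pi) * L * W * (2 * β * I1 + ε / 2) := by
      have e1 : D1 * (T / (2 * Real.pi)) * (2 * β * (I1 + ε3) * L) ≤
          ((1 + 11 * ε1) * W) * (T / (2 * Real.pi)) * (2 * β * (I1 + ε3) * L) := by gcongr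
      refine e1.trans ?_
      have e2 : (1 + 11 * ε1) * (2 * β * (I1 + ε3)) ≤ 2 * β * I1 + ε / 2 := by
        have e3 : 11 * ε1 * (2 * β * ε3) ≤ 11 * (2 * β * ε3) := by
          have := mul_le_mul_of_nonneg_right hε1le (show 0 ≤ 11 * (2 * β * ε3) by positivity)
          linarith
        have e5 : (1 + 11 * ε1) * (2 * β * (I1 + ε3)) =
          2 * β * I1 + (22 * ε1 * (β * I1)) + 2 * β * ε3 + 11 * ε1 * (2 * β * ε3) := by ring
        rw [e5]
        linarith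
      calc ((1 + 11 * ε1) * W) * (T / (2 * Real.pi)) * (2 * β * (I1 + ε3) * L) =
          (T / (2 * Real.pi) * L * W) * ((1 + 11 * ε1) * (2 * β * (I1 + ε3))) := by ring
        _ ≤ _ := mul_le_mul_of_nonneg_left e2 (by positivity)
    calc _ ≤ T / (2 * Real.pi) * L * W * (2 * β * I1 + ε / 2) +
          T / (2 * Real.pi) * L * W * (ε / 2) := add_le_add g10 (g8.trans g9)
      _ = _ := by ring

end W388
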